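import Pool.Agent.TH115.SD.Ind

/-!
The criterion of the second descent.
-/

set_option autoImplicit false
set_option linter.all false

open Polynomial IsDedekindDomain WeierstrassCurve WeierstrassCurve.Affine
open scoped Classical

namespace Pool.Agent.TH115.GD

section van

variable {K F : Type} [Field K] [Field F] [Algebra K F] {α β : K} (h2 : (2 : K) ≠ 0) (hα : α ≠ 0)
  (hβ : β ≠ 0) (hαβ : α ≠ β)

include h2 hα hβ hαβ in
/-- If the reduction modulo two of every class is the class of a point, all classes come from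
points. -/
theorem tate_of_van {k' : Type} [Field k'] [Algebra k'[X] F] [IsFractionRing k'[X] F]
    (h : ∀ c : ℕ → (Sep F ≃ₐ[F] Sep F) → Pt (crv α β) (Sep F), IsTateClass k' (crv α β) c →
      ∃ T : Pt (crv α β) K, Van (c 1) T) : TateAtTwo (F := F) k' (crv α β) := by
  have key : ∀ (n : ℕ) (c : ℕ → (Sep F ≃ₐ[F] Sep F) → Pt (crv α β) (Sep F)),
      IsTateClass k' (crv α β) c →
      ∃ (P : Pt (crv α β) K) (R : Pt (crv α β) (Sep F)),
        2 ^ n • R = act (crv α β) (incl K K (Sep F)) P ∧
        ∀ σ, c n σ = act (crv α β) (rs K σ) R - R := by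
    intro n
    induction n with
    | zero =>
      intro c hc
      refine ⟨0, 0, ?_, fun σ => ?_⟩
      · rw [smul_zero, map_zero]
      · rw [hc.tc.zero, map_zero, sub_zero]
    | succ n ih =>
      intro c hc
      obtain ⟨T, hV⟩ := h c hc
      obtain ⟨c', hc', H, hH, hcc⟩ := tate_step h2 hα hβ hαβ hc hV
      obtain ⟨P, R, hR, hcR⟩ := ih c' hc'
      refine ⟨2 • P + T, R + H (n + 1), ?_, fun σ => ?_⟩
      · rw [smul_add, hH, map_add, map_nsmul, ← hR, pow_succ, mul_comm, mul_smul]
      · rw [hcc (n + 1) σ, hc'.tc.two n σ, hcR σ, map_add]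
        abel
  intro c hc hl hi n
  exact key n c ⟨hc, hl, hi⟩

end van

section core

variable {k k' K F : Type} [Field k] [Field k'] [Algebra k k'] [Field K] [Algebra k[X] K]
    [Field F] [Algebra k'[X] F] [IsFractionRing k'[X] F] [Algebra K F]

variable (hT : IsTower k k' K F) (h2 : (2 : k) ≠ 0) {a b : k[X]} (ha : a ≠ 0) (hb : b ≠ 0)
  (hab : a ≠ b) (hco : IsCoprime a b)
  (hsep : ∀ π : k[X], Irreducible π → π ∣ a * b * (a - b) → π.Separable)
  (hodd : Odd (max a.natDegree b.natDegree) ∨ TwoOddFactors a b)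

/-- All the triples which satisfy the conditions of the second descent come from points. -/
def EnoughPoints2 (K F : Type) [Field K] [Algebra k[X] K] [Field F] [Algebra K F] (a b : k[X]) :
    Prop :=
  ∀ t ∈ Triples2 a b, ∃ P : Pt (crv (algebraMap k[X] K a) (algebraMap k[X] K b)) K,
    Represents K F (t.1 * t.2.1) (d0 (algebraMap k[X] K a) (algebraMap k[X] K b) P) ∧
    Represents K F (t.1 * t.2.2) (d1 (algebraMap k[X] K a) (algebraMap k[X] K b) P)

include hT h2 ha hb hab hco hsep hodd in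
/-- The criterion of the second descent. -/
theorem criterion2 (h : EnoughPoints2 K F a b) :
    TateAtTwo (F := F) k' (crv (algebraMap k[X] K a) (algebraMap k[X] K b)) := by
  haveI := hT.sep
  haveI := hT.fracK
  have h2K : (2 : K) ≠ 0 := tt h2
  have inj := IsFractionRing.injective k[X] K
  have haK : algebraMap k[X] K a ≠ 0 := by simpa using ha
  have hbK : algebraMap k[X] K b ≠ 0 := by simpa using hb
  have habK : algebraMap k[X] K a ≠ algebraMap k[X] K b := fun h => hab (inj h)
  refine tate_of_van h2K haK hbK habK fun c hc => ?_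
  obtain ⟨t, ht, a0, a1, n0, n1, hrep, q0, q1⟩ :=
    triple_cls2 hT h2 ha hb hab hco hsep hodd hc 0
  obtain ⟨P, p0, p1⟩ := h t ht
  have z0 : d0 (algebraMap k[X] K a) (algebraMap k[X] K b)
    (0 : Pt (crv (algebraMap k[X] K a) (algebraMap k[X] K b)) K) = 1 := rfl
  have z1 : d1 (algebraMap k[X] K a) (algebraMap k[X] K b)
    (0 : Pt (crv (algebraMap k[X] K a) (algebraMap k[X] K b)) K) = 1 := rfl
  rw [z0, map_one, mul_one] at q0
  rw [z1, map_one, mul_one] at q1
  exact ⟨P, a0, a1, hrep, q0.trans p0, q1.trans p1⟩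

include hT h2 ha hb hab hco hsep hodd in
/-- If there are as many independent points as the number of triples allows, then all triples come
from points. -/
theorem enough_of_rank2 {d : ℕ} (hd : (Triples2 a b).encard ≤ 2 ^ (d + 2))
    (P : Fin d → Pt (crv (algebraMap k[X] K a) (algebraMap k[X] K b)) K)
    (hP : ∀ S : Finset (Fin d), S.Nonempty →
      ∀ T Q : Pt (crv (algebraMap k[X] K a) (algebraMap k[X] K b)) K, T + T = 0 →
        ∑ i ∈ S, P i ≠ T + (Q + Q)) :
    EnoughPoints2 K F a b := by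
  haveI := hT.sep
  haveI := hT.fracK
  have h2K : (2 : K) ≠ 0 := tt h2
  have inj := IsFractionRing.injective k[X] K
  have haK : algebraMap k[X] K a ≠ 0 := by simpa using ha
  have hbK : algebraMap k[X] K b ≠ 0 := by simpa using hb
  have habK : algebraMap k[X] K a ≠ algebraMap k[X] K b := fun h => hab (inj h)
  obtain ⟨T, hTinj, hT2⟩ := four_pts h2K haK hbK habK
  -- the triple of a point
  have tri : ∀ x : Finset (Fin d) × Fin 4, ∃ t ∈ Triples2 a b,
      SqEq (algebraMap K F (d0 (algebraMap k[X] K a) (algebraMap k[X] K b)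
        (∑ i ∈ x.1, P i + T x.2))) (emb k K F (t.1 * t.2.1)) ∧
      SqEq (algebraMap K F (d1 (algebraMap k[X] K a) (algebraMap k[X] K b)
        (∑ i ∈ x.1, P i + T x.2))) (emb k K F (t.1 * t.2.2)) := by
    intro x
    obtain ⟨t, ht, a0, a1, n0, n1, ⟨t0, t1, m0, m1, e0, e1, k0, k1⟩, q0, q1⟩ :=
      triple_cls2 hT h2 ha hb hab hco hsep hodd (IsTateClass.zero (F := F) (k' := k'))
        (∑ i ∈ x.1, P i + T x.2)
    have fixed_sq : ∀ {t : Sep F} {y : F}, t ≠ 0 → t ^ 2 = algebraMap F (Sep F) y →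
        (∀ σ : Sep F ≃ₐ[F] Sep F, σ t = t) → SqEq y 1 := by
      intro t y ht hy hσ
      have hmem : t ∈ Set.range (algebraMap F (Sep F)) := by
        rw [InfiniteGalois.mem_range_algebraMap_iff_fixed]
        exact hσ
      obtain ⟨r, rfl⟩ := hmem
      refine ⟨r, fun h => ht (by rw [h, map_zero]), ?_⟩
      rw [← map_pow] at hy
      rw [mul_one]
      exact ((algebraMap F (Sep F)).injective hy).symm
    have o0 : SqEq a0 1 := fixed_sq m0 e0 (fun σ => by
      rw [k0]
      simp [s0, Point.zero_def])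
    have o1 : SqEq a1 1 := fixed_sq m1 e1 (fun σ => by
      rw [k1]
      simp [s1, Point.zero_def])
    have g : ∀ {x y z : F}, SqEq x 1 → SqEq (x * y) z → SqEq y z := by
      rintro x y z ⟨u, hu, rfl⟩ ⟨v, hv, e⟩
      refine ⟨v / u, div_ne_zero hv hu, ?_⟩
      field_simp
      linear_combination e
    exact ⟨t, ht, g o0 q0, g o1 q1⟩
  choose Ψ hΨ1 hΨ2 hΨ3 using tri
  have hΨinj : Function.Injective Ψ := by
    rintro ⟨S, i⟩ ⟨S', i'⟩ h
    have q0 := (hΨ2 (S, i)).trans ((SqEq.of_eq (by rw [h])).trans (hΨ2 (S', i')).symm)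
    have q1 := (hΨ3 (S, i)).trans ((SqEq.of_eq (by rw [h])).trans (hΨ3 (S', i')).symm)
    set x := ∑ i ∈ S, P i + T i with hx
    set x' := ∑ i ∈ S', P i + T i' with hx'
    obtain ⟨f0, f1⟩ := d_add' hT h2 ha hb hab x x'
    have hEK := isE (algebraMap k[X] K a) (algebraMap k[X] K b) K h2K haK hbK habK
    have sq : ∀ {y z : F}, z ≠ 0 → SqEq y z → SqEq (y * z) 1 := by
      rintro y z hz ⟨c, hc, rfl⟩
      exact ⟨c * z, mul_ne_zero hc hz, by ring⟩
    have r0 : SqEq (algebraMap K F (d0 (algebraMap k[X] K a) (algebraMap k[X] K b) (x + x')))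
        1 := by
      refine f0.map.trans ?_
      rw [map_mul]
      exact sq ((_root_.map_ne_zero _).2 (d0_ne hEK x')) q0
    have r1 : SqEq (algebraMap K F (d1 (algebraMap k[X] K a) (algebraMap k[X] K b) (x + x')))
        1 := by
      refine f1.map.trans ?_
      rw [map_mul]
      exact sq ((_root_.map_ne_zero _).2 (d1_ne hEK x')) q1
    obtain ⟨Q, hQ⟩ := half_K hT h2 ha hb hab hco hsep hodd (x + x') r0 r1
    have hTT : (T i + T i') + (T i + T i') = 0 := by
      rw [add_add_add_comm, hT2, hT2, add_zero]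
    have hsum : ∑ i ∈ S, P i + ∑ i ∈ S', P i = ∑ i ∈ symmDiff S S', P i +
        (∑ i ∈ S ∩ S', P i + ∑ i ∈ S ∩ S', P i) := by
      have h1 : ∑ i ∈ S, P i = ∑ i ∈ S \ S', P i + ∑ i ∈ S ∩ S', P i := by
        rw [← Finset.sum_sdiff (Finset.inter_subset_left : S ∩ S' ⊆ S),
          Finset.sdiff_inter_self_left]
      have h3 : ∑ i ∈ S', P i = ∑ i ∈ S' \ S, P i + ∑ i ∈ S ∩ S', P i := by
        rw [← Finset.sum_sdiff (Finset.inter_subset_right : S ∩ S' ⊆ S'),
          Finset.sdiff_inter_self_right]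
      have h4 : ∑ i ∈ symmDiff S S', P i = ∑ i ∈ S \ S', P i + ∑ i ∈ S' \ S, P i := by
        rw [symmDiff_def]
        exact Finset.sum_union (disjoint_sdiff_sdiff)
      rw [h1, h3, h4]
      abel
    have hSS : S = S' := by
      by_contra hne
      have hnon : (symmDiff S S').Nonempty := by
        rw [Finset.nonempty_iff_ne_empty, ← Finset.bot_eq_empty, Ne, symmDiff_eq_bot]
        exact hne
      apply hP _ hnon (T i + T i') (Q - ∑ i ∈ S ∩ S', P i) hTT
      have h5 : ∑ i ∈ symmDiff S S', P i = (Q + Q) - (T i + T i') -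
          (∑ i ∈ S ∩ S', P i + ∑ i ∈ S ∩ S', P i) := by
        rw [hQ, hx, hx']
        have : ∑ i ∈ S, P i + T i + (∑ i ∈ S', P i + T i') - (T i + T i') =
            ∑ i ∈ S, P i + ∑ i ∈ S', P i := by abel
        rw [this, hsum]
        abel
      have h6 : -(T i + T i') = T i + T i' := neg_eq_of_add_eq_zero_left hTT
      rw [h5, sub_eq_add_neg (Q + Q), h6]
      abel
    subst hSS
    have h7 : T i + T i' = (Q - ∑ i ∈ S, P i) + (Q - ∑ i ∈ S, P i) := by
      have : Q - ∑ i ∈ S, P i + (Q - ∑ i ∈ S, P i) = (Q + Q) - (∑ i ∈ S, P i + ∑ i ∈ S, P i) := by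
        abel
      rw [this, hQ, hx, hx']
      abel
    have h8 : T i + T i' = 0 := by
      rw [h7]
      apply noFourK (F := F) hT h2 ha hb hab hco hsep hodd
      rw [← h7, hTT]
    have h9 : T i = T i' := by
      have : T i' = -T i' := (neg_eq_of_add_eq_zero_left (hT2 i')).symm
      rw [this]
      exact eq_neg_of_add_eq_zero_left h8
    rw [hTinj h9]
  -- surjectivity
  have hcard : (Set.range Ψ).encard = 2 ^ (d + 2) := by
    rw [← Set.image_univ, hΨinj.encard_image, Set.encard_univ]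
    rw [ENat.card_eq_coe_fintype_card, Fintype.card_prod, Fintype.card_finset, Fintype.card_fin,
      Fintype.card_fin]
    push_cast
    rw [pow_add]
    norm_num
  have hrange : Set.range Ψ = Triples2 a b := by
    apply (Set.finite_range Ψ).eq_of_subset_of_encard_le
    · rintro _ ⟨x, rfl⟩
      exact hΨ1 x
    · rw [hcard]; exact hd
  intro t hmem
  rw [← hrange] at hmem
  obtain ⟨x, hx⟩ := hmem
  refine ⟨∑ i ∈ x.1, P i + T x.2, ?_, ?_⟩
  · have := hΨ2 x
    rw [hx] at this
    exact this.symm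
  · have := hΨ3 x
    rw [hx] at this
    exact this.symm

end core

end Pool.Agent.TH115.GD
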