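import Pool.Agent.TH115.SD.Crit2

/-!
The generic case: `a`, `b`, `a - b` are irreducible of the same odd degree.
-/

set_option autoImplicit false
set_option linter.all false

open Polynomial IsDedekindDomain WeierstrassCurve WeierstrassCurve.Affine
open scoped Classical

namespace Pool.Agent.TH115.GD

section

variable {k : Type} [Field k]

theorem sqMod_iff {π u : k[X]} : SqMod π u ↔ IsSquare (AdjoinRoot.mk π u) := by
  constructor
  · rintro ⟨z, hz⟩
    refine ⟨AdjoinRoot.mk π z, ?_⟩
    rw [← map_mul, ← pow_two]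
    exact (AdjoinRoot.mk_eq_mk.2 hz).symm
  · rintro ⟨y, hy⟩
    obtain ⟨z, rfl⟩ := AdjoinRoot.mk_surjective y
    refine ⟨z, AdjoinRoot.mk_eq_mk.1 ?_⟩
    rw [hy, pow_two, map_mul]

theorem monic_dvd_irr {A p : k[X]} (hp : Irreducible p) (hA : A.Monic) (h : A ∣ p) :
    A = 1 ∨ A = C p.leadingCoeff⁻¹ * p := by
  obtain ⟨c, x, hc, rfl⟩ := dvd_irr hp h
  have hl : (C c * p ^ (x : ℕ)).leadingCoeff = 1 := hA
  rw [leadingCoeff_mul, leadingCoeff_C, leadingCoeff_pow] at hl
  fin_cases x
  · left
    simp only [pow_zero, mul_one, Fin.zero_eta, Fin.isValue, Fin.val_zero] at hl ⊢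
    rw [hl, C_1]
  · right
    simp only [Fin.mk_one, Fin.isValue, Fin.val_one, pow_one] at hl ⊢
    rw [eq_inv_of_mul_eq_one_left hl]

/-- The obstruction in the generic case. -/
def Survives (a b : k[X]) : Prop :=
  SqMod a (C (b.leadingCoeff * (a - b).leadingCoeff) * b) ∧
  SqMod b (C (-a.leadingCoeff * (a - b).leadingCoeff) * a) ∧
  SqMod (a - b) (C (a.leadingCoeff * b.leadingCoeff) * a)

theorem oddFactor_self {p : k[X]} (hp : Irreducible p) : OddFactor p p := by
  refine ⟨hp, 0, by simp, ?_⟩
  intro h
  have h1 : p * p ∣ p * 1 := by simpa [pow_two] using h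
  exact hp.not_isUnit (isUnit_of_dvd_one ((mul_dvd_mul_iff_left hp.ne_zero).1 h1))

/-- A product with a square. -/
theorem sq_of {L : Type*} [Field L] {x y w : L} (h : IsSquare x) (hw : y = x * (w * w)) :
    IsSquare y := by
  obtain ⟨z, rfl⟩ := h
  exact ⟨z * w, by rw [hw]; ring⟩

variable {a b : k[X]} (ha : Irreducible a) (hb : Irreducible b) (hc : Irreducible (a - b))
  (hco : IsCoprime a b) {N : ℕ} (hN : Odd N) (dA : a.natDegree = N) (dB : b.natDegree = N)
  (dC : (a - b).natDegree = N)

include ha hb hc hco hN dA dB dC in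
/-- In the generic case the second descent leaves only the triples of the points of order two,
unless the obstruction vanishes. -/
theorem gen_sub (hs : ¬ Survives a b) : Triples2 a b ⊆
    {(1, 1, 1), (C a.leadingCoeff⁻¹ * a, C b.leadingCoeff⁻¹ * b, 1),
      (C a.leadingCoeff⁻¹ * a, 1, C (a - b).leadingCoeff⁻¹ * (a - b)),
      (1, C b.leadingCoeff⁻¹ * b, C (a - b).leadingCoeff⁻¹ * (a - b))} := by
  rintro ⟨A, B, D⟩ ⟨⟨mA, mB, mD, sA, sB, sD, hA, hB, hD, -⟩, r, s, hcond⟩
  obtain ⟨r0, s0', onA, onB, onC, inf⟩ := hcond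
  have la0 : a.leadingCoeff ≠ 0 := leadingCoeff_ne_zero.2 ha.ne_zero
  have lb0 : b.leadingCoeff ≠ 0 := leadingCoeff_ne_zero.2 hb.ne_zero
  have lc0 : (a - b).leadingCoeff ≠ 0 := leadingCoeff_ne_zero.2 hc.ne_zero
  have hcoac : IsCoprime a (a - b) := by
    obtain ⟨x, y, h⟩ := hco
    exact ⟨x + y, -y, by linear_combination h⟩
  have hcobc : IsCoprime b (a - b) := by
    obtain ⟨x, y, h⟩ := hco
    exact ⟨x + y, x, by linear_combination h⟩
  have nAp : ∀ {p : k[X]} {u : k}, Irreducible p → u ≠ 0 → p ∣ C u * p := fun _ _ => dvd_mul_left _ _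
  have n1 : ∀ {p : k[X]}, Irreducible p → ¬ p ∣ 1 := fun hp h => hp.not_isUnit (isUnit_of_dvd_one h)
  have onA := onA a (oddFactor_self ha)
  have onB := onB b (oddFactor_self hb)
  have onC := onC (a - b) (oddFactor_self hc)
  have hNe : ¬ Even N := Nat.not_even_iff_odd.2 hN
  obtain ⟨p, q, hpq, ep, eq, sp, sq⟩ := inf (by rw [dA, dB, max_self]; exact hN)
  have dba : (b - a).natDegree = N := by rw [← natDegree_neg, neg_sub]; exact dC
  have lba : (b - a).leadingCoeff = -(a - b).leadingCoeff := by rw [← leadingCoeff_neg, neg_sub]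
  have mA' : ∀ {p : k[X]} {u : k}, u ≠ 0 → p ≠ 0 → (C u * p).natDegree = p.natDegree :=
    fun hu _ => natDegree_C_mul hu
  have ia := inv_ne_zero la0
  have ib := inv_ne_zero lb0
  have ic := inv_ne_zero lc0
  -- the residue fields
  have SA : ∀ u : k[X], SqMod a u → (∀ (L : Type) [Field L] (f : k[X] →+* L), f a = 0 → f b ≠ 0 →
      IsSquare (f u) → IsSquare (f (C (b.leadingCoeff * (a - b).leadingCoeff) * b))) →
      SqMod a (C (b.leadingCoeff * (a - b).leadingCoeff) * b) := by
    intro u hu h
    haveI : Fact (Irreducible a) := ⟨ha⟩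
    rw [sqMod_iff] at hu ⊢
    refine h (AdjoinRoot a) (AdjoinRoot.mk a) AdjoinRoot.mk_self ?_ hu
    intro h0
    rw [AdjoinRoot.mk_eq_zero] at h0
    exact ha.not_isUnit (hco.isUnit_of_dvd h0)
  have SB : ∀ u : k[X], SqMod b u → (∀ (L : Type) [Field L] (f : k[X] →+* L), f b = 0 → f a ≠ 0 →
      IsSquare (f u) → IsSquare (f (C (-a.leadingCoeff * (a - b).leadingCoeff) * a))) →
      SqMod b (C (-a.leadingCoeff * (a - b).leadingCoeff) * a) := by
    intro u hu h
    haveI : Fact (Irreducible b) := ⟨hb⟩
    rw [sqMod_iff] at hu ⊢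
    refine h (AdjoinRoot b) (AdjoinRoot.mk b) AdjoinRoot.mk_self ?_ hu
    intro h0
    rw [AdjoinRoot.mk_eq_zero] at h0
    exact hb.not_isUnit (hco.symm.isUnit_of_dvd h0)
  have SC : ∀ u : k[X], SqMod (a - b) u → (∀ (L : Type) [Field L] (f : k[X] →+* L), f a = f b →
      f a ≠ 0 → IsSquare (f u) →
      IsSquare (f (C (a.leadingCoeff * b.leadingCoeff) * a))) →
      SqMod (a - b) (C (a.leadingCoeff * b.leadingCoeff) * a) := by
    intro u hu h
    haveI : Fact (Irreducible (a - b)) := ⟨hc⟩
    rw [sqMod_iff] at hu ⊢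
    refine h (AdjoinRoot (a - b)) (AdjoinRoot.mk (a - b)) ?_ ?_ hu
    · rw [← sub_eq_zero, ← map_sub]
      exact AdjoinRoot.mk_self
    intro h0
    rw [AdjoinRoot.mk_eq_zero] at h0
    exact hc.not_isUnit (hcoac.symm.isUnit_of_dvd h0)
  have fC : ∀ {L : Type} [Field L] (f : k[X] →+* L) {u : k}, u ≠ 0 → f (C u) ≠ 0 := by
    intro L _ f u hu
    exact (_root_.map_ne_zero (f.comp C)).2 hu
  have fS : ∀ {L : Type} [Field L] (f : k[X] →+* L) {u : k}, IsSquare u → IsSquare (f (C u)) := by
    intro L _ f u hu
    exact hu.map (f.comp C)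
  have fI : ∀ {L : Type} [Field L] (f : k[X] →+* L) {u : k}, f (C u⁻¹) = (f (C u))⁻¹ := by
    intro L _ f u
    exact map_inv₀ (f.comp C) u
  have na := ha.ne_zero
  have nb := hb.ne_zero
  have nc := hc.ne_zero
  have nba : b - a ≠ 0 := by
    intro h
    apply nc
    rw [← neg_sub, h, neg_zero]
  have nC : ∀ {u : k}, u ≠ 0 → (C u : k[X]) ≠ 0 := fun h => C_ne_zero.2 h
  rcases monic_dvd_irr ha mA hA with rfl | rfl <;> rcases monic_dvd_irr hb mB hB with rfl | rfl <;>
    rcases monic_dvd_irr hc mD hD with rfl | rfl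
  · simp
  · -- `(1, 1, a - b)`
    exfalso
    rcases hpq with ⟨hp, hq⟩ | ⟨hp, hq⟩ | ⟨hp, hq⟩ | ⟨hp, hq⟩ <;> rw [hp] at ep sp <;>
      rw [hq] at eq sq
    · rw [mul_one, one_mul, natDegree_mul (nC ic) nc, natDegree_C, zero_add, dC] at eq
      exact hNe eq
    · rw [leadingCoeff_mul] at sp
      rw [leadingCoeff_neg] at sq
      refine hs ⟨SA _ (onA.1 (n1 ha)) ?_, SB _ (onB.1 (n1 hb)) ?_,
        SC _ (onC.2 (dvd_mul_left _ _)) ?_⟩
      · intro L _ f fa fb h
        have hR := fC f r0
        have hS := fC f s0'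
        have hla := fC f la0
        have hlb := fC f lb0
        have hlc := fC f lc0
        refine sq_of (((fS f sp).mul (fS f sq)).mul h) (w := f (C (a - b).leadingCoeff) /
          (f (C r) * f (C s) * f (C a.leadingCoeff))) ?_
        simp only [C_mul, C_neg, map_mul, map_neg, map_one, fI]
        rw [map_sub f a b, fa]
        field_simp
        try ring
      · intro L _ f fb fa h
        have hR := fC f r0
        have hS := fC f s0'
        have hla := fC f la0
        have hlb := fC f lb0
        have hlc := fC f lc0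
        refine sq_of ((fS f sq).mul h) (w := f (C (a - b).leadingCoeff) / f (C s)) ?_
        simp only [C_mul, C_neg, map_mul, map_neg, map_one, fI]
        rw [map_sub f a b, fb]
        field_simp
        try ring
      · intro L _ f fab fa h
        have hR := fC f r0
        have hS := fC f s0'
        have hla := fC f la0
        have hlb := fC f lb0
        have hlc := fC f lc0
        refine sq_of ((fS f sp).mul h) (w := 1 / f (C r)) ?_
        simp only [C_mul, C_neg, map_mul, map_neg, map_one, fI]
        field_simp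
        try ring
    · rw [mul_one, mul_one, dA] at ep
      exact hNe ep
    · rw [mul_one, mul_one, dB] at ep
      exact hNe ep
  · -- `(1, b, 1)`
    exfalso
    rcases hpq with ⟨hp, hq⟩ | ⟨hp, hq⟩ | ⟨hp, hq⟩ | ⟨hp, hq⟩ <;> rw [hp] at ep sp <;>
      rw [hq] at eq sq
    · rw [mul_one, one_mul, natDegree_mul (nC ib) nb, natDegree_C, zero_add, dB] at ep
      exact hNe ep
    · rw [mul_one, mul_one, natDegree_neg, dA] at eq
      exact hNe eq
    · rw [leadingCoeff_mul] at sq
      refine hs ⟨SA _ (onA.1 (n1 ha)) ?_, SB _ (onB.2 (dvd_mul_left _ _)) ?_,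
        SC _ (onC.1 (n1 hc)) ?_⟩
      · intro L _ f fa fb h
        have hR := fC f r0
        have hS := fC f s0'
        have hla := fC f la0
        have hlb := fC f lb0
        have hlc := fC f lc0
        refine sq_of (((fS f sp).mul (fS f sq)).mul h) (w := f (C b.leadingCoeff) /
          (f (C r) * f (C s) * f (C a.leadingCoeff))) ?_
        simp only [C_mul, C_neg, map_mul, map_neg, map_one, fI]
        field_simp
        try ring
      · intro L _ f fb fa h
        have hR := fC f r0
        have hS := fC f s0'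
        have hla := fC f la0
        have hlb := fC f lb0
        have hlc := fC f lc0
        refine sq_of ((fS f sq).mul h) (w := 1 / f (C s)) ?_
        simp only [C_mul, C_neg, map_mul, map_neg, map_one, fI]
        field_simp
        try ring
      · intro L _ f fab fa h
        have hR := fC f r0
        have hS := fC f s0'
        have hla := fC f la0
        have hlb := fC f lb0
        have hlc := fC f lc0
        refine sq_of ((fS f sp).mul h) (w := f (C b.leadingCoeff) / f (C r)) ?_
        simp only [C_mul, C_neg, map_mul, map_neg, map_one, fI]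
        rw [fab]
        field_simp
        try ring
    · rw [mul_one, mul_one, dba] at eq
      exact hNe eq
  · simp
  · -- `(a, 1, 1)`
    exfalso
    rcases hpq with ⟨hp, hq⟩ | ⟨hp, hq⟩ | ⟨hp, hq⟩ | ⟨hp, hq⟩ <;> rw [hp] at ep sp <;>
      rw [hq] at eq sq
    · rw [mul_one, one_mul, natDegree_mul (nC ia) na, natDegree_C, zero_add, dA] at ep
      exact hNe ep
    · rw [mul_one, natDegree_mul (mul_ne_zero na nb) (mul_ne_zero (nC ia) na),
        natDegree_mul na nb, natDegree_mul (nC ia) na, natDegree_C, zero_add, dA, dB,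
        Nat.even_add, Nat.even_add] at ep
      exact hNe (ep.1 (by simp))
    · rw [mul_one, natDegree_mul (mul_ne_zero na nc) (mul_ne_zero (nC ia) na),
        natDegree_mul na nc, natDegree_mul (nC ia) na, natDegree_C, zero_add, dA, dC,
        Nat.even_add, Nat.even_add] at eq
      exact hNe (eq.1 (by simp))
    · rw [lba] at sq
      refine hs ⟨SA _ (onA.2 (dvd_mul_left _ _)) ?_, SB _ (onB.1 (n1 hb)) ?_,
        SC _ (onC.1 (n1 hc)) ?_⟩
      · intro L _ f fa fb h
        have hR := fC f r0
        have hS := fC f s0'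
        have hla := fC f la0
        have hlb := fC f lb0
        have hlc := fC f lc0
        refine sq_of (((fS f sp).mul (fS f sq)).mul h) (w := 1 / (f (C r) * f (C s))) ?_
        simp only [C_mul, C_neg, map_mul, map_neg, map_one, fI]
        field_simp
        try ring
      · intro L _ f fb fa h
        have hR := fC f r0
        have hS := fC f s0'
        have hla := fC f la0
        have hlb := fC f lb0
        have hlc := fC f lc0
        refine sq_of ((fS f sq).mul h) (w := f (C a.leadingCoeff) / f (C s)) ?_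
        simp only [C_mul, C_neg, map_mul, map_neg, map_one, fI]
        field_simp
        try ring
      · intro L _ f fab fa h
        have hR := fC f r0
        have hS := fC f s0'
        have hla := fC f la0
        have hlb := fC f lb0
        have hlc := fC f lc0
        refine sq_of ((fS f sp).mul h) (w := f (C a.leadingCoeff) / f (C r)) ?_
        simp only [C_mul, C_neg, map_mul, map_neg, map_one, fI]
        field_simp
        try ring
  · simp
  · simp
  · -- `(a, b, a - b)`
    exfalso
    have pab : ∀ p : k[X], p ≠ 0 →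
        (Even (p * (C a.leadingCoeff⁻¹ * a) * (C b.leadingCoeff⁻¹ * b)).natDegree ↔
          Even p.natDegree) := by
      intro p hp
      rw [natDegree_mul (mul_ne_zero hp (mul_ne_zero (nC ia) na)) (mul_ne_zero (nC ib) nb),
        natDegree_mul hp (mul_ne_zero (nC ia) na), natDegree_mul (nC ia) na,
        natDegree_mul (nC ib) nb, natDegree_C, natDegree_C, zero_add, zero_add, dA, dB,
        Nat.even_add, Nat.even_add]
      simp [hNe]
    have pac : ∀ p : k[X], p ≠ 0 →
        (Even (p * (C a.leadingCoeff⁻¹ * a) * (C (a - b).leadingCoeff⁻¹ * (a - b))).natDegree ↔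
          Even p.natDegree) := by
      intro p hp
      rw [natDegree_mul (mul_ne_zero hp (mul_ne_zero (nC ia) na)) (mul_ne_zero (nC ic) nc),
        natDegree_mul hp (mul_ne_zero (nC ia) na), natDegree_mul (nC ia) na,
        natDegree_mul (nC ic) nc, natDegree_C, natDegree_C, zero_add, zero_add, dA, dC,
        Nat.even_add, Nat.even_add]
      simp [hNe]
    rcases hpq with ⟨hp, hq⟩ | ⟨hp, hq⟩ | ⟨hp, hq⟩ | ⟨hp, hq⟩ <;> rw [hp] at ep sp <;>
      rw [hq] at eq sq
    · rw [leadingCoeff_one, mul_one] at sp sq
      refine hs ⟨SA _ (onA.2 (dvd_mul_left _ _)) ?_, SB _ (onB.2 (dvd_mul_left _ _)) ?_,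
        SC _ (onC.2 (dvd_mul_left _ _)) ?_⟩
      · intro L _ f fa fb h
        have hR := fC f r0
        have hS := fC f s0'
        have hla := fC f la0
        have hlb := fC f lb0
        have hlc := fC f lc0
        refine sq_of (((fS f sp).mul (fS f sq)).mul h) (w := f (C b.leadingCoeff) *
          f (C (a - b).leadingCoeff) / (f (C r) * f (C s) * f b)) ?_
        simp only [C_mul, C_neg, map_mul, map_neg, map_one, fI]
        rw [map_sub f a b, fa]
        field_simp
        try ring
      · intro L _ f fb fa h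
        have hR := fC f r0
        have hS := fC f s0'
        have hla := fC f la0
        have hlb := fC f lb0
        have hlc := fC f lc0
        refine sq_of ((fS f sq).mul h) (w := f (C a.leadingCoeff) *
          f (C (a - b).leadingCoeff) / (f (C s) * f a)) ?_
        simp only [C_mul, C_neg, map_mul, map_neg, map_one, fI]
        rw [map_sub f a b, fb]
        field_simp
        try ring
      · intro L _ f fab fa h
        have hR := fC f r0
        have hS := fC f s0'
        have hla := fC f la0
        have hlb := fC f lb0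
        have hlc := fC f lc0
        refine sq_of ((fS f sp).mul h) (w := f (C a.leadingCoeff) *
          f (C b.leadingCoeff) / (f (C r) * f a)) ?_
        simp only [C_mul, C_neg, map_mul, map_neg, map_one, fI]
        rw [← fab]
        field_simp
        try ring
    · rw [pac _ (neg_ne_zero.2 na), natDegree_neg, dA] at eq
      exact hNe eq
    · rw [pab _ na, dA] at ep
      exact hNe ep
    · rw [pab _ nb, dB] at ep
      exact hNe ep

end

end Pool.Agent.TH115.GD
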