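import Pool.Agent.TH115.SD.Gener

/-!
The generic case of the second descent: the theorems.
-/

set_option autoImplicit false
set_option linter.all false

open Polynomial IsDedekindDomain WeierstrassCurve WeierstrassCurve.Affine
open scoped Classical

namespace Pool.Agent.TH115.GD

section const

variable {k : Type} [Field k]

/-- A constant which is a square modulo an irreducible polynomial of odd degree is a square. -/
theorem const_sq {π : k[X]} (hπ : Irreducible π) (hd : Odd π.natDegree) {d : k}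
    (h : SqMod π (C d)) : IsSquare d := by
  by_contra hns
  haveI : Fact (Irreducible π) := ⟨hπ⟩
  rw [sqMod_iff] at h
  obtain ⟨z, hz⟩ := h
  have hirr : Irreducible (X ^ 2 - C d : k[X]) := by
    refine X_pow_sub_C_irreducible_of_prime Nat.prime_two fun b hb => hns ⟨b, ?_⟩
    rw [← hb, pow_two]
  have hroot : aeval z (X ^ 2 - C d : k[X]) = 0 := by
    rw [map_sub, map_pow, aeval_X, aeval_C, pow_two, ← hz]
    exact sub_self _
  have hmin : minpoly k z = X ^ 2 - C d :=
    (minpoly.eq_of_irreducible_of_monic hirr hroot (monic_X_pow_sub_C d two_ne_zero)).symm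
  haveI : Module.Finite k (AdjoinRoot π) := (AdjoinRoot.powerBasis hπ.ne_zero).finite
  have hfin : Module.finrank k (AdjoinRoot π) = π.natDegree := by
    rw [(AdjoinRoot.powerBasis hπ.ne_zero).finrank, AdjoinRoot.powerBasis_dim hπ.ne_zero]
  have h1 := minpoly.degree_dvd (K := k) (x := z) (Algebra.IsIntegral.isIntegral z)
  rw [hmin, natDegree_X_pow_sub_C, hfin] at h1
  exact (Nat.not_even_iff_odd.2 hd) (even_iff_two_dvd.2 h1)

end const

section core

variable {k k' K F : Type} [Field k] [Field k'] [Algebra k k'] [Field K] [Algebra k[X] K]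
    [Field F] [Algebra k'[X] F] [IsFractionRing k'[X] F] [Algebra K F]

variable (hT : IsTower k k' K F) (h2 : (2 : k) ≠ 0) {a b : k[X]}
  (ha : Irreducible a) (hb : Irreducible b) (hc : Irreducible (a - b))
  (sa : a.Separable) (sb : b.Separable) (sc : (a - b).Separable)
  (hco : IsCoprime a b) {N : ℕ} (hN : Odd N) (dA : a.natDegree = N) (dB : b.natDegree = N)
  (dC : (a - b).natDegree = N)

include ha hb hc hco hN dA dB dC in
theorem gen_card (hs : ¬ Survives a b) : (Triples2 a b).encard ≤ 2 ^ (0 + 2) := by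
  refine (Set.encard_le_encard (gen_sub ha hb hc hco hN dA dB dC hs)).trans ?_
  refine (Set.encard_insert_le _ _).trans ?_
  have h1 := Set.encard_insert_le
    ({(C a.leadingCoeff⁻¹ * a, 1, C (a - b).leadingCoeff⁻¹ * (a - b)),
      (1, C b.leadingCoeff⁻¹ * b, C (a - b).leadingCoeff⁻¹ * (a - b))} : Set (k[X] × k[X] × k[X]))
    (C a.leadingCoeff⁻¹ * a, C b.leadingCoeff⁻¹ * b, 1)
  have h3 := Set.encard_insert_le
    ({(1, C b.leadingCoeff⁻¹ * b, C (a - b).leadingCoeff⁻¹ * (a - b))} :
      Set (k[X] × k[X] × k[X]))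
    (C a.leadingCoeff⁻¹ * a, 1, C (a - b).leadingCoeff⁻¹ * (a - b))
  rw [Set.encard_singleton] at h3
  have h4 : (2 : ℕ∞) ^ (0 + 2) = 1 + 1 + 1 + 1 := by norm_num
  rw [h4]
  gcongr
  exact h1.trans (by gcongr)

include ha hb hc sa sb sc in
theorem gen_sep (π : k[X]) (hπ : Irreducible π) (h : π ∣ a * b * (a - b)) : π.Separable := by
  rcases hπ.prime.dvd_or_dvd h with h | h
  · rcases hπ.prime.dvd_or_dvd h with h | h
    · exact sa.of_dvd h
    · exact sb.of_dvd h
  · exact sc.of_dvd h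

include hT h2 ha hb hc sa sb sc hco hN dA dB dC in
/-- The generic case. -/
theorem generic (hs : ¬ Survives a b) :
    TateAtTwo (F := F) k' (crv (algebraMap k[X] K a) (algebraMap k[X] K b)) ∧
    GeneratedBy (F := F) k' (crv (algebraMap k[X] K a) (algebraMap k[X] K b)) 0 := by
  have hab : a ≠ b := fun h => hc.ne_zero (by rw [h, sub_self])
  have hsep := gen_sep ha hb hc sa sb sc
  have hodd : Odd (max a.natDegree b.natDegree) ∨ TwoOddFactors a b :=
    Or.inl (by rw [dA, dB, max_self]; exact hN)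
  have hcard := gen_card ha hb hc hco hN dA dB dC hs
  refine ⟨criterion2 hT h2 ha.ne_zero hb.ne_zero hab hco hsep hodd
    (enough_of_rank2 hT h2 ha.ne_zero hb.ne_zero hab hco hsep hodd hcard (fun i => i.elim0) ?_),
    bound2 hT h2 ha.ne_zero hb.ne_zero hab hco hsep hodd hcard⟩
  rintro S ⟨i, _⟩
  exact i.elim0

include ha hb hco hN dA in
/-- The obstruction vanishes for the twists in at most one class modulo squares. -/
theorem survives_twist {d e : k} (hd0 : d ≠ 0) (he0 : e ≠ 0) (hc : Irreducible (a - b))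
    (h1 : Survives (C d * a) (C d * b)) (h2 : Survives (C e * a) (C e * b)) :
    IsSquare (d * e) := by
  have key : ∀ {d : k}, d ≠ 0 → Survives (C d * a) (C d * b) →
      SqMod a (C d * (C (b.leadingCoeff * (a - b).leadingCoeff) * b)) := by
    rintro d hd ⟨⟨z, hz⟩, -, -⟩
    have h3 := (dvd_mul_left a (C d)).trans hz
    have hsub : C d * a - C d * b = C d * (a - b) := by ring
    rw [hsub, leadingCoeff_mul, leadingCoeff_mul, leadingCoeff_C] at h3
    refine ⟨C d⁻¹ * z, ?_⟩
    have h4 : (C d⁻¹ : k[X]) * C d = 1 := by rw [← C_mul, inv_mul_cancel₀ hd, C_1]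
    have h5 : (C d⁻¹ * z) ^ 2 - C d * (C (b.leadingCoeff * (a - b).leadingCoeff) * b) =
        C d⁻¹ ^ 2 * (z ^ 2 - C (d * b.leadingCoeff * (d * (a - b).leadingCoeff)) * (C d * b)) := by
      simp only [C_mul]
      linear_combination (C d⁻¹ * C d * C b.leadingCoeff * C (a - b).leadingCoeff * C d * b +
        C b.leadingCoeff * C (a - b).leadingCoeff * C d * b) * h4
    rw [h5]
    exact h3.mul_left _
  refine const_sq ha (by rw [dA]; exact hN) ?_
  haveI : Fact (Irreducible a) := ⟨ha⟩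
  have k1 := key hd0 h1
  have k2 := key he0 h2
  rw [sqMod_iff] at k1 k2 ⊢
  have fb : AdjoinRoot.mk a b ≠ 0 := by
    intro h0
    rw [AdjoinRoot.mk_eq_zero] at h0
    exact ha.not_isUnit (hco.isUnit_of_dvd h0)
  have fC : ∀ {u : k}, u ≠ 0 → AdjoinRoot.mk a (C u) ≠ 0 := by
    intro u hu
    exact (_root_.map_ne_zero ((AdjoinRoot.mk a).comp C)).2 hu
  have lb0 := fC (leadingCoeff_ne_zero.2 hb.ne_zero)
  have lc0 := fC (leadingCoeff_ne_zero.2 hc.ne_zero)
  refine sq_of (k1.mul k2) (w := 1 / (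
    AdjoinRoot.mk a (C b.leadingCoeff) * AdjoinRoot.mk a (C (a - b).leadingCoeff) *
    AdjoinRoot.mk a b)) ?_
  simp only [C_mul, map_mul]
  field_simp

include hT h2 ha hb hc sa sb sc hco hN dA dB dC in
/-- The twists. -/
theorem generic_d {d : k} (hd : d ≠ 0) (hs : ¬ Survives (C d * a) (C d * b)) :
    TateAtTwo (F := F) k' (crv (algebraMap k[X] K (C d * a)) (algebraMap k[X] K (C d * b))) := by
  have hu : IsUnit (C d : k[X]) := isUnit_C.2 (isUnit_iff_ne_zero.2 hd)
  have irr : ∀ {p : k[X]}, Irreducible p → Irreducible (C d * p) := fun hp =>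
    (irreducible_isUnit_mul hu).2 hp
  have hsub : C d * a - C d * b = C d * (a - b) := by ring
  have hco' : IsCoprime (C d * a) (C d * b) := (isCoprime_mul_unit_left hu a b).2 hco
  exact (generic (F := F) hT h2 (irr ha) (irr hb) (by rw [hsub]; exact irr hc)
    (Separable.unit_mul hu sa) (Separable.unit_mul hu sb)
    (by rw [hsub]; exact Separable.unit_mul hu sc) hco' hN
    (by rw [natDegree_C_mul hd, dA]) (by rw [natDegree_C_mul hd, dB])
    (by rw [hsub, natDegree_C_mul hd, dC]) hs).1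

include hT h2 ha hb hc sa sb sc hco hN dA dB dC in
/-- The curve or its twist by a constant. -/
theorem generic_twist {d : k} (hd : ¬ IsSquare d) :
    TateAtTwo (F := F) k' (crv (algebraMap k[X] K a) (algebraMap k[X] K b)) ∨
    TateAtTwo (F := F) k' (crv (algebraMap k[X] K (C d * a)) (algebraMap k[X] K (C d * b))) := by
  have hd0 : d ≠ 0 := by
    rintro rfl
    exact hd ⟨0, by simp⟩
  by_cases hs : Survives a b
  · right
    have hu : IsUnit (C d : k[X]) := isUnit_C.2 (isUnit_iff_ne_zero.2 hd0)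
    have irr : ∀ {p : k[X]}, Irreducible p → Irreducible (C d * p) := fun hp =>
      (irreducible_isUnit_mul hu).2 hp
    have hsub : C d * a - C d * b = C d * (a - b) := by ring
    have hc' : Irreducible (C d * a - C d * b) := by rw [hsub]; exact irr hc
    have hco' : IsCoprime (C d * a) (C d * b) :=
      (isCoprime_mul_unit_left hu a b).2 hco
    refine (generic hT h2 (irr ha) (irr hb) hc' (Separable.unit_mul hu sa)
      (Separable.unit_mul hu sb) (by rw [hsub]; exact Separable.unit_mul hu sc) hco' hN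
      (by rw [natDegree_C_mul hd0, dA]) (by rw [natDegree_C_mul hd0, dB])
      (by rw [hsub, natDegree_C_mul hd0, dC]) ?_).1
    rintro ⟨hs', -, -⟩
    obtain ⟨hs1, -, -⟩ := hs
    apply hd
    refine const_sq ha (by rw [dA]; exact hN) ?_
    haveI : Fact (Irreducible a) := ⟨ha⟩
    -- a square modulo `a`
    have h1 : SqMod a (C ((C d * b).leadingCoeff * (C d * a - C d * b).leadingCoeff) *
        (C d * b)) := by
      obtain ⟨z, hz⟩ := hs'
      exact ⟨z, (dvd_mul_left a (C d)).trans hz⟩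
    rw [hsub, leadingCoeff_mul, leadingCoeff_mul, leadingCoeff_C] at h1
    rw [sqMod_iff] at h1 hs1 ⊢
    have fb : AdjoinRoot.mk a b ≠ 0 := by
      intro h0
      rw [AdjoinRoot.mk_eq_zero] at h0
      exact ha.not_isUnit (hco.isUnit_of_dvd h0)
    have fC : ∀ {u : k}, u ≠ 0 → AdjoinRoot.mk a (C u) ≠ 0 := by
      intro u hu
      exact (_root_.map_ne_zero ((AdjoinRoot.mk a).comp C)).2 hu
    have lb0 := fC (leadingCoeff_ne_zero.2 hb.ne_zero)
    have lc0 := fC (leadingCoeff_ne_zero.2 hc.ne_zero)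
    have ld0 := fC hd0
    refine sq_of (h1.mul hs1) (w := 1 / (AdjoinRoot.mk a (C d) *
      AdjoinRoot.mk a (C b.leadingCoeff) * AdjoinRoot.mk a (C (a - b).leadingCoeff) *
      AdjoinRoot.mk a b)) ?_
    simp only [C_mul, map_mul]
    field_simp
  · left
    exact (generic hT h2 ha hb hc sa sb sc hco hN dA dB dC hs).1

include hT h2 ha hb hc sa sb sc hco hN dA dB dC in
/-- All the twists by constants, except the twists in at most one class modulo squares. -/
theorem generic_twists {d e : k} (hd : d ≠ 0) (he : e ≠ 0) (hde : ¬ IsSquare (d * e)) :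
    TateAtTwo (F := F) k' (crv (algebraMap k[X] K (C d * a)) (algebraMap k[X] K (C d * b))) ∨
    TateAtTwo (F := F) k' (crv (algebraMap k[X] K (C e * a)) (algebraMap k[X] K (C e * b))) := by
  have hu : IsUnit (C d : k[X]) := isUnit_C.2 (isUnit_iff_ne_zero.2 hd)
  have irr : ∀ {p : k[X]}, Irreducible p → Irreducible (C d * p) := fun hp =>
    (irreducible_isUnit_mul hu).2 hp
  have hsub : C d * a - C d * b = C d * (a - b) := by ring
  have hco' : IsCoprime (C d * a) (C d * b) := (isCoprime_mul_unit_left hu a b).2 hco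
  have key := generic_twist (F := F) hT h2 (irr ha) (irr hb) (by rw [hsub]; exact irr hc)
    (Separable.unit_mul hu sa) (Separable.unit_mul hu sb)
    (by rw [hsub]; exact Separable.unit_mul hu sc) hco' hN
    (by rw [natDegree_C_mul hd, dA]) (by rw [natDegree_C_mul hd, dB])
    (by rw [hsub, natDegree_C_mul hd, dC]) (d := e / d) (by
      rintro ⟨x, hx⟩
      apply hde
      refine ⟨d * x, ?_⟩
      have h1 : e = x * x * d := by
        rw [← hx]
        field_simp
      rw [h1]
      ring)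
  have h3 : ∀ p : k[X], C (e / d) * (C d * p) = C e * p := by
    intro p
    rw [← mul_assoc, ← C_mul, div_mul_cancel₀ e hd]
  rw [h3, h3] at key
  exact key

end core

section rat

theorem not_pow {p : ℕ} [hp : Fact p.Prime] {x : ℚ} (hx : padicValRat p x = 1) {q : ℕ}
    (hq : q.Prime) (b : ℚ) : b ^ q ≠ x := by
  intro h
  rw [← h, padicValRat.pow] at hx
  have h1 : (q : ℤ) ∣ 1 := ⟨_, hx.symm⟩
  have h3 : q ∣ 1 := by exact_mod_cast h1
  exact hq.one_lt.ne' (Nat.dvd_one.1 h3)

theorem irr_pow {p : ℕ} [hp : Fact p.Prime] {x : ℚ} (hx : padicValRat p x = 1) {N : ℕ}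
    (hN : Odd N) : Irreducible (X ^ N - C x : ℚ[X]) :=
  X_pow_sub_C_irreducible_of_odd hN fun _ hq _ b => not_pow hx hq b

theorem val_zero {p n : ℕ} [hp : Fact p.Prime] (h : ¬ p ∣ n) : padicValRat p (n : ℚ) = 0 := by
  rw [padicValRat.of_nat, padicValNat.eq_zero_of_not_dvd h, Nat.cast_zero]

/-- The surfaces `y ^ 2 = x (x - (t ^ N - 5)) (x + (t ^ N - 2))` over the rational numbers. -/
theorem explicit {k' K F : Type} [Field k'] [Algebra ℚ k'] [Field K] [Algebra ℚ[X] K]
    [Field F] [Algebra k'[X] F] [IsFractionRing k'[X] F] [Algebra K F] (hT : IsTower ℚ k' K F)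
    {N : ℕ} (hN : Odd N) :
    TateAtTwo (F := F) k' (crv (algebraMap ℚ[X] K (X ^ N - C 5))
      (algebraMap ℚ[X] K (-(X ^ N - C 2)))) := by
  have hN0 : N ≠ 0 := hN.pos.ne'
  haveI : Fact (Nat.Prime 3) := ⟨by norm_num⟩
  haveI : Fact (Nat.Prime 5) := ⟨by norm_num⟩
  haveI : Fact (Nat.Prime 7) := ⟨by norm_num⟩
  have v5 : padicValRat 5 (5 : ℚ) = 1 := padicValRat.self (by norm_num)
  have v2 : padicValRat 2 (2 : ℚ) = 1 := padicValRat.self (by norm_num)
  have v7 : padicValRat 7 (7 / 2 : ℚ) = 1 := by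
    rw [padicValRat.div (by norm_num) (by norm_num)]
    have h1 : padicValRat 7 (7 : ℚ) = 1 := padicValRat.self (by norm_num)
    have h3 : padicValRat 7 ((2 : ℕ) : ℚ) = 0 := val_zero (by norm_num)
    rw [h1]
    push_cast at h3
    rw [h3, sub_zero]
  have v6 : padicValRat 3 (6 : ℚ) = 1 := by
    have h1 : padicValRat 3 (3 : ℚ) = 1 := padicValRat.self (by norm_num)
    have h3 : padicValRat 3 ((2 : ℕ) : ℚ) = 0 := val_zero (by norm_num)
    push_cast at h3
    have h4 : (6 : ℚ) = 3 * 2 := by norm_num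
    rw [h4, padicValRat.mul (by norm_num) (by norm_num), h1, h3, add_zero]
  have ha : Irreducible (X ^ N - C 5 : ℚ[X]) := irr_pow v5 hN
  have hb' : Irreducible (X ^ N - C 2 : ℚ[X]) := irr_pow v2 hN
  have hc' : Irreducible (X ^ N - C (7 / 2) : ℚ[X]) := irr_pow v7 hN
  have hb : Irreducible (-(X ^ N - C 2) : ℚ[X]) := by
    rw [neg_eq_neg_one_mul]
    exact (irreducible_isUnit_mul isUnit_one.neg).2 hb'
  have hsub : (X ^ N - C 5 : ℚ[X]) - -(X ^ N - C 2) = C 2 * (X ^ N - C (7 / 2)) := by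
    have h1 : (C 2 : ℚ[X]) * C (7 / 2) = C 5 + C 2 := by
      rw [← C_mul, ← C_add]
      norm_num
    have h3 : (C 2 : ℚ[X]) = 2 := rfl
    linear_combination h1 - X ^ N * h3
  have hc : Irreducible ((X ^ N - C 5 : ℚ[X]) - -(X ^ N - C 2)) := by
    rw [hsub]
    exact (irreducible_isUnit_mul (isUnit_C.2 (isUnit_iff_ne_zero.2 two_ne_zero))).2 hc'
  have hco : IsCoprime (X ^ N - C 5 : ℚ[X]) (-(X ^ N - C 2)) := by
    refine ⟨C (-1 / 3), C (-1 / 3), ?_⟩
    have h1 : (C (-1 / 3) : ℚ[X]) * (C 2 - C 5) = 1 := by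
      rw [← C_sub, ← C_mul, ← C_1]
      norm_num
    linear_combination h1
  refine (generic hT two_ne_zero ha hb hc ha.separable hb.separable hc.separable hco hN
    natDegree_X_pow_sub_C (by rw [natDegree_neg, natDegree_X_pow_sub_C])
    (by rw [hsub, natDegree_C_mul two_ne_zero, natDegree_X_pow_sub_C]) ?_).1
  rintro ⟨⟨z, hz⟩, -, -⟩
  rw [leadingCoeff_neg, leadingCoeff_X_pow_sub_C hN.pos, hsub, leadingCoeff_mul, leadingCoeff_C,
    leadingCoeff_X_pow_sub_C hN.pos] at hz
  have h6 : SqMod (X ^ N - C 5 : ℚ[X]) (C 6) := by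
    refine ⟨z, ?_⟩
    have e1 : (C 6 : ℚ[X]) = 6 := rfl
    have e2 : (C (-1 * (2 * 1)) : ℚ[X]) = -2 := by
      have : (-1 * (2 * 1) : ℚ) = -2 := by norm_num
      rw [this, C_neg]
      rfl
    have e3 : (C 5 : ℚ[X]) = 5 := rfl
    have e4 : (C 2 : ℚ[X]) = 2 := rfl
    have : z ^ 2 - C 6 = (z ^ 2 - C (-1 * (2 * 1)) * -(X ^ N - C 2)) +
        (X ^ N - C 5 : ℚ[X]) * 2 := by
      rw [e1, e2, e3, e4]
      ring
    rw [this]
    exact dvd_add hz (dvd_mul_right _ _)
  obtain ⟨y, hy⟩ := const_sq ha (by rw [natDegree_X_pow_sub_C]; exact hN) h6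
  exact not_pow v6 Nat.prime_two y (by rw [pow_two]; exact hy.symm)

end rat

end Pool.Agent.TH115.GD
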