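import Pool.Agent.TH115.SD.RootM

/-!
The second geometric 2-descent: definitions.
-/

set_option autoImplicit false
set_option linter.all false

open Polynomial

namespace Pool.Agent.TH115.GD

variable {k : Type} [Field k]

/-- The pairs `(x(T), x(T) - a)`, up to squares, of the four points `T` of order two of the curve
`y ^ 2 = x (x - a) (x - b)`. -/
def TorPair (a b p q : k[X]) : Prop :=
  (p = 1 ∧ q = 1) ∨ (p = a * b ∧ q = -a) ∨ (p = a ∧ q = a * (a - b)) ∨ (p = b ∧ q = b - a)

/-- The conditions of the second descent for the pair `(r A B, s A D)`, where `A`, `B`, `D` are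
divisors of `a`, `b`, `a - b` and `r`, `s` are nonzero constants. At the irreducible factors of odd
multiplicity of `a`: `r s B D` is a square modulo `π` if `π` does not divide `A`, and `- r s b B D`
is a square modulo `π` if `π` divides `A`; similarly for `b` and `a - b`. At infinity, if the
maximum of the degrees of `a` and `b` is odd: for one of the points of order two, with coordinates
`p`, `q`, the polynomials `p A B` and `q A D` have even degree and the leading coefficients of
`r p` and `s q` are squares. -/
structure SecondCond (a b A B D : k[X]) (r s : k) : Prop where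
  r_ne : r ≠ 0
  s_ne : s ≠ 0
  onA : ∀ π : k[X], OddFactor π a →
    (¬ π ∣ A → SqMod π (C (r * s) * (B * D))) ∧ (π ∣ A → SqMod π (C (r * s) * (-b * B * D)))
  onB : ∀ π : k[X], OddFactor π b →
    (¬ π ∣ B → SqMod π (C s * (A * D))) ∧ (π ∣ B → SqMod π (C s * (-a * A * D)))
  onC : ∀ π : k[X], OddFactor π (a - b) →
    (¬ π ∣ D → SqMod π (C r * (A * B))) ∧ (π ∣ D → SqMod π (C r * (a * A * B)))
  inf : Odd (max a.natDegree b.natDegree) → ∃ p q : k[X], TorPair a b p q ∧
    Even (p * A * B).natDegree ∧ Even (q * A * D).natDegree ∧
    IsSquare (r * p.leadingCoeff) ∧ IsSquare (s * q.leadingCoeff)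

end Pool.Agent.TH115.GD
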