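import Pool.Agent.TH115.SD.Inf
import Pool.Agent.TH115.SD.Defs

/-!
The triples of the fixed classes satisfy the conditions of the second descent.
-/

set_option autoImplicit false
set_option linter.all false

open Polynomial IsDedekindDomain WeierstrassCurve WeierstrassCurve.Affine
open scoped Classical

namespace Pool.Agent.TH115.GD

theorem dec_uni : ∀ x y z : ZMod 2, ((x = 1 ∧ y = 1) ∨ (x = 1 ∧ z = 1) ∨ (y = 1 ∧ z = 1)) →
    ¬ (0 = x + y ∧ 0 = x) ∧ ¬ (0 = x ∧ 0 = x + z) ∧ ¬ (0 = y ∧ 0 = z) ∧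
    ¬ (x + y = x ∧ x = x + z) ∧ ¬ (x + y = y ∧ x = z) ∧ ¬ (x = y ∧ x + z = z) := by decide

section uni

variable {k : Type} [Field k] {a b : k[X]} (ha : a ≠ 0) (hb : b ≠ 0) (hab : a ≠ b)

theorem odd_degs (hN : Odd (max a.natDegree b.natDegree)) :
    ((a.natDegree : ZMod 2) = 1 ∧ (b.natDegree : ZMod 2) = 1) ∨
    ((a.natDegree : ZMod 2) = 1 ∧ ((a - b).natDegree : ZMod 2) = 1) ∨
    ((b.natDegree : ZMod 2) = 1 ∧ ((a - b).natDegree : ZMod 2) = 1) := by
  rw [ZMod.natCast_eq_one_iff_odd, ZMod.natCast_eq_one_iff_odd, ZMod.natCast_eq_one_iff_odd]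
  rcases lt_trichotomy a.natDegree b.natDegree with h | h | h
  · rw [max_eq_right h.le] at hN
    refine Or.inr (Or.inr ⟨hN, ?_⟩)
    rw [natDegree_sub_eq_right_of_natDegree_lt h]
    exact hN
  · rw [h, max_self] at hN
    exact Or.inl ⟨h ▸ hN, hN⟩
  · rw [max_eq_left h.le] at hN
    refine Or.inr (Or.inl ⟨hN, ?_⟩)
    rw [natDegree_sub_eq_left_of_natDegree_lt h]
    exact hN

include ha hb hab in
theorem torPair_ne {p q : k[X]} (h : TorPair a b p q) : p ≠ 0 ∧ q ≠ 0 := by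
  have hsub : a - b ≠ 0 := sub_ne_zero.2 hab
  have hsub' : b - a ≠ 0 := sub_ne_zero.2 (Ne.symm hab)
  rcases h with ⟨rfl, rfl⟩ | ⟨rfl, rfl⟩ | ⟨rfl, rfl⟩ | ⟨rfl, rfl⟩
  · exact ⟨one_ne_zero, one_ne_zero⟩
  · exact ⟨mul_ne_zero ha hb, neg_ne_zero.2 ha⟩
  · exact ⟨ha, mul_ne_zero ha hsub⟩
  · exact ⟨hb, hsub'⟩

include ha hb hab in
/-- The parities of the degrees determine the pair. -/
theorem torPair_unique (hN : Odd (max a.natDegree b.natDegree)) {p q p' q' : k[X]}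
    (h : TorPair a b p q) (h' : TorPair a b p' q')
    (e0 : (p.natDegree : ZMod 2) = p'.natDegree) (e1 : (q.natDegree : ZMod 2) = q'.natDegree) :
    p = p' ∧ q = q' := by
  have hsub : a - b ≠ 0 := sub_ne_zero.2 hab
  obtain ⟨u1, u2, u3, u4, u5, u6⟩ := dec_uni _ _ _ (odd_degs hN)
  have dba : (b - a).natDegree = (a - b).natDegree := by rw [← natDegree_neg, neg_sub]
  rcases h with ⟨rfl, rfl⟩ | ⟨rfl, rfl⟩ | ⟨rfl, rfl⟩ | ⟨rfl, rfl⟩ <;>
  rcases h' with ⟨rfl, rfl⟩ | ⟨rfl, rfl⟩ | ⟨rfl, rfl⟩ | ⟨rfl, rfl⟩ <;>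
  first
  | exact ⟨rfl, rfl⟩
  | (exfalso
     simp only [natDegree_mul ha hb, natDegree_mul ha hsub, natDegree_neg, dba, natDegree_one,
       Nat.cast_add, Nat.cast_zero] at e0 e1
     first
     | exact u1 ⟨e0, e1⟩
     | exact u2 ⟨e0, e1⟩
     | exact u3 ⟨e0, e1⟩
     | exact u4 ⟨e0, e1⟩
     | exact u5 ⟨e0, e1⟩
     | exact u6 ⟨e0, e1⟩
     | exact u1 ⟨e0.symm, e1.symm⟩
     | exact u2 ⟨e0.symm, e1.symm⟩
     | exact u3 ⟨e0.symm, e1.symm⟩
     | exact u4 ⟨e0.symm, e1.symm⟩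
     | exact u5 ⟨e0.symm, e1.symm⟩
     | exact u6 ⟨e0.symm, e1.symm⟩)

end uni

section core

variable {k k' K F : Type} [Field k] [Field k'] [Algebra k k'] [Field K] [Algebra k[X] K]
    [Field F] [Algebra k'[X] F] [IsFractionRing k'[X] F] [Algebra K F]

variable (hT : IsTower k k' K F) (h2 : (2 : k) ≠ 0) {a b : k[X]} (ha : a ≠ 0) (hb : b ≠ 0)
  (hab : a ≠ b) (hco : IsCoprime a b)
  (hsep : ∀ π : k[X], Irreducible π → π ∣ a * b * (a - b) → π.Separable)
  (hodd : Odd (max a.natDegree b.natDegree) ∨ TwoOddFactors a b)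

include h2 ha hb hab in
/-- The points of order two over `K`. -/
theorem tor_pair [IsFractionRing k[X] K]
    {T : Pt (crv (algebraMap k[X] K a) (algebraMap k[X] K b)) K} (hTT : T + T = 0) :
    ∃ p q : k[X], TorPair a b p q ∧
      d0 (algebraMap k[X] K a) (algebraMap k[X] K b) T = algebraMap k[X] K p ∧
      d1 (algebraMap k[X] K a) (algebraMap k[X] K b) T = algebraMap k[X] K q := by
  have h2K : (2 : K) ≠ 0 := tt h2
  have inj := IsFractionRing.injective k[X] K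
  have haK : algebraMap k[X] K a ≠ 0 := by simpa using ha
  have hbK : algebraMap k[X] K b ≠ 0 := by simpa using hb
  have habK : algebraMap k[X] K a ≠ algebraMap k[X] K b := fun h => hab (inj h)
  have hE := isE (algebraMap k[X] K a) (algebraMap k[X] K b) K h2K haK hbK habK
  rcases tor_d hE hTT with h | ⟨h, h'⟩ | ⟨h, h'⟩ | ⟨h, h'⟩
  · refine ⟨1, 1, Or.inl ⟨rfl, rfl⟩, ?_, ?_⟩
    · rw [h, map_one]; rfl
    · rw [h, map_one]; rfl
  · exact ⟨a * b, -a, Or.inr (Or.inl ⟨rfl, rfl⟩), by rw [map_mul]; exact h,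
      by rw [map_neg]; exact h'⟩
  · exact ⟨a, a * (a - b), Or.inr (Or.inr (Or.inl ⟨rfl, rfl⟩)), h,
      by rw [map_mul, map_sub]; exact h'⟩
  · exact ⟨b, b - a, Or.inr (Or.inr (Or.inr ⟨rfl, rfl⟩)), h, by rw [map_sub]; exact h'⟩

include hT in
/-- Parity of the degrees from a relation at infinity. -/
theorem deg_par {x : F} {p q : k[X]} (hp : p ≠ 0) (hq : q ≠ 0) (h : SqEq x (emb k K F p))
    {c : CompInf k' F} (hc : c ≠ 0) (h' : algebraMap F (CompInf k' F) x =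
      c ^ 2 * algebraMap K (CompInf k' F) (algebraMap k[X] K q)) : Even (q * p).natDegree := by
  obtain ⟨e, he, rfl⟩ := h
  have h1 : algebraMap F (CompInf k' F) (e ^ 2 * emb k K F p) =
      algebraMap F (CompInf k' F) e ^ 2 *
        algebraMap K (CompInf k' F) (algebraMap k[X] K p) := by
    rw [map_mul, map_pow]
    rfl
  have a1 := par_class (w := wi k' F) (θ := (0 : k')) (_root_.map_ne_zero _ |>.2 he) h1
  have a2 := par_class (w := wi k' F) (θ := (0 : k')) hc h'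
  have h3 := a1.symm.trans a2
  rw [wi_poly hT hp, wi_poly hT hq, isSquare_exp, isSquare_exp] at h3
  rw [natDegree_mul hq hp, Nat.even_add]
  constructor
  · intro h; exact_mod_cast h3.2 (by exact_mod_cast h)
  · intro h; exact_mod_cast h3.1 (by exact_mod_cast h)

end core

end Pool.Agent.TH115.GD
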