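import Pool.Agent.TH115.SD.Hensel
import Pool.Agent.TH115.GD.Final

/-!
Automorphisms of completions.
-/

set_option autoImplicit false
set_option linter.all false

open IsDedekindDomain Filter Topology
open scoped WithZeroTopology

namespace Pool.Agent.TH115.GD

section gen

variable {R F : Type} [CommRing R] [IsDedekindDomain R] [Field F] [Algebra R F]
  [IsFractionRing R F] (v : HeightOneSpectrum R)

/-- The valuation of the completion. -/
noncomputable def wv : Valuation (Comp R F v) (WithZero (Multiplicative ℤ)) :=
  (Valued.v (R := v.adicCompletion F) (Γ₀ := WithZero (Multiplicative ℤ)))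

theorem wv_coe (x : F) : wv v (algebraMap F (Comp R F v) x) = v.valuation F x := wFin v x

/-- Elements of the completion are close to elements of the field. -/
theorem dense_F (x : Comp R F v) {g : F} (hg : g ≠ 0) :
    ∃ f : F, wv v (x - algebraMap F (Comp R F v) f) < v.valuation F g := by
  let x' : v.adicCompletion F := x
  let g' : v.adicCompletion F := algebraMap F (v.adicCompletion F) g
  have hg' : g' ≠ 0 := (map_ne_zero _).2 hg
  have h1 : {y : v.adicCompletion F | (Valued.v (R := v.adicCompletion F)).restrict (y - x') <
      (Units.mk0 ((Valued.v (R := v.adicCompletion F)).restrict g') (by simpa using hg')).1} ∈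
      𝓝 x' := by
    rw [Valued.mem_nhds]
    exact ⟨_, subset_rfl⟩
  obtain ⟨f, hf⟩ := (HeightOneSpectrum.denseRange_algebraMap F v).mem_nhds h1
  refine ⟨f, ?_⟩
  have h2 : (Valued.v (R := v.adicCompletion F)).restrict (algebraMap F _ f - x') <
    (Valued.v (R := v.adicCompletion F)).restrict g' := hf
  rw [Valuation.restrict_lt_iff] at h2
  have h3 : Valued.v (R := v.adicCompletion F) g' = v.valuation F g := wFin v g
  rw [h3, Valuation.map_sub_swap] at h2
  exact h2

theorem sqrt_one (h2 : v.valuation F 2 = 1) (x : Comp R F v) (hx : wv v (x - 1) < 1) :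
    ∃ z, z ^ 2 = x ∧ wv v (z - 1) < 1 := by
  have h3 : Valued.v (R := v.adicCompletion F) (2 : v.adicCompletion F) = 1 := by
    have h4 := wFin (F := F) v 2
    rw [h2, map_ofNat] at h4
    exact h4
  exact sqrt_one_unit (L := v.adicCompletion F) h3 x hx

theorem congr_cont (e : F ≃+* F) (he : ∀ x, v.valuation F (e x) = v.valuation F x) :
    Continuous (WithVal.congr (v.valuation F) (v.valuation F) e) := by
  apply UniformContinuous.continuous
  refine uniformContinuous_of_continuousAt_zero _ ?_
  simp_rw [ContinuousAt, map_zero, (Valued.hasBasis_nhds_zero _ _).tendsto_iff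
    (Valued.hasBasis_nhds_zero _ _), true_and, forall_const]
  intro γ
  refine ⟨γ, fun x hx => ?_⟩
  have h1 : (Valued.v (R := WithVal (v.valuation F))).restrict
      (WithVal.congr (v.valuation F) (v.valuation F) e x) =
      (Valued.v (R := WithVal (v.valuation F))).restrict x := by
    rw [Valuation.restrict_inj]
    exact he _
  show (Valued.v (R := WithVal (v.valuation F))).restrict
      (WithVal.congr (v.valuation F) (v.valuation F) e x) < _
  rw [h1]
  exact hx

theorem comp_aut (e : F ≃+* F) (he : ∀ x, v.valuation F (e x) = v.valuation F x) :
    ∃ γ : Comp R F v ≃+* Comp R F v, (∀ x : F, γ (algebraMap F _ x) = algebraMap F _ (e x)) ∧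
      ∀ x, wv v (γ x) = wv v x := by
  have he' : ∀ x, v.valuation F (e.symm x) = v.valuation F x := fun x => by
    rw [← he, RingEquiv.apply_symm_apply]
  let c := WithVal.congr (v.valuation F) (v.valuation F) e
  have hc : Continuous c := congr_cont v e he
  have hc' : Continuous c.symm := congr_cont v e.symm he'
  let γ0 : (v.valuation F).Completion ≃+* (v.valuation F).Completion :=
    UniformSpace.Completion.mapRingEquiv c hc hc'
  let E := HeightOneSpectrum.adicCompletion.equiv F v
  let γ : v.adicCompletion F ≃+* v.adicCompletion F := (E.trans γ0).trans E.symm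
  have hγ : ∀ x : F, γ (algebraMap F (v.adicCompletion F) x) =
      algebraMap F (v.adicCompletion F) (e x) := by
    intro x
    apply HeightOneSpectrum.adicCompletion.ext
    exact UniformSpace.Completion.mapRingHom_coe (f := c.toRingHom) hc
      ((WithVal.equiv (v.valuation F)).symm x)
  refine ⟨γ, hγ, ?_⟩
  have hγc : Continuous γ := by
    have h1 : Continuous γ0 := UniformSpace.Completion.continuous_map
    exact ((HeightOneSpectrum.adicCompletion.continuous_ofCompletion F v).comp h1).comp
      (HeightOneSpectrum.adicCompletion.continuous_toCompletion F v)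
  intro x
  let x' : v.adicCompletion F := x
  show Valued.v (R := v.adicCompletion F) (γ x') = Valued.v (R := v.adicCompletion F) x'
  have h2 : (Valued.v (R := v.adicCompletion F)).restrict (γ x') =
      (Valued.v (R := v.adicCompletion F)).restrict x' := by
    revert x'
    intro x'
    refine (HeightOneSpectrum.denseRange_algebraMap F v).induction_on
      (p := fun x' => (Valued.v (R := v.adicCompletion F)).restrict (γ x') =
        (Valued.v (R := v.adicCompletion F)).restrict x') x' ?_ ?_
    · exact isClosed_eq ((Valued.continuous_valuation (K := v.adicCompletion F)).comp hγc)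
        (Valued.continuous_valuation (K := v.adicCompletion F))
    · intro f
      rw [Valuation.restrict_inj, hγ]
      have h3 := wFin (F := F) v (e f)
      have h4 := wFin (F := F) v f
      rw [he, ← h4] at h3
      exact h3
  rw [Valuation.restrict_inj] at h2
  exact h2

end gen

end Pool.Agent.TH115.GD
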