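import Pool.Agent.TH115.SD.LocSign

/-!
The quadratic characters of the Galois group of the constants: square roots of constants.
-/

set_option autoImplicit false
set_option linter.all false

open Polynomial IsDedekindDomain WeierstrassCurve WeierstrassCurve.Affine
open scoped Classical Pointwise

namespace Pool.Agent.TH115.GD

open Pool.Agent.W309.TD (exists_root)

theorem cast_pm' {Ω : Type*} [Ring Ω] (η : ℤˣ) : ((η : ℤ) : Ω) = 1 ∨ ((η : ℤ) : Ω) = -1 := by
  rcases Int.units_eq_one_or η with h | h <;> rw [h] <;> simp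

section char

variable {k k' : Type} [Field k] [Field k'] [Algebra k k'] [IsSepClosure k k'] (h2 : (2 : k) ≠ 0)
  {ψ : (k' ≃ₐ[k] k') → ℤˣ} (hψ : ∀ s s', ψ (s * s') = ψ s * ψ s')

include h2 hψ in
/-- The character comes from a square root of a constant. -/
theorem root_of_char {θ ω : k'} (hω : ω ≠ 0)
    (h : ∀ s : k' ≃ₐ[k] k', s θ = θ → s ω = ((ψ s : ℤ) : k') * ω) :
    ∃ (ρ : k') (r : k), ρ ≠ 0 ∧ ρ ^ 2 = algebraMap k k' r ∧
      ∀ s : k' ≃ₐ[k] k', s ρ = ((ψ s : ℤ) : k') * ρ := by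
  haveI : IsGalois k k' := inferInstance
  have h2' : (2 : k') ≠ 0 := by
    rw [← map_ofNat (algebraMap k k') 2]
    exact (_root_.map_ne_zero _).2 h2
  refine exists_root (K := k) h2' (fun s => ((ψ s : ℤ) : k')) (fun s => cast_pm' _)
    (fun s s' => by
      show ((ψ (s * s') : ℤ) : k') = ((ψ s : ℤ) : k') * ((ψ s' : ℤ) : k')
      rw [hψ]; push_cast; rfl) ?_
  rw [IsLocallyConstant.iff_exists_open]
  intro s
  have ho : ∀ x : k', IsOpen (MulAction.stabilizer (k' ≃ₐ[k] k') x : Set (k' ≃ₐ[k] k')) :=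
    fun x => stabilizer_isOpen_of_isIntegral x
  refine ⟨s • ((MulAction.stabilizer (k' ≃ₐ[k] k') θ : Set (k' ≃ₐ[k] k')) ∩
    (MulAction.stabilizer (k' ≃ₐ[k] k') ω : Set (k' ≃ₐ[k] k'))),
    ((ho θ).inter (ho ω)).smul s, ?_, ?_⟩
  · exact ⟨1, ⟨(MulAction.stabilizer (k' ≃ₐ[k] k') θ).one_mem,
      (MulAction.stabilizer (k' ≃ₐ[k] k') ω).one_mem⟩, mul_one s⟩
  · rintro τ ⟨ρ, ⟨hρ, hρ'⟩, rfl⟩
    have h1 : ρ θ = θ := hρ
    have h3 : ρ ω = ω := hρ'
    have h4 : ((ψ ρ : ℤ) : k') = 1 := by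
      have h5 := h ρ h1
      rw [h3] at h5
      exact mul_right_cancel₀ hω (by rw [one_mul]; exact h5.symm)
    show ((ψ (s * ρ) : ℤ) : k') = ((ψ s : ℤ) : k')
    rw [hψ]
    push_cast
    rw [h4, mul_one]

/-- Elements fixed by the stabiliser of `θ`. -/
theorem mem_of_stab {θ x : k'} (h : ∀ s : k' ≃ₐ[k] k', s θ = θ → s x = x) :
    ∃ z : k[X], aeval θ z = x := by
  haveI : IsGalois k k' := inferInstance
  have h1 := InfiniteGalois.fixedField_fixingSubgroup (IntermediateField.adjoin k {θ})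
  have h3 : x ∈ IntermediateField.adjoin k {θ} := by
    rw [← h1, IntermediateField.mem_fixedField_iff]
    intro s hs
    apply h
    rw [IntermediateField.mem_fixingSubgroup_iff] at hs
    exact hs θ (IntermediateField.mem_adjoin_simple_self k θ)
  have hint : IsIntegral k θ := (Algebra.IsSeparable.isIntegral k θ)
  rw [← IntermediateField.mem_toSubalgebra,
    IntermediateField.adjoin_simple_toSubalgebra_of_isAlgebraic hint.isAlgebraic,
    Algebra.adjoin_singleton_eq_range_aeval] at h3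
  obtain ⟨z, hz⟩ := h3
  exact ⟨z, hz⟩

theorem sqmod_of_char {ρ : k'} {r : k} (hρ : ρ ^ 2 = algebraMap k k' r)
    (hs : ∀ s : k' ≃ₐ[k] k', s ρ = ((ψ s : ℤ) : k') * ρ) {θ ω : k'} {w : k[X]}
    (hω : ω ^ 2 = (w.map (algebraMap k k')).eval θ)
    (h : ∀ s : k' ≃ₐ[k] k', s θ = θ → s ω = ((ψ s : ℤ) : k') * ω) :
    ∃ z : k[X], aeval θ (z ^ 2 - C r * w) = 0 := by
  obtain ⟨z, hz⟩ := mem_of_stab (k := k) (θ := θ) (x := ρ * ω) (fun s hsθ => by
    rw [map_mul, hs, h s hsθ]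
    have h1 : ((ψ s : ℤ) : k') * ((ψ s : ℤ) : k') = 1 := by
      rcases cast_pm' (Ω := k') (ψ s) with h | h <;> rw [h] <;> ring
    linear_combination ρ * ω * h1)
  refine ⟨z, ?_⟩
  rw [map_sub, map_pow, hz, map_mul, aeval_C, ← hρ, aeval_def, ← eval_map, ← hω]
  ring

end char

section core

variable {k k' K F : Type} [Field k] [Field k'] [Algebra k k'] [Field K] [Algebra k[X] K]
    [Field F] [Algebra k'[X] F] [IsFractionRing k'[X] F] [Algebra K F]

variable (hT : IsTower k k' K F) (h2 : (2 : k) ≠ 0) {a b : k[X]} (ha : a ≠ 0) (hb : b ≠ 0)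
  (hab : a ≠ b) (hco : IsCoprime a b)
  (hsep : ∀ π : k[X], Irreducible π → π ∣ a * b * (a - b) → π.Separable)
  (hodd : Odd (max a.natDegree b.natDegree) ∨ TwoOddFactors a b)

include hT h2 ha hb hab hco hsep hodd in
/-- The quadratic character. -/
theorem psi_fun {c : ℕ → (Sep F ≃ₐ[F] Sep F) →
      Pt (crv (algebraMap k[X] K a) (algebraMap k[X] K b)) (Sep F)}
    (hc : IsTC (crv (algebraMap k[X] K a) (algebraMap k[X] K b)) c)
    (hi : IsInv (crv (algebraMap k[X] K a) (algebraMap k[X] K b)) c)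
    {i : Fin 3} {t : Sep F} (ht0 : t ≠ 0) {u : K} (ht2 : t ^ 2 = algebraMap K (Sep F) u)
    (ht : ∀ σ : Sep F ≃ₐ[F] Sep F,
      σ t = sg i (algebraMap K (Sep F) (algebraMap k[X] K a)) (c 1 σ) * t) :
    ∃ ψ : (k' ≃ₐ[k] k') → ℤˣ, (∀ s (τ : Sep F ≃ₐ[K] Sep F), Lifts s τ →
      PsiRel (crv (algebraMap k[X] K a) (algebraMap k[X] K b)) (algebraMap k[X] K a) c i t τ
        (ψ s)) ∧ ∀ s s', ψ (s * s') = ψ s * ψ s' := by
  haveI := hT.sep
  haveI := hT.fracK
  have h2K : (2 : K) ≠ 0 := tt h2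
  have inj := IsFractionRing.injective k[X] K
  have haK : algebraMap k[X] K a ≠ 0 := by simpa using ha
  have hbK : algebraMap k[X] K b ≠ 0 := by simpa using hb
  have habK : algebraMap k[X] K a ≠ algebraMap k[X] K b := fun h => hab (inj h)
  have hL := isE (algebraMap k[X] K a) (algebraMap k[X] K b) (Sep F) h2K haK hbK habK
  have hN : Preserves K F (Sep F) := preserves hT.map
  have hF : NoFour (crv (algebraMap k[X] K a) (algebraMap k[X] K b)) F :=
    noFourF hT h2 ha hb hab hco hsep hodd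
  have hex := Xi.exist hT h2 ha hb hab hco hsep hodd hc hi
  choose R hR using hex
  choose τ hτ using fun s : k' ≃ₐ[k] k' => lift (Ω := Sep F) hT.map s
  choose ψ hψ using fun s : k' ≃ₐ[k] k' => PsiRel.exist (i := i) _ hN hF (τ s) (hR (τ s)) ht2
  have key : ∀ s (τ' : Sep F ≃ₐ[K] Sep F), Lifts s τ' →
      PsiRel (crv (algebraMap k[X] K a) (algebraMap k[X] K b)) (algebraMap k[X] K a) c i t τ'
        (ψ s) := by
    intro s τ' hτ'
    obtain ⟨ρ, hρ⟩ := Lifts.diff (hτ s) hτ'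
    have h1 := PsiRel.base _ hL hc hF hN ρ _ hρ ht
    have h3 := PsiRel.mul _ hL hN hF (hR (τ s)) (hR _) (hψ s) h1
    rw [mul_one, mul_inv_cancel_left] at h3
    exact h3
  refine ⟨ψ, key, fun s s' => ?_⟩
  have h4 : Lifts (s * s') (τ s * τ s') := Lifts.mul (hτ s) (hτ s')
  exact PsiRel.unique _ hL (hR _) ht0 (key _ _ h4)
    (PsiRel.mul _ hL hN hF (hR _) (hR _) (hψ s) (hψ s'))

end core

end Pool.Agent.TH115.GD
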