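import Mathlib

/-!
Square roots of principal units in complete valued fields.
-/

set_option autoImplicit false
set_option linter.all false

open WithZero Filter Topology

namespace Pool.Agent.TH115.GD

section

variable {L : Type*} [Field L] [Valued L (WithZero (Multiplicative ℤ))]

theorem nonarch : NonarchimedeanAddGroup L where
  is_nonarchimedean U hU := by
    obtain ⟨γ, hγ⟩ := Valued.mem_nhds_zero.1 hU
    refine ⟨⟨Valuation.ltAddSubgroup (Valued.v (R := L)).restrict γ, ?_⟩, ?_⟩
    · exact Valued.isOpen_ball L γ.1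
    · intro x hx
      exact hγ hx

/-- Square roots of principal units. -/
theorem sqrt_one_unit [CompleteSpace L] [T0Space L] (h2 : Valued.v (2 : L) = 1) (x : L)
    (hx : Valued.v (x - 1) < 1) : ∃ z : L, z ^ 2 = x ∧ Valued.v (z - 1) < 1 := by
  have h20 : (2 : L) ≠ 0 := by
    intro h
    rw [h, map_zero] at h2
    exact zero_ne_one h2
  let T : L → L := fun z => z - (z ^ 2 - x) / 2
  obtain ⟨z, z0, zs⟩ : ∃ z : ℕ → L, z 0 = 1 ∧ ∀ n, z (n + 1) = T (z n) :=
    ⟨fun n => Nat.rec 1 (fun _ y => T y) n, rfl, fun _ => rfl⟩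
  set δ := Valued.v (x - 1) with hδ
  have hT : ∀ y y' : L, Valued.v (y - 1) ≤ δ → Valued.v (y' - 1) ≤ δ →
      Valued.v (T y - T y') ≤ δ * Valued.v (y - y') := by
    intro y y' hy hy'
    have e : T y - T y' = ((-(y - 1) - (y' - 1)) / 2) * (y - y') := by
      simp only [T]
      field_simp
      ring
    rw [e, map_mul, map_div₀, h2, div_one]
    refine mul_le_mul_left ?_ _
    refine (Valued.v.map_sub _ _).trans (max_le ?_ hy')
    rw [Valuation.map_neg]
    exact hy
  have hA : ∀ n, Valued.v (z n - 1) ≤ δ := by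
    intro n
    induction n with
    | zero => rw [z0, sub_self, map_zero]; exact zero_le
    | succ n ih =>
      have h1 : Valued.v ((1 : L) - 1) ≤ δ := by rw [sub_self, map_zero]; exact zero_le
      have h3 := hT (z n) 1 ih h1
      have h4 : T 1 - 1 = (x - 1) / 2 := by
        simp only [T]; ring
      have e : z (n + 1) - 1 = (T (z n) - T 1) + (T 1 - 1) := by rw [zs]; ring
      rw [e]
      refine (Valued.v.map_add _ _).trans (max_le ?_ ?_)
      · refine h3.trans ?_
        exact mul_le_of_le_one_right' (ih.trans hx.le)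
      · rw [h4, map_div₀, h2, div_one]
  have hB : ∀ n, Valued.v (z (n + 1) - z n) ≤ Valued.v ((x - 1) ^ (n + 1)) := by
    intro n
    induction n with
    | zero =>
      rw [zero_add, pow_one, zs, z0]
      have h4 : T 1 - 1 = (x - 1) / 2 := by
        simp only [T]; ring
      rw [h4, map_div₀, h2, div_one]
    | succ n ih =>
      have h3 := hT (z (n + 1)) (z n) (hA _) (hA _)
      rw [← zs, ← zs] at h3
      refine h3.trans ?_
      rw [pow_succ' (x - 1), map_mul]
      exact mul_le_mul_right ih _
  haveI := nonarch (L := L)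
  have hlim : Tendsto (fun n => z (n + 1) - z n) atTop (𝓝 0) := by
    have h3 : Tendsto (fun n : ℕ => (x - 1) ^ (n + 1)) atTop (𝓝 0) :=
      (Valued.tendsto_zero_pow_of_v_lt_one hx).comp (tendsto_add_atTop_nat 1)
    rw [(Valued.hasBasis_nhds_zero L _).tendsto_right_iff] at h3 ⊢
    intro γ hγ
    filter_upwards [h3 γ hγ] with n hn
    have h4 : (Valued.v (R := L)).restrict (z (n + 1) - z n) ≤
        (Valued.v (R := L)).restrict ((x - 1) ^ (n + 1)) :=
      (Valuation.restrict_le_iff _).2 (hB n)
    exact lt_of_le_of_lt h4 hn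
  have hcau : CauchySeq z := NonarchimedeanAddGroup.cauchySeq_of_tendsto_sub_nhds_zero hlim
  obtain ⟨w, hw⟩ := cauchySeq_tendsto_of_complete hcau
  have hTc : Continuous T := by
    have : Continuous fun y : L => y - (y ^ 2 - x) * 2⁻¹ := by fun_prop
    simpa only [T, div_eq_mul_inv] using this
  have hw1 : Tendsto (fun n => z (n + 1)) atTop (𝓝 w) := hw.comp (tendsto_add_atTop_nat 1)
  have hw2 : Tendsto (fun n => z (n + 1)) atTop (𝓝 (T w)) := by
    simp only [zs]
    exact (hTc.tendsto w).comp hw
  haveI : T2Space L := inferInstance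
  have hfix : T w = w := tendsto_nhds_unique hw2 hw1
  refine ⟨w, ?_, ?_⟩
  · have h5 : (w ^ 2 - x) / 2 = 0 := by
      have : w - (w ^ 2 - x) / 2 = w := hfix
      linear_combination -this
    rcases div_eq_zero_iff.1 h5 with h6 | h6
    · linear_combination h6
    · exact absurd h6 h20
  · have hcl : IsClosed {y : L | (Valued.v (R := L)).restrict (y - 1) < 1} := by
      have h7 := Valued.isClosed_ball L (1 : MonoidWithZeroHom.ValueGroup₀
        (.ofClass (Valued.v (R := L))))
      exact h7.preimage (f := fun y : L => y - 1) (by fun_prop)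
    have h8 : w ∈ {y : L | (Valued.v (R := L)).restrict (y - 1) < 1} := by
      refine hcl.mem_of_tendsto hw (Eventually.of_forall fun n => ?_)
      show (Valued.v (R := L)).restrict (z n - 1) < 1
      rw [Valuation.restrict_lt_one_iff]
      exact lt_of_le_of_lt (hA n) hx
    have h9 : (Valued.v (R := L)).restrict (w - 1) < 1 := h8
    rwa [Valuation.restrict_lt_one_iff] at h9

end

end Pool.Agent.TH115.GD
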