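import Pool.Agent.TH115.SD.LocHyp

/-!
The points of the curve over a complete field at the places where the points of order two represent
all classes modulo two.
-/

set_option autoImplicit false
set_option linter.all false

open WeierstrassCurve WeierstrassCurve.Affine
open scoped Classical

namespace Pool.Agent.TH115.GD

section

variable {K L : Type} [Field K] [Field L] [Algebra K L] {α β : K} (h2 : (2 : K) ≠ 0) (hα : α ≠ 0)
  (hβ : β ≠ 0) (hαβ : α ≠ β) (w : Valuation L (WithZero (Multiplicative ℤ)))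

/-- The parity of the valuation. -/
noncomputable def pw (w : Valuation L (WithZero (Multiplicative ℤ))) (x : L) : ZMod 2 :=
  if IsSquare (w x) then 0 else 1

omit [Algebra K L] in
theorem pw_zero {x : L} : pw w x = 0 ↔ IsSquare (w x) := by
  unfold pw
  split_ifs with h <;> simp [h]

omit [Algebra K L] in
theorem pw_mul {x y : L} (hx : x ≠ 0) (hy : y ≠ 0) : pw w (x * y) = pw w x + pw w y := by
  by_cases h1 : IsSquare (w x)
  · have h3 := sq_mul_sq w (y := y) h1 hx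
    unfold pw
    by_cases h4 : IsSquare (w y)
    · rw [if_pos (h3.2 h4), if_pos h1, if_pos h4, add_zero]
    · rw [if_neg (fun h => h4 (h3.1 h)), if_pos h1, if_neg h4, zero_add]
  · have h3 := sq_mul_nonsq w h1 hy
    unfold pw
    by_cases h4 : IsSquare (w y)
    · rw [if_neg (fun h => (h3.1 h) h4), if_neg h1, if_pos h4, add_zero]
    · rw [if_pos (h3.2 h4), if_neg h1, if_neg h4]
      decide

omit [Algebra K L] in
theorem pw_neg (x : L) : pw w (-x) = pw w x := by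
  unfold pw
  rw [Valuation.map_neg]

omit [Algebra K L] in
theorem pw_sub (x y : L) : pw w (x - y) = pw w (y - x) := by
  unfold pw
  rw [Valuation.map_sub_swap]

/-- At most one of `α`, `β`, `α - β` has even valuation. -/
def OddPl (w : Valuation L (WithZero (Multiplicative ℤ))) (α β : K) : Prop :=
  (pw w (algebraMap K L α) = 1 ∧ pw w (algebraMap K L β) = 1) ∨
    (pw w (algebraMap K L α) = 1 ∧ pw w (algebraMap K L α - algebraMap K L β) = 1) ∨
    (pw w (algebraMap K L β) = 1 ∧ pw w (algebraMap K L α - algebraMap K L β) = 1)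

/-- The third point of order two. -/
theorem tor_pt3 {K : Type} [Field K] {α β : K} (h2 : (2 : K) ≠ 0) (hα : α ≠ 0) (hβ : β ≠ 0)
    (hαβ : α ≠ β) : ∃ T : Pt (crv α β) K, T + T = 0 ∧ d0 α β T = β ∧ d1 α β T = β - α := by
  have hE := isE α β K h2 hα hβ hαβ
  have nb : ((crv α β).baseChange K).toAffine.Nonsingular β 0 :=
    hE.nonsingular.2 (by rw [Algebra.algebraMap_self_apply, Algebra.algebraMap_self_apply]; ring)
  exact ⟨Point.some β 0 nb, (add_self_eq_zero_iff hE nb).2 rfl, by simp [d0, hβ],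
    by simp [d1, Ne.symm hαβ]⟩

theorem dec_all : ∀ x y z : ZMod 2, ((x = 1 ∧ y = 1) ∨ (x = 1 ∧ z = 1) ∨ (y = 1 ∧ z = 1)) →
    ∀ p q : ZMod 2, (p = 0 ∧ q = 0) ∨ (p + (x + y) = 0 ∧ q + x = 0) ∨
      (p + x = 0 ∧ q + (x + z) = 0) ∨ (p + y = 0 ∧ q + z = 0) := by decide

theorem dec_non : ∀ x y z : ZMod 2, ((x = 1 ∧ y = 1) ∨ (x = 1 ∧ z = 1) ∨ (y = 1 ∧ z = 1)) →
    ¬ (x + y = 0 ∧ x = 0) ∧ ¬ (x = 0 ∧ x + z = 0) ∧ ¬ (y = 0 ∧ z = 0) := by decide

variable {w}

include h2 hα hβ hαβ in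
theorem hdivInf (hp : OddPl w α β)
    (hsq : ∀ x : L, x ≠ 0 → IsSquare (w x) → ∃ z, z ≠ 0 ∧ x = z ^ 2)
    (Q : Pt (crv α β) L) : ∃ Q' : Pt (crv α β) L, ∃ T' ∈ {T : Pt (crv α β) K | T + T = 0},
      Q = Q' + Q' + act (crv α β) (incl K K L) T' := by
  have hE := isE α β L h2 hα hβ hαβ
  have key : ∀ T : Pt (crv α β) K, T + T = 0 → Ev w α β (Q + act (crv α β) (incl K K L) T) →
      ∃ Q' : Pt (crv α β) L, ∃ T' ∈ {T : Pt (crv α β) K | T + T = 0},
      Q = Q' + Q' + act (crv α β) (incl K K L) T' := by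
    intro T hT h
    obtain ⟨Q', hQ'⟩ := half_of_ev h2 hα hβ hαβ w hsq h
    refine ⟨Q', T, hT, ?_⟩
    rw [hQ', add_assoc, ← map_add, hT, map_zero, add_zero]
  have ev : ∀ T : Pt (crv α β) K, pw w (d0 (algebraMap K L α) (algebraMap K L β) Q) +
      pw w (algebraMap K L (d0 α β T)) = 0 →
      pw w (d1 (algebraMap K L α) (algebraMap K L β) Q) +
      pw w (algebraMap K L (d1 α β T)) = 0 → Ev w α β (Q + act (crv α β) (incl K K L) T) := by
    intro T h0 h1
    obtain ⟨i0, i1⟩ := d_incl (L := L) T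
    obtain ⟨a0, a1⟩ := add_par h2 hα hβ hαβ w Q (act (crv α β) (incl K K L) T)
    have n0 : algebraMap K L (d0 α β T) ≠ 0 := by
      rw [← i0]; exact d0_ne hE _
    have n1 : algebraMap K L (d1 α β T) ≠ 0 := by
      rw [← i1]; exact d1_ne hE _
    refine ⟨?_, ?_⟩
    · rw [a0, i0, ← pw_zero, pw_mul w (d0_ne hE Q) n0]
      exact h0
    · rw [a1, i1, ← pw_zero, pw_mul w (d1_ne hE Q) n1]
      exact h1
  have nα : algebraMap K L α ≠ 0 := hE.nea
  have nβ : algebraMap K L β ≠ 0 := hE.neb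
  have nαβ : algebraMap K L α - algebraMap K L β ≠ 0 := sub_ne_zero.2 hE.neab
  obtain ⟨⟨T1, hT1, f0, f1⟩, ⟨T2, hT2, g0, g1⟩⟩ := tor_pt h2 hα hβ hαβ
  obtain ⟨T3, hT3, k0, k1⟩ := tor_pt3 h2 hα hβ hαβ
  rcases dec_all _ _ _ hp (pw w (d0 (algebraMap K L α) (algebraMap K L β) Q))
    (pw w (d1 (algebraMap K L α) (algebraMap K L β) Q)) with ⟨h, h'⟩ | ⟨h, h'⟩ | ⟨h, h'⟩ | ⟨h, h'⟩
  · refine key 0 (add_zero 0) ?_
    rw [map_zero, add_zero]
    exact ⟨(pw_zero w).1 h, (pw_zero w).1 h'⟩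
  · refine key T1 hT1 (ev T1 ?_ ?_)
    · rw [f0, map_mul, pw_mul w nα nβ]; exact h
    · rw [f1, map_neg, pw_neg]; exact h'
  · refine key T2 hT2 (ev T2 ?_ ?_)
    · rw [g0]; exact h
    · rw [g1, map_mul, map_sub, pw_mul w nα nαβ]; exact h'
  · refine key T3 hT3 (ev T3 ?_ ?_)
    · rw [k0]; exact h
    · rw [k1, map_sub, pw_sub]; exact h'

include h2 hα hβ hαβ in
theorem hsgInf (hp : OddPl w α β) (i : Fin 3) (V : Pt (crv α β) L)
    (hV : (V + V) + (V + V) = 0) : sg i (algebraMap K L α) (V + V) = 1 := by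
  have hE := isE α β L h2 hα hβ hαβ
  obtain ⟨e0, e1⟩ := ev_double h2 hα hβ hαβ (w := w) (V := V)
  rw [← pw_zero] at e0 e1
  have nα : algebraMap K L α ≠ 0 := hE.nea
  have nβ : algebraMap K L β ≠ 0 := hE.neb
  have nαβ : algebraMap K L α - algebraMap K L β ≠ 0 := sub_ne_zero.2 hE.neab
  obtain ⟨d1', d2', d3'⟩ := dec_non _ _ _ hp
  have h0 : V + V = 0 := by
    rcases tor_d hE hV with h | ⟨h, h'⟩ | ⟨h, h'⟩ | ⟨h, h'⟩
    · exact h
    · exfalso
      rw [h, pw_mul w nα nβ] at e0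
      rw [h', pw_neg] at e1
      exact d1' ⟨e0, e1⟩
    · exfalso
      rw [h] at e0
      rw [h', pw_mul w nα nαβ] at e1
      exact d2' ⟨e0, e1⟩
    · exfalso
      rw [h] at e0
      rw [h', pw_sub] at e1
      exact d3' ⟨e0, e1⟩
  rw [h0]
  unfold sg
  split_ifs <;> simp [s0, s1, Point.zero_def]

end

end Pool.Agent.TH115.GD
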