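import Pool.Agent.TH115.SD.Main

/-!
The Kummer classes of the points over `K`.
-/

set_option autoImplicit false
set_option linter.all false

open Polynomial IsDedekindDomain WeierstrassCurve WeierstrassCurve.Affine
open scoped Classical

namespace Pool.Agent.TH115.GD

section kcls

variable {K F : Type} [Field K] [Field F] [Algebra K F] {α β : K} (h2 : (2 : K) ≠ 0) (hα : α ≠ 0)
  (hβ : β ≠ 0) (hαβ : α ≠ β)

include h2 hα hβ hαβ in
/-- The Kummer class of a point over `K` is fixed and locally trivial. -/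
theorem kcls {k' : Type} [Field k'] [Algebra k'[X] F] [IsFractionRing k'[X] F]
    (T : Pt (crv α β) K) :
    ∃ e : ℕ → (Sep F ≃ₐ[F] Sep F) → Pt (crv α β) (Sep F), IsTateClass k' (crv α β) e ∧
      Rep (crv α β) α (e 1) (algebraMap K F (d0 α β T)) (algebraMap K F (d1 α β T)) ∧
      ∃ H : ℕ → Pt (crv α β) (Sep F),
        (∀ n, 2 ^ n • H n = act (crv α β) (incl K K (Sep F)) T) ∧
        ∀ n σ, e n σ = act (crv α β) (rs K σ) (H n) - H n := by
  have hL := isE α β (Sep F) h2 hα hβ hαβ
  have hhalf : ∀ X : Pt (crv α β) (Sep F), ∃ Y : Pt (crv α β) (Sep F), Y + Y = X :=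
    halve_sep hL
  choose hv hhv using hhalf
  obtain ⟨H, H0, HS⟩ : ∃ H : ℕ → Pt (crv α β) (Sep F),
      H 0 = act (crv α β) (incl K K (Sep F)) T ∧ ∀ j, 2 • H (j + 1) = H j :=
    ⟨fun j => Nat.rec (act (crv α β) (incl K K (Sep F)) T) (fun _ X => hv X) j, rfl, fun j => by
      rw [two_nsmul]
      exact hhv _⟩
  have Hpow : ∀ j, 2 ^ j • H j = act (crv α β) (incl K K (Sep F)) T := by
    intro j
    induction j with
    | zero => rw [pow_zero, one_smul, H0]
    | succ j ih => rw [pow_succ, mul_smul, HS, ih]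
  have PK : ∀ φ : Sep F →ₐ[K] Sep F, act (crv α β) φ (act (crv α β) (incl K K (Sep F)) T) =
      act (crv α β) (incl K K (Sep F)) T := by
    intro φ
    have h1 : φ.comp (incl K K (Sep F)) = incl K K (Sep F) := AlgHom.ext fun x => φ.commutes x
    rw [act_act, h1]
  have H11 : H 1 + H 1 = act (crv α β) (incl K K (Sep F)) T := by
    rw [← two_nsmul, HS 0, H0]
  have hfix : ∀ σ : Sep F ≃ₐ[F] Sep F, act (crv α β) (rs K σ) (H 1 + H 1) = H 1 + H 1 := by
    intro σ
    rw [H11]
    exact PK _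
  refine ⟨fun n σ => act (crv α β) (rs K σ) (H n) - H n, ⟨⟨fun j => cob_isCoc _ _, fun σ => ?_,
    fun j σ => ?_⟩, fun j => ?_, fun τ => ?_⟩, ?_, H, Hpow, fun n σ => rfl⟩
  · show act (crv α β) (rs K σ) (H 0) - H 0 = 0
    rw [H0, PK, sub_self]
  · show 2 • (act (crv α β) (rs K σ) (H (j + 1)) - H (j + 1)) = _
    rw [smul_sub, ← map_nsmul, HS]
  · have key : (fun σ : Sep F ≃ₐ[F] Sep F => act (crv α β) (rs K σ) (H j) - H j) =
        fun σ => (0 : Pt (crv α β) (Sep F)) - (act (crv α β) (rs K σ) (-H j) - (-H j)) := by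
      funext σ
      rw [map_neg]
      abel
    show LocallyTrivial k' (crv α β) (fun σ : Sep F ≃ₐ[F] Sep F =>
      act (crv α β) (rs K σ) (H j) - H j)
    rw [key]
    exact ⟨fun v => (LocTriv.zero (crv α β)).sub _ (-H j), (LocTriv.zero (crv α β)).sub _ (-H j)⟩
  · refine ⟨0, fun j => act (crv α β) (ak τ) (H j) - H j, ⟨?_, fun j => ?_⟩, ?_⟩
    · show act (crv α β) (ak τ) (H 0) - H 0 = 0
      rw [H0, PK, sub_self]
    · show 2 • (act (crv α β) (ak τ) (H (j + 1)) - H (j + 1)) = _
      rw [smul_sub, ← map_nsmul, HS]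
    · intro j σ σ' h
      have hcomp : act (crv α β) (ak τ) (act (crv α β) (rs K σ') (H j)) =
          act (crv α β) (rs K σ) (act (crv α β) (ak τ) (H j)) := by
        have h5 : (ak τ).comp (rs K σ') = (rs K σ).comp (ak τ) := AlgHom.ext fun x => h x
        rw [act_act, act_act, h5]
      show 2 ^ 0 • (act (crv α β) (ak τ) (act (crv α β) (rs K σ') (H j) - H j) -
        (act (crv α β) (rs K σ) (H j) - H j)) =
        act (crv α β) (rs K σ) (act (crv α β) (ak τ) (H j) - H j) -
          (act (crv α β) (ak τ) (H j) - H j)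
      rw [pow_zero, one_smul, map_sub, hcomp, map_sub]
      abel
  · refine ⟨h0 (algebraMap K (Sep F) α) (algebraMap K (Sep F) β) (H 1),
      h1 (algebraMap K (Sep F) α) (algebraMap K (Sep F) β) (H 1), h0_ne hL _, h1_ne hL _, ?_, ?_,
      fun σ => (sign_half _ hL hfix σ).2.1, fun σ => (sign_half _ hL hfix σ).2.2⟩
    · rw [h0_sq hL, H11]
      have := d0_act (crv α β) (incl K K (Sep F)) α β T
      have ea : incl K K (Sep F) α = algebraMap K (Sep F) α := rfl
      have eb : incl K K (Sep F) β = algebraMap K (Sep F) β := rfl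
      rw [ea, eb] at this
      rw [this, ← IsScalarTower.algebraMap_apply K F (Sep F)]
      rfl
    · rw [h1_sq hL, H11]
      have := d1_act (crv α β) (incl K K (Sep F)) α β T
      have ea : incl K K (Sep F) α = algebraMap K (Sep F) α := rfl
      have eb : incl K K (Sep F) β = algebraMap K (Sep F) β := rfl
      rw [ea, eb] at this
      rw [this, ← IsScalarTower.algebraMap_apply K F (Sep F)]
      rfl

end kcls

/-- The triples which satisfy the conditions of the second descent. -/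
def Triples2 {k : Type} [Field k] (a b : k[X]) : Set (k[X] × k[X] × k[X]) :=
  {t | t ∈ Triples a b ∧ ∃ r s : k, SecondCond a b t.1 t.2.1 t.2.2 r s}

section core

variable {k k' K F : Type} [Field k] [Field k'] [Algebra k k'] [Field K] [Algebra k[X] K]
    [Field F] [Algebra k'[X] F] [IsFractionRing k'[X] F] [Algebra K F]

variable (hT : IsTower k k' K F) (h2 : (2 : k) ≠ 0) {a b : k[X]} (ha : a ≠ 0) (hb : b ≠ 0)
  (hab : a ≠ b) (hco : IsCoprime a b)
  (hsep : ∀ π : k[X], Irreducible π → π ∣ a * b * (a - b) → π.Separable)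
  (hodd : Odd (max a.natDegree b.natDegree) ∨ TwoOddFactors a b)

include hT h2 ha hb hab hco hsep hodd in
/-- The triple of a Tate class and a point satisfies the conditions of the second descent. -/
theorem triple_cls2 {c : ℕ → (Sep F ≃ₐ[F] Sep F) →
      Pt (crv (algebraMap k[X] K a) (algebraMap k[X] K b)) (Sep F)}
    (hc : IsTateClass k' (crv (algebraMap k[X] K a) (algebraMap k[X] K b)) c)
    (T : Pt (crv (algebraMap k[X] K a) (algebraMap k[X] K b)) K) :
    ∃ t ∈ Triples2 a b, ∃ a0 a1 : F, a0 ≠ 0 ∧ a1 ≠ 0 ∧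
      Rep (crv (algebraMap k[X] K a) (algebraMap k[X] K b)) (algebraMap k[X] K a) (c 1) a0 a1 ∧
      SqEq (a0 * algebraMap K F (d0 (algebraMap k[X] K a) (algebraMap k[X] K b) T))
        (emb k K F (t.1 * t.2.1)) ∧
      SqEq (a1 * algebraMap K F (d1 (algebraMap k[X] K a) (algebraMap k[X] K b) T))
        (emb k K F (t.1 * t.2.2)) := by
  haveI := hT.sep
  haveI := hT.fracK
  have h2K : (2 : K) ≠ 0 := tt h2
  have inj := IsFractionRing.injective k[X] K
  have haK : algebraMap k[X] K a ≠ 0 := by simpa using ha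
  have hbK : algebraMap k[X] K b ≠ 0 := by simpa using hb
  have habK : algebraMap k[X] K a ≠ algebraMap k[X] K b := fun h => hab (inj h)
  obtain ⟨t, ht, a0, a1, n0, n1, hrep, q0, q1⟩ := triple_cls hT h2 ha hb hab hco hsep hodd hc T
  obtain ⟨e, he, hre, -⟩ := kcls (F := F) h2K haK hbK habK (k' := k') T
  have hc2 : ∀ σ, c 1 σ + c 1 σ = 0 := fun σ => by
    rw [← two_nsmul, hc.tc.two 0 σ, hc.tc.zero]
  have he2 : ∀ σ, e 1 σ + e 1 σ = 0 := fun σ => by
    rw [← two_nsmul, he.tc.two 0 σ, he.tc.zero]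
  have hR := Rep.add h2K haK hbK habK hc2 he2 hrep hre
  refine ⟨t, ⟨ht, ?_⟩, a0, a1, n0, n1, hrep, q0, q1⟩
  obtain ⟨A, B, D⟩ := t
  exact second_cond hT h2 ha hb hab hco hsep hodd (hc.add he) hR ht q0 q1

end core

end Pool.Agent.TH115.GD
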