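import Pool.Agent.TH115.SD.LocStep

/-!
Extension of automorphisms to separable closures.
-/

set_option autoImplicit false
set_option linter.all false

open Polynomial

namespace Pool.Agent.TH115.GD

section tw

variable {L : Type} [Field L]

/-- The separable closure of `L` with the structure of an `L`-algebra twisted by `γ`. -/
def Tw (γ : L ≃+* L) : Type := Sep L

noncomputable instance twField (γ : L ≃+* L) : Field (Tw γ) := (inferInstance : Field (Sep L))

noncomputable instance twAlgebra (γ : L ≃+* L) : Algebra L (Tw γ) :=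
  ((algebraMap L (Sep L)).comp (γ : L →+* L)).toAlgebra

instance twSepClosed (γ : L ≃+* L) : IsSepClosed (Tw γ) := (inferInstance : IsSepClosed (Sep L))

instance twSep (γ : L ≃+* L) : IsSepClosure L (Tw γ) := by
  refine ⟨inferInstance, ⟨fun x => ?_⟩⟩
  haveI : Algebra.IsSeparable L (Sep L) := IsSepClosure.separable
  let y : Sep L := x
  have h1 : IsSeparable L y := Algebra.IsSeparable.isSeparable L y
  have h2 : ((minpoly L y).map (γ.symm : L →+* L)).Separable :=
    Polynomial.Separable.map (p := minpoly L y) h1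
  refine Polynomial.Separable.of_dvd h2 ?_
  apply minpoly.dvd
  have h3 : aeval x ((minpoly L y).map (γ.symm : L →+* L)) =
      eval₂ (((algebraMap L (Sep L)).comp (γ : L →+* L)).comp (γ.symm : L →+* L)) y
        (minpoly L y) := by
    rw [aeval_def, eval₂_map]
    rfl
  have h4 : ((algebraMap L (Sep L)).comp (γ : L →+* L)).comp (γ.symm : L →+* L) =
      algebraMap L (Sep L) := by
    ext z
    simp
  rw [h3, h4, ← aeval_def, minpoly.aeval]
  rfl

/-- Automorphisms extend to the separable closure. -/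
theorem exists_G (γ : L ≃+* L) : ∃ G : Sep L ≃+* Sep L,
    ∀ x, G (algebraMap L (Sep L) x) = algebraMap L (Sep L) (γ x) := by
  let e : Sep L ≃ₐ[L] Tw γ := IsSepClosure.equiv L (Sep L) (Tw γ)
  refine ⟨e.toRingEquiv, fun x => ?_⟩
  exact e.commutes x

end tw

universe u

theorem exists_g {K F Ω Ω' : Type u} [Field K] [Field F] [Field Ω] [Field Ω'] [Algebra K F]
    [Algebra F Ω] [Algebra K Ω] [IsScalarTower K F Ω] [Algebra K Ω'] [Algebra F Ω']
    [IsScalarTower K F Ω'] [Normal K Ω] (ι : Ω →ₐ[F] Ω') (G : Ω' ≃ₐ[K] Ω') :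
    ∃ g : Ω ≃ₐ[K] Ω, ∀ x, ι (g x) = G (ι x) := by
  letI : Algebra Ω Ω' := ι.toRingHom.toAlgebra
  haveI : IsScalarTower K Ω Ω' := IsScalarTower.of_algebraMap_eq fun x => by
    show algebraMap K Ω' x = ι (algebraMap K Ω x)
    rw [IsScalarTower.algebraMap_apply K F Ω, ι.commutes, ← IsScalarTower.algebraMap_apply]
  let φ : Ω →ₐ[K] Ω' := G.toAlgHom.comp (ι.restrictScalars K)
  let g0 : Ω →ₐ[K] Ω := AlgHom.restrictNormal φ Ω
  have hg0 : ∀ x, ι (g0 x) = G (ι x) := fun x => AlgHom.restrictNormal_commutes φ Ω x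
  have hbij : Function.Bijective g0 := Algebra.IsAlgebraic.algHom_bijective g0
  exact ⟨AlgEquiv.ofBijective g0 hbij, hg0⟩

end Pool.Agent.TH115.GD
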