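import Pool.Agent.TH115.SD.LocStep

/-!
The points of the curve over a complete field at the places of odd multiplicative reduction.
-/

set_option autoImplicit false
set_option linter.all false

open WeierstrassCurve WeierstrassCurve.Affine
open scoped Classical

namespace Pool.Agent.TH115.GD

open Pool.Agent.W309.TD (sq_of_nonsq IsSquare.of_mul_left')

section

variable {K L : Type} [Field K] [Field L] [Algebra K L] {α β : K} (h2 : (2 : K) ≠ 0) (hα : α ≠ 0)
  (hβ : β ≠ 0) (hαβ : α ≠ β) (w : Valuation L (WithZero (Multiplicative ℤ)))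

/-- The coordinates of `Q` have even valuations. -/
def Ev (w : Valuation L (WithZero (Multiplicative ℤ))) (α β : K) (Q : Pt (crv α β) L) : Prop :=
  IsSquare (w (d0 (algebraMap K L α) (algebraMap K L β) Q)) ∧
    IsSquare (w (d1 (algebraMap K L α) (algebraMap K L β) Q))

omit [Algebra K L] in
theorem sq_mul_sq {x y : L} (h : IsSquare (w x)) (hx : x ≠ 0) :
    IsSquare (w (x * y)) ↔ IsSquare (w y) := by
  rw [map_mul]
  exact ⟨fun h' => IsSquare.of_mul_left' h ((Valuation.ne_zero_iff _).2 hx) h', fun h' => h.mul h'⟩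

omit [Algebra K L] in
theorem sq_mul_nonsq {x y : L} (h : ¬ IsSquare (w x)) (hy : y ≠ 0) :
    IsSquare (w (x * y)) ↔ ¬ IsSquare (w y) := by
  rw [map_mul]
  constructor
  · intro h' h3
    exact h (IsSquare.of_mul_left' h3 ((Valuation.ne_zero_iff _).2 hy) (by rwa [mul_comm]))
  · intro h'
    exact sq_of_nonsq h h'

include h2 hα hβ hαβ in
theorem half_of_ev (hsq : ∀ x : L, x ≠ 0 → IsSquare (w x) → ∃ z, z ≠ 0 ∧ x = z ^ 2)
    {Q : Pt (crv α β) L} (hQ : Ev w α β Q) : ∃ Q' : Pt (crv α β) L, Q' + Q' = Q := by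
  have hE := isE α β L h2 hα hβ hαβ
  obtain ⟨z0, n0, e0⟩ := hsq _ (d0_ne hE Q) hQ.1
  obtain ⟨z1, n1, e1⟩ := hsq _ (d1_ne hE Q) hQ.2
  exact half_F h2 hα hβ hαβ Q ⟨z0, n0, by rw [mul_one]; exact e0⟩ ⟨z1, n1, by rw [mul_one]; exact e1⟩

include h2 hα hβ hαβ in
/-- The points modulo two. -/
theorem hdiv_gen (hsq : ∀ x : L, x ≠ 0 → IsSquare (w x) → ∃ z, z ≠ 0 ∧ x = z ^ 2)
    {T : Pt (crv α β) K} (hT : T + T = 0)
    (hev : ∀ Q : Pt (crv α β) L, Ev w α β Q ∨ Ev w α β (Q + act (crv α β) (incl K K L) T))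
    (Q : Pt (crv α β) L) : ∃ Q' : Pt (crv α β) L, ∃ T' ∈ ({0, T} : Set (Pt (crv α β) K)),
      Q = Q' + Q' + act (crv α β) (incl K K L) T' := by
  rcases hev Q with h | h
  · obtain ⟨Q', hQ'⟩ := half_of_ev h2 hα hβ hαβ w hsq h
    exact ⟨Q', 0, by simp, by rw [hQ', map_zero, add_zero]⟩
  · obtain ⟨Q', hQ'⟩ := half_of_ev h2 hα hβ hαβ w hsq h
    refine ⟨Q', T, by simp, ?_⟩
    rw [hQ', add_assoc, ← map_add, hT, map_zero, add_zero]

include h2 hα hβ hαβ in
theorem add_par (Q T : Pt (crv α β) L) :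
    (IsSquare (w (d0 (algebraMap K L α) (algebraMap K L β) (Q + T))) ↔
      IsSquare (w (d0 (algebraMap K L α) (algebraMap K L β) Q *
        d0 (algebraMap K L α) (algebraMap K L β) T))) ∧
    (IsSquare (w (d1 (algebraMap K L α) (algebraMap K L β) (Q + T))) ↔
      IsSquare (w (d1 (algebraMap K L α) (algebraMap K L β) Q *
        d1 (algebraMap K L α) (algebraMap K L β) T))) := by
  obtain ⟨u0, u1, n0, n1, e0, e1⟩ := d_add (K := K) (F := L) (Ω := Sep L) (crv α β)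
    (isE α β (Sep L) h2 hα hβ hαβ) Q T
  have hs : ∀ u : L, IsSquare (w (u ^ 2)) := fun u => ⟨w u, by rw [map_pow, pow_two]⟩
  constructor
  · rw [e0, sq_mul_sq w (hs u0) (pow_ne_zero 2 n0)]
  · rw [e1, sq_mul_sq w (hs u1) (pow_ne_zero 2 n1)]

/-- The three points of order two. -/
theorem tor_pt {K : Type} [Field K] {α β : K} (h2 : (2 : K) ≠ 0) (hα : α ≠ 0) (hβ : β ≠ 0)
    (hαβ : α ≠ β) : (∃ T : Pt (crv α β) K, T + T = 0 ∧ d0 α β T = α * β ∧ d1 α β T = -α) ∧
      (∃ T : Pt (crv α β) K, T + T = 0 ∧ d0 α β T = α ∧ d1 α β T = α * (α - β)) := by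
  have hE := isE α β K h2 hα hβ hαβ
  have n0 : ((crv α β).baseChange K).toAffine.Nonsingular 0 0 := hE.nonsingular.2 (by ring)
  have na : ((crv α β).baseChange K).toAffine.Nonsingular α 0 :=
    hE.nonsingular.2 (by rw [Algebra.algebraMap_self_apply]; ring)
  refine ⟨⟨Point.some 0 0 n0, (add_self_eq_zero_iff hE n0).2 rfl, by simp [d0],
    by simp [d1, Ne.symm hα]⟩,
    ⟨Point.some α 0 na, (add_self_eq_zero_iff hE na).2 rfl, by simp [d0, hα], by simp [d1]⟩⟩

/-- The coordinates of `T` over `L`. -/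
theorem d_incl (T : Pt (crv α β) K) :
    d0 (algebraMap K L α) (algebraMap K L β) (act (crv α β) (incl K K L) T) =
      algebraMap K L (d0 α β T) ∧
    d1 (algebraMap K L α) (algebraMap K L β) (act (crv α β) (incl K K L) T) =
      algebraMap K L (d1 α β T) :=
  ⟨d0_act (crv α β) (incl K K L) α β T, d1_act (crv α β) (incl K K L) α β T⟩

variable {w}

/-- The three kinds of places. -/
structure PlA (w : Valuation L (WithZero (Multiplicative ℤ))) (α β : K) : Prop where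
  va : ¬ IsSquare (w (algebraMap K L α))
  va' : w (algebraMap K L α) ≤ 1
  vb : w (algebraMap K L β) = 1
  vab : w (algebraMap K L α - algebraMap K L β) = 1

structure PlB (w : Valuation L (WithZero (Multiplicative ℤ))) (α β : K) : Prop where
  va : w (algebraMap K L α) = 1
  vb : ¬ IsSquare (w (algebraMap K L β))
  vb' : w (algebraMap K L β) ≤ 1
  vab : w (algebraMap K L α - algebraMap K L β) = 1

structure PlC (w : Valuation L (WithZero (Multiplicative ℤ))) (α β : K) : Prop where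
  va : w (algebraMap K L α) = 1
  vb : w (algebraMap K L β) = 1
  vab : ¬ IsSquare (w (algebraMap K L α - algebraMap K L β))

include h2 hα hβ hαβ in
theorem hdivA (hp : PlA w α β)
    (hsq : ∀ x : L, x ≠ 0 → IsSquare (w x) → ∃ z, z ≠ 0 ∧ x = z ^ 2)
    {T : Pt (crv α β) K} (hT : T + T = 0) (hd0 : d0 α β T = α * β) (hd1 : d1 α β T = -α)
    (Q : Pt (crv α β) L) : ∃ Q' : Pt (crv α β) L, ∃ T' ∈ ({0, T} : Set (Pt (crv α β) K)),
      Q = Q' + Q' + act (crv α β) (incl K K L) T' := by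
  have hE := isE α β L h2 hα hβ hαβ
  have one : IsSquare (1 : WithZero (Multiplicative ℤ)) := ⟨1, (mul_one 1).symm⟩
  have hrel : ∀ Q : Pt (crv α β) L, IsSquare (w (d0 (algebraMap K L α) (algebraMap K L β) Q *
      d1 (algebraMap K L α) (algebraMap K L β) Q)) :=
    locA (v := w) hE one one_ne_zero hp.va' hp.vb hp.vab
  refine hdiv_gen h2 hα hβ hαβ w hsq hT (fun Q => ?_) Q
  obtain ⟨i0, i1⟩ := d_incl (L := L) T
  obtain ⟨a0, a1⟩ := add_par h2 hα hβ hαβ w Q (act (crv α β) (incl K K L) T)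
  by_cases h : IsSquare (w (d0 (algebraMap K L α) (algebraMap K L β) Q))
  · exact Or.inl ⟨h, (sq_mul_sq w h (d0_ne hE Q)).1 (hrel Q)⟩
  · right
    have h3 : IsSquare (w (d0 (algebraMap K L α) (algebraMap K L β)
        (Q + act (crv α β) (incl K K L) T))) := by
      rw [a0, sq_mul_nonsq w h (d0_ne hE _), i0, hd0, map_mul, map_mul, hp.vb, mul_one]
      exact hp.va
    exact ⟨h3, (sq_mul_sq w h3 (d0_ne hE _)).1 (hrel _)⟩

include h2 hα hβ hαβ in
theorem hdivB (hp : PlB w α β)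
    (hsq : ∀ x : L, x ≠ 0 → IsSquare (w x) → ∃ z, z ≠ 0 ∧ x = z ^ 2)
    {T : Pt (crv α β) K} (hT : T + T = 0) (hd0 : d0 α β T = α * β) (hd1 : d1 α β T = -α)
    (Q : Pt (crv α β) L) : ∃ Q' : Pt (crv α β) L, ∃ T' ∈ ({0, T} : Set (Pt (crv α β) K)),
      Q = Q' + Q' + act (crv α β) (incl K K L) T' := by
  have hE := isE α β L h2 hα hβ hαβ
  have one : IsSquare (1 : WithZero (Multiplicative ℤ)) := ⟨1, (mul_one 1).symm⟩
  have hrel : ∀ Q : Pt (crv α β) L, IsSquare (w (d1 (algebraMap K L α) (algebraMap K L β) Q)) :=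
    loc1 (v := w) hE one one_ne_zero hp.va hp.vb' hp.vab
  refine hdiv_gen h2 hα hβ hαβ w hsq hT (fun Q => ?_) Q
  obtain ⟨i0, i1⟩ := d_incl (L := L) T
  obtain ⟨a0, a1⟩ := add_par h2 hα hβ hαβ w Q (act (crv α β) (incl K K L) T)
  by_cases h : IsSquare (w (d0 (algebraMap K L α) (algebraMap K L β) Q))
  · exact Or.inl ⟨h, hrel Q⟩
  · right
    have h3 : IsSquare (w (d0 (algebraMap K L α) (algebraMap K L β)
        (Q + act (crv α β) (incl K K L) T))) := by
      rw [a0, sq_mul_nonsq w h (d0_ne hE _), i0, hd0, map_mul, map_mul, hp.va, one_mul]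
      exact hp.vb
    exact ⟨h3, hrel _⟩

include h2 hα hβ hαβ in
theorem hdivC (hp : PlC w α β)
    (hsq : ∀ x : L, x ≠ 0 → IsSquare (w x) → ∃ z, z ≠ 0 ∧ x = z ^ 2)
    {T : Pt (crv α β) K} (hT : T + T = 0) (hd0 : d0 α β T = α) (hd1 : d1 α β T = α * (α - β))
    (Q : Pt (crv α β) L) : ∃ Q' : Pt (crv α β) L, ∃ T' ∈ ({0, T} : Set (Pt (crv α β) K)),
      Q = Q' + Q' + act (crv α β) (incl K K L) T' := by
  have hE := isE α β L h2 hα hβ hαβ
  have one : IsSquare (1 : WithZero (Multiplicative ℤ)) := ⟨1, (mul_one 1).symm⟩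
  have hrel : ∀ Q : Pt (crv α β) L, IsSquare (w (d0 (algebraMap K L α) (algebraMap K L β) Q)) :=
    loc0 (v := w) hE one one_ne_zero hp.va hp.vb
  refine hdiv_gen h2 hα hβ hαβ w hsq hT (fun Q => ?_) Q
  obtain ⟨i0, i1⟩ := d_incl (L := L) T
  obtain ⟨a0, a1⟩ := add_par h2 hα hβ hαβ w Q (act (crv α β) (incl K K L) T)
  by_cases h : IsSquare (w (d1 (algebraMap K L α) (algebraMap K L β) Q))
  · exact Or.inl ⟨hrel Q, h⟩
  · right
    have h3 : IsSquare (w (d1 (algebraMap K L α) (algebraMap K L β)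
        (Q + act (crv α β) (incl K K L) T))) := by
      rw [a1, sq_mul_nonsq w h (d1_ne hE _), i1, hd1, map_mul, map_sub, map_mul, hp.va, one_mul]
      exact hp.vab
    exact ⟨hrel _, h3⟩

include h2 hα hβ hαβ in
/-- The doubles of the points of order four. -/
theorem ev_double {V : Pt (crv α β) L} : Ev w α β (V + V) := by
  have hE := isE α β L h2 hα hβ hαβ
  refine ⟨?_, ?_⟩
  · rw [← h0_sq hE, map_pow]; exact ⟨_, pow_two _⟩
  · rw [← h1_sq hE, map_pow]; exact ⟨_, pow_two _⟩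

include h2 hα hβ hαβ in
theorem hsgA (hp : PlA w α β) (V : Pt (crv α β) L) (hV : (V + V) + (V + V) = 0) :
    sg 2 (algebraMap K L α) (V + V) = 1 := by
  have hE := isE α β L h2 hα hβ hαβ
  obtain ⟨e0, e1⟩ := ev_double h2 hα hβ hαβ (w := w) (V := V)
  have hs : sg 2 (algebraMap K L α) (V + V) = s0 (V + V) * s1 (algebraMap K L α) (V + V) := by
    simp [sg]
  rw [hs]
  rcases tor_cases hE hV with ⟨h1, h3, h4⟩ | ⟨hn, h1, h3, h4⟩ | ⟨hn, h1, h3, h4⟩ |
    ⟨hn, h1, h3, h4⟩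
  · rw [h3, h4, one_mul]
  · exfalso
    rw [h1] at e0
    simp only [d0, if_true] at e0
    rw [map_mul, hp.vb, mul_one] at e0
    exact hp.va e0
  · exfalso
    rw [h1] at e0
    simp only [d0, if_neg hE.nea] at e0
    exact hp.va e0
  · rw [h3, h4]; ring

include h2 hα hβ hαβ in
theorem hsgB (hp : PlB w α β) (V : Pt (crv α β) L) (hV : (V + V) + (V + V) = 0) :
    sg 1 (algebraMap K L α) (V + V) = 1 := by
  have hE := isE α β L h2 hα hβ hαβ
  obtain ⟨e0, e1⟩ := ev_double h2 hα hβ hαβ (w := w) (V := V)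
  have hs : sg 1 (algebraMap K L α) (V + V) = s1 (algebraMap K L α) (V + V) := by
    simp [sg]
  rw [hs]
  rcases tor_cases hE hV with ⟨h1, h3, h4⟩ | ⟨hn, h1, h3, h4⟩ | ⟨hn, h1, h3, h4⟩ |
    ⟨hn, h1, h3, h4⟩
  · exact h4
  · exfalso
    rw [h1] at e0
    simp only [d0, if_true] at e0
    rw [map_mul, hp.va, one_mul] at e0
    exact hp.vb e0
  · exact h4
  · exfalso
    rw [h1] at e0
    simp only [d0, if_neg hE.neb] at e0
    exact hp.vb e0

include h2 hα hβ hαβ in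
theorem hsgC (hp : PlC w α β) (V : Pt (crv α β) L) (hV : (V + V) + (V + V) = 0) :
    sg 0 (algebraMap K L α) (V + V) = 1 := by
  have hE := isE α β L h2 hα hβ hαβ
  obtain ⟨e0, e1⟩ := ev_double h2 hα hβ hαβ (w := w) (V := V)
  have hs : sg 0 (algebraMap K L α) (V + V) = s0 (V + V) := by
    simp [sg]
  rw [hs]
  rcases tor_cases hE hV with ⟨h1, h3, h4⟩ | ⟨hn, h1, h3, h4⟩ | ⟨hn, h1, h3, h4⟩ |
    ⟨hn, h1, h3, h4⟩
  · exact h3
  · exact h3
  · exfalso
    rw [h1] at e1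
    simp only [d1, if_true] at e1
    rw [map_mul, hp.va, one_mul] at e1
    exact hp.vab e1
  · exfalso
    rw [h1] at e1
    simp only [d1, if_neg (Ne.symm hE.neab)] at e1
    rw [Valuation.map_sub_swap] at e1
    exact hp.vab e1

end

end Pool.Agent.TH115.GD
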