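import Pool.Agent.TH115.SD.Psi

/-!
The quadratic character at the stabiliser of a place.
-/

set_option autoImplicit false
set_option linter.all false

open Polynomial IsDedekindDomain WeierstrassCurve WeierstrassCurve.Affine
open scoped Classical

namespace Pool.Agent.TH115.GD

section core

variable {k k' K F : Type} [Field k] [Field k'] [Algebra k k'] [Field K] [Algebra k[X] K]
    [Field F] [Algebra k'[X] F] [IsFractionRing k'[X] F] [Algebra K F]

variable (hT : IsTower k k' K F) (h2 : (2 : k) ≠ 0) {a b : k[X]} (ha : a ≠ 0) (hb : b ≠ 0)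
  (hab : a ≠ b) (hco : IsCoprime a b)
  (hsep : ∀ π : k[X], Irreducible π → π ∣ a * b * (a - b) → π.Separable)
  (hodd : Odd (max a.natDegree b.natDegree) ∨ TwoOddFactors a b)

include hT in
theorem es_K (s : k' ≃ₐ[k] k') (x : K) :
    es F (s : k' ≃+* k') (algebraMap K F x) = algebraMap K F x := by
  haveI := hT.fracK
  have hfix : ∀ p : k[X], (p.map (algebraMap k k')).map ((s : k' ≃+* k') : k' →+* k') =
      p.map (algebraMap k k') := by
    intro p
    rw [Polynomial.map_map]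
    congr 1
    ext x
    exact s.commutes x
  obtain ⟨n, d, hd, rfl⟩ := IsFractionRing.div_surjective (A := k[X]) x
  rw [map_div₀, hT.map, hT.map, map_div₀, es_poly, es_poly, hfix, hfix]

include hT h2 ha hb hab hco hsep hodd in
/-- The character at the stabiliser of a place. -/
theorem loc_sign_gen {L : Type} [Field L] [Algebra K L] [Algebra F L] [IsScalarTower K F L]
    {c : ℕ → (Sep F ≃ₐ[F] Sep F) →
      Pt (crv (algebraMap k[X] K a) (algebraMap k[X] K b)) (Sep F)}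
    (hc : IsTC (crv (algebraMap k[X] K a) (algebraMap k[X] K b)) c)
    (hi : IsInv (crv (algebraMap k[X] K a) (algebraMap k[X] K b)) c)
    (hl : LocTriv (crv (algebraMap k[X] K a) (algebraMap k[X] K b)) L (Sep L) (c 2))
    {a0 a1 : F} (hrep : Rep (crv (algebraMap k[X] K a) (algebraMap k[X] K b))
      (algebraMap k[X] K a) (c 1) a0 a1)
    {i : Fin 3} {t : Sep F} {u : K} (ht2 : t ^ 2 = algebraMap K (Sep F) u)
    {s : k' ≃ₐ[k] k'} {η : ℤˣ} (hη : ∀ τ : Sep F ≃ₐ[K] Sep F, Lifts s τ →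
      PsiRel (crv (algebraMap k[X] K a) (algebraMap k[X] K b)) (algebraMap k[X] K a) c i t τ η)
    {γ : L ≃+* L} (hγ : ∀ x : F, γ (algebraMap F L x) = algebraMap F L (es F (s : k' ≃+* k') x))
    (S : Set (Pt (crv (algebraMap k[X] K a) (algebraMap k[X] K b)) K))
    (hS : ∀ T ∈ S, T + T = 0)
    (hdiv : ∀ Q : Pt (crv (algebraMap k[X] K a) (algebraMap k[X] K b)) L,
      ∃ Q' : Pt (crv (algebraMap k[X] K a) (algebraMap k[X] K b)) L,
      ∃ T ∈ S, Q = Q' + Q' + act (crv (algebraMap k[X] K a) (algebraMap k[X] K b))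
        (incl K K L) T)
    (hsg : ∀ V : Pt (crv (algebraMap k[X] K a) (algebraMap k[X] K b)) L,
      (V + V) + (V + V) = 0 →
        sg i (algebraMap K L (algebraMap k[X] K a)) (V + V) = 1) :
    ∃ T ∈ S, (∀ q w : K, q ≠ 0 →
      dd i (algebraMap k[X] K a) (algebraMap k[X] K b) T * u = q ^ 2 * w →
      (∃ z : L, algebraMap K L w = z ^ 2) →
        ∃ z : L, z ^ 2 = algebraMap K L w ∧ γ z = ((η : ℤ) : L) * z) ∧
      ∃ c0 c1 : L, c0 ≠ 0 ∧ c1 ≠ 0 ∧
        algebraMap F L a0 = c0 ^ 2 * algebraMap K L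
          (d0 (algebraMap k[X] K a) (algebraMap k[X] K b) T) ∧
        algebraMap F L a1 = c1 ^ 2 * algebraMap K L
          (d1 (algebraMap k[X] K a) (algebraMap k[X] K b) T) := by
  haveI := hT.sep
  haveI := hT.fracK
  have h2K : (2 : K) ≠ 0 := tt h2
  have inj := IsFractionRing.injective k[X] K
  have haK : algebraMap k[X] K a ≠ 0 := by simpa using ha
  have hbK : algebraMap k[X] K b ≠ 0 := by simpa using hb
  have habK : algebraMap k[X] K a ≠ algebraMap k[X] K b := fun h => hab (inj h)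
  haveI : IsSepClosure K (Sep F) := sepKΩ hT.map
  haveI : Normal K (Sep F) := inferInstance
  have hL' := isE (algebraMap k[X] K a) (algebraMap k[X] K b) (Sep L) h2K haK hbK habK
  obtain ⟨ι, P, hP⟩ := hl
  have hγK : ∀ x : K, γ (algebraMap K L x) = algebraMap K _ x := by
    intro x
    rw [IsScalarTower.algebraMap_apply K F L, hγ, es_K hT]
  obtain ⟨G0, hG0⟩ := exists_G γ
  let γK : L ≃ₐ[K] L := AlgEquiv.ofRingEquiv (f := γ) hγK
  let G : Sep L ≃ₐ[K] Sep L :=
    AlgEquiv.ofRingEquiv (f := G0) (by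
      intro x
      rw [IsScalarTower.algebraMap_apply K L (Sep L), hG0, hγK])
  have hG : ∀ x, G (algebraMap _ (Sep L) x) = algebraMap _ (Sep L) (γK.toAlgHom x) := hG0
  obtain ⟨g, hg⟩ := exists_g ι G
  have hlift : Lifts s g := by
    intro p
    apply (ι : Sep F →+* Sep L).injective
    show ι (g _) = ι _
    rw [hg, ι.commutes, ι.commutes, IsScalarTower.algebraMap_apply F L (Sep L),
      IsScalarTower.algebraMap_apply F L (Sep L), hG]
    congr 1
    show γ _ = _
    rw [hγ, es_poly]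
    rfl
  obtain ⟨R, hR⟩ := Xi.exist hT h2 ha hb hab hco hsep hodd hc hi g
  have hpsi := hη g hlift R hR
  obtain ⟨T, hTS, ⟨y, y0, y2, hy⟩, Z, hZ, hZc⟩ := loc_step _ hL' i S hS hdiv hsg hG hg hc hP hR
  refine ⟨T, hTS, ?_, ?_⟩
  · intro q w hqK hqw hsq
    set sgn := sg i (algebraMap K (Sep F) (algebraMap k[X] K a)) (R + R) with hsgn
    have hsgn2 : ι sgn * ι sgn = 1 := by
      rw [← map_mul]
      rcases sg_sq i (algebraMap K (Sep F) (algebraMap k[X] K a)) (R + R) with h | h <;>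
        rw [hsgn, h] <;> simp
    have hGt : G (ι t) = ((η : ℤ) : Sep L) * ι sgn * ι t := by
      rw [← hg, hpsi, map_mul, map_mul, map_intCast]
    set qΩ := algebraMap K (Sep L) q with hqq
    have hqq0 : qΩ ≠ 0 := (_root_.map_ne_zero _).2 hqK
    set Y := y * ι t / qΩ with hY
    have hGY : G Y = ((η : ℤ) : Sep L) * Y := by
      rw [hY, map_div₀, map_mul, hy, hGt, hqq, G.commutes, ← hqq]
      have : ι sgn * y * (((η : ℤ) : Sep L) * ι sgn * ι t) =
        (ι sgn * ι sgn) * (((η : ℤ) : Sep L) * (y * ι t)) := by ring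
      rw [this, hsgn2, one_mul, mul_div_assoc]
    have hY2 : Y ^ 2 = algebraMap K (Sep L) w := by
      rw [hY, div_pow, mul_pow, y2, ← map_pow ι, ht2, div_eq_iff (pow_ne_zero 2 hqq0)]
      have e1 : ι (algebraMap K (Sep F) u) = algebraMap K (Sep L) u :=
        (ι.restrictScalars K).commutes _
      rw [e1, ← map_mul, hqw, hqq, ← map_pow, ← map_mul, mul_comm]
    obtain ⟨z, hz⟩ := hsq
    obtain ⟨z', hz', hYz⟩ : ∃ z' : L, z' ^ 2 = algebraMap K L w ∧ Y = algebraMap L (Sep L) z' := by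
      have e2 : Y ^ 2 = (algebraMap L (Sep L) z) ^ 2 := by
        rw [hY2, ← map_pow, ← hz, ← IsScalarTower.algebraMap_apply K L (Sep L)]
      rcases sq_eq_sq_iff_eq_or_eq_neg.1 e2 with h | h
      · exact ⟨z, hz.symm, h⟩
      · exact ⟨-z, by rw [neg_sq]; exact hz.symm, by rw [map_neg]; exact h⟩
    refine ⟨z', hz', ?_⟩
    apply (algebraMap L (Sep L)).injective
    refine (hG0 z').symm.trans ?_
    rw [← hYz]
    have e3 : G0 Y = G Y := rfl
    rw [e3, hGY, hYz]
    refine Eq.trans ?_ (map_mul (algebraMap L (Sep L)) _ _).symm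
    rw [map_intCast]
  · obtain ⟨t0, t1, n0, n1, e0, e1, k0, k1⟩ := hrep
    have hcomp : (incl K L (Sep L)).comp (incl K K L) = incl K K (Sep L) :=
      AlgHom.ext fun x => (IsScalarTower.algebraMap_apply K L _ x).symm
    have hQ : act (crv (algebraMap k[X] K a) (algebraMap k[X] K b))
        (incl K L (Sep L)) (act (crv (algebraMap k[X] K a) (algebraMap k[X] K b))
          (incl K K L) T) = Z + Z := by
      rw [act_act, hcomp, hZ]
    obtain ⟨c0, c1, m0, m1, w0, w1⟩ := loc_rep' _ hL' (c_one hc) hZc hQ n0 n1 e0 e1 k0 k1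
    obtain ⟨i0, i1⟩ := d_incl (L := L) T
    rw [i0] at w0
    rw [i1] at w1
    exact ⟨c0, c1, m0, m1, w0, w1⟩

include hT h2 ha hb hab hco hsep hodd in
/-- The character at the stabiliser of the place `θ`. -/
theorem loc_sign {c : ℕ → (Sep F ≃ₐ[F] Sep F) →
      Pt (crv (algebraMap k[X] K a) (algebraMap k[X] K b)) (Sep F)}
    (hc : IsTateClass k' (crv (algebraMap k[X] K a) (algebraMap k[X] K b)) c)
    {a0 a1 : F} (hrep : Rep (crv (algebraMap k[X] K a) (algebraMap k[X] K b))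
      (algebraMap k[X] K a) (c 1) a0 a1)
    {i : Fin 3} {t : Sep F} {u : k[X]}
    (ht2 : t ^ 2 = algebraMap K (Sep F) (algebraMap k[X] K u))
    {s : k' ≃ₐ[k] k'} {η : ℤˣ} (hη : ∀ τ : Sep F ≃ₐ[K] Sep F, Lifts s τ →
      PsiRel (crv (algebraMap k[X] K a) (algebraMap k[X] K b)) (algebraMap k[X] K a) c i t τ η)
    {θ : k'} (hs : s θ = θ)
    (S : Set (Pt (crv (algebraMap k[X] K a) (algebraMap k[X] K b)) K))
    (hS : ∀ T ∈ S, T + T = 0)
    (hdiv : ∀ Q : Pt (crv (algebraMap k[X] K a) (algebraMap k[X] K b)) (Comp k'[X] F (pl θ)),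
      ∃ Q' : Pt (crv (algebraMap k[X] K a) (algebraMap k[X] K b)) (Comp k'[X] F (pl θ)),
      ∃ T ∈ S, Q = Q' + Q' + act (crv (algebraMap k[X] K a) (algebraMap k[X] K b))
        (incl K K (Comp k'[X] F (pl θ))) T)
    (hsg : ∀ V : Pt (crv (algebraMap k[X] K a) (algebraMap k[X] K b)) (Comp k'[X] F (pl θ)),
      (V + V) + (V + V) = 0 →
        sg i (algebraMap K (Comp k'[X] F (pl θ)) (algebraMap k[X] K a)) (V + V) = 1) :
    ∃ T ∈ S, (∀ q w : k[X], q ≠ 0 →
      dd i (algebraMap k[X] K a) (algebraMap k[X] K b) T * algebraMap k[X] K u =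
        algebraMap k[X] K (q ^ 2 * w) → (w.map (algebraMap k k')).eval θ ≠ 0 →
      ∀ ω : k', ω ^ 2 = (w.map (algebraMap k k')).eval θ → s ω = ((η : ℤ) : k') * ω) ∧
      ∃ c0 c1 : Comp k'[X] F (pl θ), c0 ≠ 0 ∧ c1 ≠ 0 ∧
        algebraMap F (Comp k'[X] F (pl θ)) a0 = c0 ^ 2 * algebraMap K (Comp k'[X] F (pl θ))
          (d0 (algebraMap k[X] K a) (algebraMap k[X] K b) T) ∧
        algebraMap F (Comp k'[X] F (pl θ)) a1 = c1 ^ 2 * algebraMap K (Comp k'[X] F (pl θ))
          (d1 (algebraMap k[X] K a) (algebraMap k[X] K b) T) := by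
  haveI := hT.sep
  haveI := hT.fracK
  haveI : IsSepClosed k' := IsSepClosure.sep_closed k
  have h2' : (2 : k') ≠ 0 := by
    rw [← map_ofNat (algebraMap k k') 2]
    exact (_root_.map_ne_zero _).2 h2
  have inj := IsFractionRing.injective k[X] K
  obtain ⟨γ, hγ, hγw⟩ := comp_aut (pl θ) (es F (s : k' ≃+* k'))
    (es_val (F := F) θ (s : k' ≃+* k') hs)
  obtain ⟨T, hTS, h1, h3⟩ := loc_sign_gen hT h2 ha hb hab hco hsep hodd hc.tc hc.inv
    ((hc.loc 2).1 (pl θ)) hrep ht2 hη hγ S hS hdiv hsg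
  refine ⟨T, hTS, fun q w hq hqw hwθ ω hω => ?_, h3⟩
  have hqK : algebraMap k[X] K q ≠ 0 := by
    rw [Ne, map_eq_zero_iff _ inj]; exact hq
  have hx : algebraMap K (Comp k'[X] F (pl θ)) (algebraMap k[X] K w) =
      algebraMap F (Comp k'[X] F (pl θ)) (algebraMap k'[X] F (w.map (algebraMap k k'))) := by
    rw [IsScalarTower.algebraMap_apply K F (Comp k'[X] F (pl θ)), hT.map]
  have hw1 : wv (pl θ) (algebraMap K (Comp k'[X] F (pl θ)) (algebraMap k[X] K w)) = 1 := by
    rw [hx, wv_coe]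
    exact val_eq_one θ hwθ
  have hw0 : w ≠ 0 := by
    rintro rfl
    simp at hwθ
  have hwL0 : algebraMap K (Comp k'[X] F (pl θ)) (algebraMap k[X] K w) ≠ 0 := by
    rw [Ne, map_eq_zero_iff _ (algebraMap K (Comp k'[X] F (pl θ))).injective,
      map_eq_zero_iff _ inj]
    exact hw0
  obtain ⟨z, z0, hz⟩ := even_sq θ h2' hwL0 ⟨1, by rw [hw1, mul_one]⟩
  obtain ⟨z', hz', hγz⟩ := h1 (algebraMap k[X] K q) (algebraMap k[X] K w) hqK
    (by rw [hqw, map_mul, map_pow]) ⟨z, hz⟩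
  exact resid_sign θ (s : k' ≃+* k') hs hγ hγw hwθ (by rw [hz', hx])
    (cast_pm η) (by rw [hγz, map_intCast]) hω

end core

end Pool.Agent.TH115.GD
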