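import Pool.Agent.TH115.SD.Xi

/-!
The local step of the second descent.
-/

set_option autoImplicit false
set_option linter.all false

open WeierstrassCurve WeierstrassCurve.Affine
open scoped Classical

namespace Pool.Agent.TH115.GD

open Pool.Agent.W309.TD (locConst_apply exists_root compare)

universe u

section loc

variable {K F Ω L Ω' : Type u} [Field K] [Field F] [Field Ω] [Field L] [Field Ω']
  [Algebra K F] [Algebra F Ω] [Algebra K Ω] [IsScalarTower K F Ω] [IsGalois F Ω]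
  [Algebra K L] [Algebra F L] [IsScalarTower K F L]
  [Algebra L Ω'] [Algebra K Ω'] [Algebra F Ω'] [IsScalarTower K L Ω'] [IsScalarTower F L Ω']
  [IsScalarTower K F Ω'] [IsGalois L Ω']
  (W : WeierstrassCurve K) {a b : K}

/-- The points of the local trivialisation and of the relation of level two. -/
theorem loc_V {G : Ω' ≃ₐ[K] Ω'} {γ : L →ₐ[K] L}
    (hG : ∀ x : L, G (algebraMap L Ω' x) = algebraMap L Ω' (γ x))
    {ι : Ω →ₐ[F] Ω'} {g : Ω ≃ₐ[K] Ω} (hg : ∀ x, ι (g x) = G (ι x))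
    {c : ℕ → (Ω ≃ₐ[F] Ω) → Pt W Ω} {P : Pt W Ω'}
    (hP : ∀ (τ : Ω' ≃ₐ[L] Ω') (σ : Ω ≃ₐ[F] Ω), (∀ x, τ (ι x) = ι (σ x)) →
      act W (ι.restrictScalars K) (c 2 σ) = act W (rs K τ) P - P)
    {R : Pt W Ω} (hR : Xi W c g R) :
    ∃ V : Pt W L, act W (incl K L Ω') V =
      act W (ak G) P - P - act W (ι.restrictScalars K) R := by
  apply fixed_point (K := K) (F := L) W
  intro τ
  -- the conjugate automorphism
  obtain ⟨τ', hτ'⟩ : ∃ τ' : Ω' ≃ₐ[L] Ω', ∀ x, G (τ' x) = τ (G x) := by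
    let e : Ω' ≃+* Ω' := (G.toRingEquiv.trans τ.toRingEquiv).trans G.symm.toRingEquiv
    refine ⟨AlgEquiv.ofRingEquiv (f := e) ?_, ?_⟩
    · intro x
      show G.symm (τ (G (algebraMap L Ω' x))) = algebraMap L Ω' x
      rw [hG, τ.commutes, ← hG, AlgEquiv.symm_apply_apply]
    · intro x
      show G (G.symm (τ (G x))) = τ (G x)
      rw [AlgEquiv.apply_symm_apply]
  obtain ⟨σ, hσ⟩ := exists_restrict (F := F) (Ω := Ω) (L := L) (Ω' := Ω') ι τ
  obtain ⟨σ', hσ'⟩ := exists_restrict (F := F) (Ω := Ω) (L := L) (Ω' := Ω') ι τ'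
  have hconj : ∀ x, g (σ' x) = σ (g x) := by
    intro x
    apply (ι : Ω →+* Ω').injective
    show ι (g (σ' x)) = ι (σ (g x))
    rw [hg, ← hσ', hτ', ← hg, hσ]
  have e1 := hP τ σ hσ
  have e2 := congrArg (act W (ak G)) (hP τ' σ' hσ')
  have e3 := congrArg (act W (ι.restrictScalars K)) (hR.2 σ σ' hconj)
  have c1 : (ak G).comp (ι.restrictScalars K) = (ι.restrictScalars K).comp (ak g) :=
    AlgHom.ext fun x => (hg x).symm
  have c2 : (ak G).comp (rs K τ') = (rs K τ).comp (ak G) := AlgHom.ext fun x => hτ' x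
  have c3 : (ι.restrictScalars K).comp (rs K σ) = (rs K τ).comp (ι.restrictScalars K) :=
    AlgHom.ext fun x => (hσ x).symm
  rw [act_act, c1, map_sub, act_act, c2, ← act_act, ← act_act] at e2
  rw [map_sub, map_sub, act_act _ (rs K σ), c3, ← act_act, e2, e1] at e3
  rw [map_sub, map_sub]
  have : act W (rs K τ) (act W (ak G) P) - act W (rs K τ) P -
      act W (rs K τ) (act W (ι.restrictScalars K) R) =
      (act W (rs K τ) (act W (ak G) P) - act W (ak G) P - (act W (rs K τ) P - P)) -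
        (act W (rs K τ) (act W (ι.restrictScalars K) R) - act W (ι.restrictScalars K) R) +
        (act W (ak G) P - P - act W (ι.restrictScalars K) R) := by abel
  rw [this, e3]; abel

variable (hL' : IsE (W.baseChange Ω').toAffine (algebraMap K Ω' a) (algebraMap K Ω' b))

include hL'

/-- Comparison of the square roots attached to a cocycle with the coordinates of a local point. -/
theorem loc_rep' {f : (Ω ≃ₐ[F] Ω) → Pt W Ω} (hf2 : ∀ σ, f σ + f σ = 0)
    {ι : Ω →ₐ[F] Ω'} {P : Pt W Ω'} (hP : ∀ (τ : Ω' ≃ₐ[L] Ω') (σ : Ω ≃ₐ[F] Ω),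
      (∀ x, τ (ι x) = ι (σ x)) →
      act W (ι.restrictScalars K) (f σ) = act W (rs K τ) P - P)
    {Q : Pt W L} (hQ : act W (incl K L Ω') Q = P + P) {t0 t1 : Ω} {a0 a1 : F}
    (n0 : t0 ≠ 0) (n1 : t1 ≠ 0)
    (e0 : t0 ^ 2 = algebraMap F Ω a0) (e1 : t1 ^ 2 = algebraMap F Ω a1)
    (k0 : ∀ σ, σ t0 = s0 (f σ) * t0) (k1 : ∀ σ, σ t1 = s1 (algebraMap K Ω a) (f σ) * t1) :
    ∃ c0 c1 : L, c0 ≠ 0 ∧ c1 ≠ 0 ∧
      algebraMap F L a0 = c0 ^ 2 * d0 (algebraMap K L a) (algebraMap K L b) Q ∧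
      algebraMap F L a1 = c1 ^ 2 * d1 (algebraMap K L a) (algebraMap K L b) Q := by
  choose res hres using exists_restrict (F := F) (Ω := Ω) (L := L) (Ω' := Ω') ι
  set ι' : Ω →ₐ[K] Ω' := ι.restrictScalars K with hι'
  have hιx : ∀ x, ι' x = ι x := fun x => rfl
  have hT : ∀ τ : Ω' ≃ₐ[L] Ω', act W ι' (f (res τ)) = act W (rs K τ) P - P :=
    fun τ => hP τ (res τ) (hres τ)
  have hTT : ∀ τ : Ω' ≃ₐ[L] Ω', act W ι' (f (res τ)) + act W ι' (f (res τ)) = 0 :=
    fun τ => (two_act W ι' _).2 (hf2 _)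
  have hTP : ∀ τ : Ω' ≃ₐ[L] Ω', act W (rs K τ) P = P + act W ι' (f (res τ)) := by
    intro τ; rw [hT]; abel
  have hPP : ∀ τ : Ω' ≃ₐ[L] Ω', act W (rs K τ) (P + P) = P + P := by
    intro τ
    rw [map_add, hTP, add_add_add_comm, hTT, add_zero]
  have ga : incl K L Ω' (algebraMap K L a) = algebraMap K Ω' a :=
    (IsScalarTower.algebraMap_apply K L Ω' a).symm
  have gb : incl K L Ω' (algebraMap K L b) = algebraMap K Ω' b :=
    (IsScalarTower.algebraMap_apply K L Ω' b).symm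
  have hs : ∀ τ : Ω' ≃ₐ[L] Ω', act W (rs K τ) P - P = act W ι' (f (res τ)) := fun τ => (hT τ).symm
  have inj := (algebraMap L Ω').injective
  have m0 : ∀ τ : Ω' ≃ₐ[L] Ω', τ (h0 (algebraMap K Ω' a) (algebraMap K Ω' b) P) =
      s0 (act W ι' (f (res τ))) * h0 (algebraMap K Ω' a) (algebraMap K Ω' b) P := by
    intro τ
    rw [← hs]
    exact (sign_half W hL' hPP τ).2.1
  have m1 : ∀ τ : Ω' ≃ₐ[L] Ω', τ (h1 (algebraMap K Ω' a) (algebraMap K Ω' b) P) =
      s1 (algebraMap K Ω' a) (act W ι' (f (res τ))) *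
        h1 (algebraMap K Ω' a) (algebraMap K Ω' b) P := by
    intro τ
    rw [← hs]
    exact (sign_half W hL' hPP τ).2.2
  have l0 : ∀ τ : Ω' ≃ₐ[L] Ω', τ (ι t0) = s0 (act W ι' (f (res τ))) * ι t0 := by
    intro τ
    rw [hres τ t0, k0, map_mul, s0_act, hιx]
  have l1 : ∀ τ : Ω' ≃ₐ[L] Ω', τ (ι t1) =
      s1 (algebraMap K Ω' a) (act W ι' (f (res τ))) * ι t1 := by
    intro τ
    have h3 := s1_act W ι' (algebraMap K Ω a) (f (res τ))
    rw [ι'.commutes] at h3
    rw [hres τ t1, k1, map_mul, h3, hιx]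
  have ιn0 : ι t0 ≠ 0 := (map_ne_zero ι).2 n0
  have ιn1 : ι t1 ≠ 0 := (map_ne_zero ι).2 n1
  obtain ⟨c0, hc0, q0⟩ := compare (K := L) ιn0 (h0_ne hL' P) _ (fun τ => s0_ne _) l0 m0
  obtain ⟨c1, hc1, q1⟩ := compare (K := L) ιn1 (h1_ne hL' P) _ (fun τ => s1_ne _ _) l1 m1
  refine ⟨c0, c1, hc0, hc1, ?_, ?_⟩
  · apply inj
    have w1 : (ι t0) ^ 2 = algebraMap F Ω' a0 := by rw [← map_pow, e0, ι.commutes]
    rw [← IsScalarTower.algebraMap_apply F L Ω', ← w1, q0, mul_pow, h0_sq hL', ← hQ, ← ga, ← gb,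
      d0_act, map_mul, map_pow]
    rfl
  · apply inj
    have w1 : (ι t1) ^ 2 = algebraMap F Ω' a1 := by rw [← map_pow, e1, ι.commutes]
    rw [← IsScalarTower.algebraMap_apply F L Ω', ← w1, q1, mul_pow, h1_sq hL', ← hQ, ← ga, ← gb,
      d1_act, map_mul, map_pow]
    rfl

/-- **The local step.** -/
theorem loc_step [IsSepClosed Ω'] (i : Fin 3) (S : Set (Pt W K))
    (hS : ∀ T ∈ S, T + T = 0)
    (hdiv : ∀ Q : Pt W L, ∃ Q' : Pt W L, ∃ T ∈ S, Q = Q' + Q' + act W (incl K K L) T)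
    (hsg : ∀ V : Pt W L, (V + V) + (V + V) = 0 → sg i (algebraMap K L a) (V + V) = 1)
    {G : Ω' ≃ₐ[K] Ω'} {γ : L →ₐ[K] L}
    (hG : ∀ x : L, G (algebraMap L Ω' x) = algebraMap L Ω' (γ x))
    {ι : Ω →ₐ[F] Ω'} {g : Ω ≃ₐ[K] Ω} (hg : ∀ x, ι (g x) = G (ι x))
    {c : ℕ → (Ω ≃ₐ[F] Ω) → Pt W Ω} (hc : IsTC W c) {P : Pt W Ω'}
    (hP : ∀ (τ : Ω' ≃ₐ[L] Ω') (σ : Ω ≃ₐ[F] Ω), (∀ x, τ (ι x) = ι (σ x)) →
      act W (ι.restrictScalars K) (c 2 σ) = act W (rs K τ) P - P)
    {R : Pt W Ω} (hR : Xi W c g R) :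
    ∃ T ∈ S, (∃ y : Ω', y ≠ 0 ∧ y ^ 2 = algebraMap K Ω' (dd i a b T) ∧
      G y = ι (sg i (algebraMap K Ω a) (R + R)) * y) ∧
      ∃ Z : Pt W Ω', Z + Z = act W (incl K K Ω') T ∧ ∀ (τ : Ω' ≃ₐ[L] Ω') (σ : Ω ≃ₐ[F] Ω),
        (∀ x, τ (ι x) = ι (σ x)) →
        act W (ι.restrictScalars K) (c 1 σ) = act W (rs K τ) Z - Z := by
  obtain ⟨V0, hV0⟩ := loc_V W hG hg hP hR
  -- four times the point
  have h4 : ∀ τ : Ω' ≃ₐ[L] Ω', act W (rs K τ) ((P + P) + (P + P)) = (P + P) + (P + P) := by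
    intro τ
    obtain ⟨σ, hσ⟩ := exists_restrict (F := F) (Ω := Ω) (L := L) (Ω' := Ω') ι τ
    have e1 := hP τ σ hσ
    have e2 : (c 2 σ + c 2 σ) + (c 2 σ + c 2 σ) = 0 := by rw [c_two hc, c_one hc]
    have e3 := congrArg (act W (ι.restrictScalars K)) e2
    rw [map_add, map_add, e1, map_zero] at e3
    rw [map_add, map_add]
    rw [← sub_eq_zero, ← e3]
    abel
  obtain ⟨Q, hQ⟩ := fixed_point (K := K) (F := L) W _ h4
  obtain ⟨Q1, T, hTS, hQ1⟩ := hdiv Q
  obtain ⟨Q2, T', hTS', hQ2⟩ := hdiv Q1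
  have hT2 := hS T hTS
  have hT2' := hS T' hTS'
  have hT2L' : act W (incl K K L) T' + act W (incl K K L) T' = 0 := by
    rw [← map_add, hT2', map_zero]
  set q2 := act W (incl K L Ω') Q2 with hq2
  have hcomp : (incl K L Ω').comp (incl K K L) = incl K K Ω' :=
    AlgHom.ext fun x => (IsScalarTower.algebraMap_apply K L Ω' x).symm
  have hQ4 : (P + P) + (P + P) = (q2 + q2) + (q2 + q2) + act W (incl K K Ω') T := by
    rw [← hQ, hQ1, hQ2, hq2, ← hcomp, ← act_act]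
    simp only [map_add]
    have e := congrArg (act W (incl K L Ω')) hT2L'
    rw [map_add, map_zero] at e
    have : act W (incl K L Ω') Q2 + act W (incl K L Ω') Q2 +
        act W (incl K L Ω') (act W (incl K K L) T') +
        (act W (incl K L Ω') Q2 + act W (incl K L Ω') Q2 +
          act W (incl K L Ω') (act W (incl K K L) T')) =
        (act W (incl K L Ω') Q2 + act W (incl K L Ω') Q2) +
        (act W (incl K L Ω') Q2 + act W (incl K L Ω') Q2) +
        (act W (incl K L Ω') (act W (incl K K L) T') +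
        act W (incl K L Ω') (act W (incl K K L) T')) := by abel
    rw [this, e, add_zero]
  set P' := P - q2 with hP'
  set Z := P' + P' with hZ
  have hZZ : Z + Z = act W (incl K K Ω') T := by
    rw [hZ, hP']
    have : P - q2 + (P - q2) + (P - q2 + (P - q2)) =
      ((P + P) + (P + P)) - ((q2 + q2) + (q2 + q2)) := by abel
    rw [this, hQ4]; abel
  have PK : ∀ φ : Ω' →ₐ[K] Ω', act W φ (act W (incl K K Ω') T) = act W (incl K K Ω') T := by
    intro φ
    have h1 : φ.comp (incl K K Ω') = incl K K Ω' := AlgHom.ext fun x => φ.commutes x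
    rw [act_act, h1]
  have hGq : act W (ak G) q2 = act W (incl K L Ω') (act W γ Q2) := by
    have h1 : (ak G).comp (incl K L Ω') = (incl K L Ω').comp γ := AlgHom.ext fun x => hG x
    rw [hq2, act_act, act_act, h1]
  set V := V0 - (act W γ Q2 - Q2) with hV
  set r := act W (ι.restrictScalars K) R with hr
  have hVi : act W (incl K L Ω') V = act W (ak G) P' - P' - r := by
    rw [hV, map_sub, map_sub, hV0, ← hGq, hP', map_sub]
    abel
  have hr4 : (r + r) + (r + r) = 0 := by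
    rw [hr, ← map_add, ← map_add, hR.1, map_zero]
  have hV4 : (V + V) + (V + V) = 0 := by
    apply act_inj W (incl K L Ω')
    rw [map_add, map_add, hVi, map_zero]
    have : act W (ak G) P' - P' - r + (act W (ak G) P' - P' - r) +
        (act W (ak G) P' - P' - r + (act W (ak G) P' - P' - r)) =
        act W (ak G) (Z + Z) - (Z + Z) - ((r + r) + (r + r)) := by
      rw [hZ]; simp only [map_add]; abel
    rw [this, hr4, hZZ, PK, sub_self, sub_zero]
  have hsV := hsg V hV4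
  set T2 := act W (ak G) Z - Z with hT2def
  have hT22 : T2 + T2 = 0 := by
    rw [hT2def]
    have : act W (ak G) Z - Z + (act W (ak G) Z - Z) =
      act W (ak G) (Z + Z) - (Z + Z) := by rw [map_add (act W (ak G)) Z Z]; abel
    rw [this, hZZ, PK, sub_self]
  have hVV : act W (incl K L Ω') (V + V) = T2 + (r + r) := by
    rw [map_add, hVi, hT2def, hZ, map_add]
    have e5 : r + r = - (r + r) := by
      rw [eq_neg_iff_add_eq_zero]; exact hr4
    rw [e5]
    abel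
  have hsum : sg i (algebraMap K Ω' a) T2 * sg i (algebraMap K Ω' a) (r + r) = 1 := by
    rw [← sg_add W hL' i hT22 hr4, ← hVV]
    have ga : incl K L Ω' (algebraMap K L a) = algebraMap K Ω' a :=
      (IsScalarTower.algebraMap_apply K L Ω' a).symm
    rw [← ga, sg_act, hsV, map_one]
  have hrr : sg i (algebraMap K Ω' a) (r + r) = ι (sg i (algebraMap K Ω a) (R + R)) := by
    have h1 : r + r = act W (ι.restrictScalars K) (R + R) := by rw [hr, map_add]
    have h3 := sg_act W i (ι.restrictScalars K) (algebraMap K Ω a) (R + R)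
    rw [(ι.restrictScalars K).commutes] at h3
    rw [h1, h3]
    rfl
  have hT2r : sg i (algebraMap K Ω' a) T2 = ι (sg i (algebraMap K Ω a) (R + R)) := by
    rw [← hrr]
    rcases sg_sq i (algebraMap K Ω' a) T2 with h | h <;>
      rcases sg_sq i (algebraMap K Ω' a) (r + r) with h' | h' <;> rw [h, h'] at hsum ⊢
    · rw [one_mul] at hsum; exact hsum.symm
    · rw [mul_one] at hsum; exact hsum
  refine ⟨T, hTS, ⟨hh i (algebraMap K Ω' a) (algebraMap K Ω' b) Z, hh_ne hL' i Z, ?_, ?_⟩,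
    Z, hZZ, ?_⟩
  · rw [hh_sq hL', hZZ]
    exact dd_act W i (incl K K Ω') a b T
  · have h1 := hh_act W i (ak G) (algebraMap K Ω' a) (algebraMap K Ω' b) Z
    rw [(ak G).commutes, (ak G).commutes] at h1
    have h3 : act W (ak G) Z = Z + T2 := by rw [hT2def]; abel
    have h5 : Z + Z = 0 → T2 = 0 := by
      intro h6
      rw [hT2def, act_tor W hL' _ h6, sub_self]
    rw [h3, hh_translate hL' i hT22 h5, hT2r] at h1
    exact h1.symm
  · intro τ σ hσ
    have e1 := hP τ σ hσ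
    have e2 : act W (rs K τ) q2 = q2 := rs_act_incl W τ Q2
    rw [← c_two hc, map_add, e1, hZ, hP']
    simp only [map_add, map_sub, e2]
    abel

end loc

end Pool.Agent.TH115.GD
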