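import Pool.Agent.TH115.SD.Cpl
import Pool.Agent.TH115.GD.Gen2

/-!
The completion of `k'(t)` at the place `t = θ`: squares and residues.
-/

set_option autoImplicit false
set_option linter.all false

open Polynomial IsDedekindDomain
open scoped Classical

namespace Pool.Agent.TH115.GD

section

variable {k' F : Type} [Field k'] [Field F] [Algebra k'[X] F] [IsFractionRing k'[X] F] (θ : k')

theorem val_eq_one {p : k'[X]} (hp : p.eval θ ≠ 0) :
    (pl θ).valuation F (algebraMap k'[X] F p) = 1 := by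
  rw [(pl θ).valuation_of_algebraMap, HeightOneSpectrum.intValuation_eq_one_iff, mem_pl]
  exact hp

theorem val_lt_one {p : k'[X]} (hp : p.eval θ = 0) :
    (pl θ).valuation F (algebraMap k'[X] F p) < 1 := by
  rw [HeightOneSpectrum.valuation_lt_one_iff_mem, mem_pl]
  exact hp

theorem val_cst {c : k'} (hc : c ≠ 0) : (pl θ).valuation F (cst k' F c) = 1 := by
  apply val_eq_one
  rw [eval_C]; exact hc

theorem cst_lt {c : k'} (hc : (pl θ).valuation F (cst k' F c) < 1) : c = 0 := by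
  by_contra h
  rw [val_cst θ h] at hc
  exact lt_irrefl _ hc

/-- Residues of the elements of the field. -/
theorem res_F {f : F} (hf : (pl θ).valuation F f ≤ 1) :
    ∃ c : k', (pl θ).valuation F (f - cst k' F c) < 1 := by
  by_cases h0 : f = 0
  · exact ⟨0, by rw [h0, map_zero, sub_zero, map_zero]; exact zero_lt_one⟩
  obtain ⟨n, d, hd, rfl⟩ := IsFractionRing.div_surjective (A := k'[X]) f
  have hd0 : d ≠ 0 := nonZeroDivisors.ne_zero hd
  have hn0 : n ≠ 0 := by
    rintro rfl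
    simp at h0
  obtain ⟨n', hn, hn'⟩ := exists_eq_pow_rootMultiplicity_mul_and_not_dvd n hn0 θ
  obtain ⟨d', hdd, hd'⟩ := exists_eq_pow_rootMultiplicity_mul_and_not_dvd d hd0 θ
  rw [dvd_iff_isRoot, IsRoot.def] at hn' hd'
  have hle : rootMultiplicity θ d ≤ rootMultiplicity θ n := by
    rw [map_div₀, val_poly θ hn0, val_poly θ hd0] at hf
    have h3 : (WithZero.exp (-(rootMultiplicity θ d : ℤ)) : WithZero (Multiplicative ℤ)) ≠ 0 :=
      WithZero.exp_ne_zero
    rw [div_le_one₀ (zero_lt_iff.2 h3), WithZero.exp_le_exp] at hf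
    omega
  set m := rootMultiplicity θ d with hm
  obtain ⟨j, hj⟩ := Nat.exists_eq_add_of_le hle
  obtain ⟨q, hn2⟩ : ∃ q : k'[X], n = (X - C θ) ^ m * q := by
    refine ⟨(X - C θ) ^ j * n', ?_⟩
    rw [← mul_assoc, ← pow_add, ← hj]
    exact hn
  have hdF : algebraMap k'[X] F d' ≠ 0 := by
    rw [Ne, map_eq_zero_iff _ (IsFractionRing.injective k'[X] F)]
    rintro rfl
    simp at hd'
  have hXF : algebraMap k'[X] F ((X - C θ) ^ m) ≠ 0 := by
    rw [Ne, map_eq_zero_iff _ (IsFractionRing.injective k'[X] F)]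
    exact pow_ne_zero _ (X_sub_C_ne_zero θ)
  have hfe : algebraMap k'[X] F n / algebraMap k'[X] F d =
      algebraMap k'[X] F q / algebraMap k'[X] F d' := by
    rw [hn2, hdd, map_mul, map_mul, mul_div_mul_left _ _ hXF]
  refine ⟨q.eval θ / d'.eval θ, ?_⟩
  rw [hfe]
  have e : algebraMap k'[X] F q / algebraMap k'[X] F d' - cst k' F (q.eval θ / d'.eval θ) =
      algebraMap k'[X] F (q - C (q.eval θ / d'.eval θ) * d') / algebraMap k'[X] F d' := by
    rw [map_sub, map_mul]
    have : cst k' F (q.eval θ / d'.eval θ) = algebraMap k'[X] F (C (q.eval θ / d'.eval θ)) := rfl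
    rw [this]
    field_simp
  rw [e, map_div₀, val_eq_one θ hd', div_one]
  apply val_lt_one
  rw [eval_sub, eval_mul, eval_C, div_mul_cancel₀ _ hd', sub_self]

/-- The constants in the completion. -/
noncomputable def cL (θ : k') (F : Type) [Field F] [Algebra k'[X] F] [IsFractionRing k'[X] F] :
    k' →+* Comp k'[X] F (pl θ) :=
  (algebraMap F (Comp k'[X] F (pl θ))).comp (cst k' F)

theorem wv_cL {c : k'} (hc : c ≠ 0) : wv (pl θ) (cL θ F c) = 1 := by
  show wv (pl θ) (algebraMap F _ (cst k' F c)) = 1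
  rw [wv_coe, val_cst θ hc]

theorem cL_lt {c : k'} (hc : wv (pl θ) (cL θ F c) < 1) : c = 0 := by
  by_contra h
  rw [wv_cL θ h] at hc
  exact lt_irrefl _ hc

/-- Residues of the elements of the completion. -/
theorem res_L {x : Comp k'[X] F (pl θ)} (hx : wv (pl θ) x ≤ 1) :
    ∃ c : k', wv (pl θ) (x - cL θ F c) < 1 := by
  obtain ⟨f, hf⟩ := dense_F (pl θ) x (one_ne_zero : (1 : F) ≠ 0)
  rw [map_one] at hf
  have h1 : (pl θ).valuation F f ≤ 1 := by
    rw [← wv_coe]
    have e : algebraMap F (Comp k'[X] F (pl θ)) f = x - (x - algebraMap F _ f) := by ring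
    rw [e]
    exact (Valuation.map_sub _ _ _).trans (max_le hx hf.le)
  obtain ⟨c, hc⟩ := res_F θ h1
  refine ⟨c, ?_⟩
  have e : x - cL θ F c = (x - algebraMap F _ f) + algebraMap F _ (f - cst k' F c) := by
    rw [map_sub]
    show x - algebraMap F _ (cst k' F c) = _
    ring
  rw [e]
  refine Valuation.map_add_lt _ hf ?_
  rw [wv_coe]
  exact hc

/-- Elements of even valuation are squares. -/
theorem even_sq [IsSepClosed k'] (h2 : (2 : k') ≠ 0) {x : Comp k'[X] F (pl θ)} (hx : x ≠ 0)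
    (hs : IsSquare (wv (pl θ) x)) : ∃ z, z ≠ 0 ∧ x = z ^ 2 := by
  obtain ⟨s, hs⟩ := hs
  have hs0 : s ≠ 0 := by
    rintro rfl
    rw [mul_zero, Valuation.zero_iff] at hs
    exact hx hs
  obtain ⟨g, hg⟩ := (pl θ).valuation_surjective F s
  have hg0 : g ≠ 0 := by
    rintro rfl
    rw [map_zero] at hg
    exact hs0 hg.symm
  set G := algebraMap F (Comp k'[X] F (pl θ)) g with hG
  have hG0 : G ≠ 0 := (_root_.map_ne_zero _).2 hg0
  have hwG : wv (pl θ) G = s := by rw [hG, wv_coe, hg]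
  have hu : wv (pl θ) (x / G ^ 2) = 1 := by
    rw [map_div₀, map_pow, hwG, hs, pow_two, div_self (mul_ne_zero hs0 hs0)]
  obtain ⟨c, hc⟩ := res_L θ hu.le
  have hc0 : c ≠ 0 := by
    rintro rfl
    rw [map_zero, sub_zero, hu] at hc
    exact lt_irrefl _ hc
  haveI : NeZero ((2 : ℕ) : k') := ⟨by exact_mod_cast h2⟩
  obtain ⟨r, hr⟩ := IsSepClosed.exists_pow_nat_eq c 2
  have hr0 : r ≠ 0 := by
    rintro rfl
    rw [zero_pow two_ne_zero] at hr
    exact hc0 hr.symm
  have hcL0 : cL θ F c ≠ 0 := (_root_.map_ne_zero _).2 hc0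
  have hrL0 : cL θ F r ≠ 0 := (_root_.map_ne_zero _).2 hr0
  have hv2 : (pl θ).valuation F 2 = 1 := by
    have h3 := val_cst (F := F) θ h2
    rwa [map_ofNat] at h3
  obtain ⟨z, hz, hz1⟩ := sqrt_one (F := F) (pl θ) hv2 (x / G ^ 2 / cL θ F c) (by
    have e : x / G ^ 2 / cL θ F c - 1 = (x / G ^ 2 - cL θ F c) / cL θ F c := by
      field_simp
    rw [e, map_div₀, wv_cL θ hc0, div_one]
    exact hc)
  have hxe : x = (z * G * cL θ F r) ^ 2 := by
    have e1 : cL θ F r ^ 2 = cL θ F c := by rw [← map_pow, hr]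
    have e2 : (z * G * cL θ F r) ^ 2 = z ^ 2 * G ^ 2 * cL θ F r ^ 2 := by ring
    rw [e2, e1, hz]
    field_simp
  refine ⟨z * G * cL θ F r, ?_, hxe⟩
  rintro h
  rw [h, zero_pow two_ne_zero] at hxe
  exact hx hxe

/-- The automorphism of `k'(t)` given by an automorphism of `k'`. -/
noncomputable def es (F : Type) [Field F] [Algebra k'[X] F] [IsFractionRing k'[X] F]
    (s : k' ≃+* k') : F ≃+* F :=
  IsFractionRing.ringEquivOfRingEquiv (A := k'[X]) (B := k'[X]) (Polynomial.mapEquiv s)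

theorem es_poly (s : k' ≃+* k') (p : k'[X]) :
    es F s (algebraMap k'[X] F p) = algebraMap k'[X] F (p.map (s : k' →+* k')) :=
  IsFractionRing.ringEquivOfRingEquiv_algebraMap _ p

theorem es_cst (s : k' ≃+* k') (c : k') : es F s (cst k' F c) = cst k' F (s c) := by
  show es F s (algebraMap k'[X] F (C c)) = algebraMap k'[X] F (C (s c))
  rw [es_poly, map_C]
  rfl

theorem es_val (s : k' ≃+* k') (hs : s θ = θ) (x : F) :
    (pl θ).valuation F (es F s x) = (pl θ).valuation F x := by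
  have hinj : Function.Injective (s : k' →+* k') := s.injective
  have key : ∀ p : k'[X], p ≠ 0 →
      (pl θ).valuation F (algebraMap k'[X] F (p.map (s : k' →+* k'))) =
      (pl θ).valuation F (algebraMap k'[X] F p) := by
    intro p hp
    rw [val_poly θ ((Polynomial.map_ne_zero_iff hinj).2 hp), val_poly θ hp]
    have h1 := eq_rootMultiplicity_map (p := p) hinj θ
    have h3 : (s : k' →+* k') θ = θ := hs
    rw [h3] at h1
    rw [h1]
  obtain ⟨n, d, hd, rfl⟩ := IsFractionRing.div_surjective (A := k'[X]) x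
  have hd0 : d ≠ 0 := nonZeroDivisors.ne_zero hd
  rw [map_div₀, es_poly, es_poly, map_div₀, map_div₀, key d hd0]
  by_cases hn : n = 0
  · rw [hn]; simp
  · rw [key n hn]

/-- Comparison of signs with those of the residues. -/
theorem resid_sign (s : k' ≃+* k') (hs : s θ = θ)
    {γ : Comp k'[X] F (pl θ) ≃+* Comp k'[X] F (pl θ)}
    (hγ : ∀ x : F, γ (algebraMap F _ x) = algebraMap F _ (es F s x))
    (hγw : ∀ x, wv (pl θ) (γ x) = wv (pl θ) x) {p : k'[X]} (hp : p.eval θ ≠ 0)
    {y : Comp k'[X] F (pl θ)} (hy : y ^ 2 = algebraMap F _ (algebraMap k'[X] F p)) {η : k'}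
    (hη : η = 1 ∨ η = -1) (hγy : γ y = cL θ F η * y) {ω : k'} (hω : ω ^ 2 = p.eval θ) :
    s ω = η * ω := by
  have hγc : ∀ c : k', γ (cL θ F c) = cL θ F (s c) := by
    intro c
    show γ (algebraMap F _ (cst k' F c)) = algebraMap F _ (cst k' F (s c))
    rw [hγ, es_cst]
  have hwη : wv (pl θ) (cL θ F η) = 1 := by
    apply wv_cL
    rcases hη with h | h <;> rw [h] <;> simp
  -- `y` is congruent to `ω` or to `- ω`
  have h1 : wv (pl θ) ((y - cL θ F ω) * (y + cL θ F ω)) < 1 := by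
    have e : (y - cL θ F ω) * (y + cL θ F ω) =
        algebraMap F _ (algebraMap k'[X] F (p - C (p.eval θ))) := by
      rw [map_sub, map_sub, ← hy]
      have : algebraMap F (Comp k'[X] F (pl θ)) (algebraMap k'[X] F (C (p.eval θ))) =
        cL θ F ω ^ 2 := by
        rw [← hω, ← map_pow]; rfl
      rw [this]; ring
    rw [e, wv_coe]
    apply val_lt_one
    rw [eval_sub, eval_C, sub_self]
  obtain ⟨ε, hε, h3⟩ : ∃ ε : k', (ε = 1 ∨ ε = -1) ∧ wv (pl θ) (y - cL θ F (ε * ω)) < 1 := by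
    rw [map_mul] at h1
    by_cases h4 : wv (pl θ) (y - cL θ F ω) < 1
    · exact ⟨1, Or.inl rfl, by rw [one_mul]; exact h4⟩
    · refine ⟨-1, Or.inr rfl, ?_⟩
      rw [neg_one_mul, map_neg, sub_neg_eq_add]
      by_contra h5
      rw [not_lt] at h4 h5
      exact absurd (lt_of_le_of_lt (one_le_mul h4 h5) h1) (lt_irrefl _)
  have h4 : wv (pl θ) (cL θ F η * y - cL θ F (s (ε * ω))) < 1 := by
    rw [← hγy, ← hγc, ← map_sub, hγw]
    exact h3
  have h5 : wv (pl θ) (cL θ F η * y - cL θ F η * cL θ F (ε * ω)) < 1 := by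
    rw [← mul_sub, map_mul, hwη, one_mul]
    exact h3
  have h6 : wv (pl θ) (cL θ F (s (ε * ω) - η * (ε * ω))) < 1 := by
    have e : cL θ F (s (ε * ω) - η * (ε * ω)) =
        (cL θ F η * y - cL θ F η * cL θ F (ε * ω)) - (cL θ F η * y - cL θ F (s (ε * ω))) := by
      rw [map_sub, map_mul (cL θ F) η]; ring
    rw [e]
    exact lt_of_le_of_lt (Valuation.map_sub _ _ _) (max_lt h5 h4)
  have h7 := cL_lt θ h6
  rcases hε with rfl | rfl
  · rw [one_mul] at h7
    linear_combination h7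
  · rw [neg_one_mul, map_neg] at h7
    linear_combination -h7

end

end Pool.Agent.TH115.GD
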