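import Pool.Agent.TH115.SD.LocHyp
import Pool.Agent.TH115.SD.Lift
import Pool.Agent.TH115.SD.Resid

/-!
The quadratic character of the Galois group of the constants attached to a fixed class.
-/

set_option autoImplicit false
set_option linter.all false

open Polynomial IsDedekindDomain WeierstrassCurve WeierstrassCurve.Affine
open scoped Classical

namespace Pool.Agent.TH115.GD

universe u

section gen

variable {K F Ω : Type u} [Field K] [Field F] [Field Ω] [Algebra K F] [Algebra F Ω] [Algebra K Ω]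
  [IsScalarTower K F Ω] [IsGalois F Ω] [IsSepClosed Ω]
  (W : WeierstrassCurve K) {a b : K}

/-- The sign `η` compares the action of `τ` on `t` with the extension of the reduction modulo two. -/
def PsiRel (W : WeierstrassCurve K) (a : K) (c : ℕ → (Ω ≃ₐ[F] Ω) → Pt W Ω) (i : Fin 3) (t : Ω)
    (τ : Ω ≃ₐ[K] Ω) (η : ℤˣ) : Prop :=
  ∀ R, Xi W c τ R → τ t = ((η : ℤ) : Ω) * sg i (algebraMap K Ω a) (R + R) * t

variable (hL : IsE (W.baseChange Ω).toAffine (algebraMap K Ω a) (algebraMap K Ω b))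
  (hN : Preserves K F Ω) (hF : NoFour W F) {c : ℕ → (Ω ≃ₐ[F] Ω) → Pt W Ω} {i : Fin 3} {t : Ω}

theorem cast_pm (η : ℤˣ) : ((η : ℤ) : Ω) = 1 ∨ ((η : ℤ) : Ω) = -1 := by
  rcases Int.units_eq_one_or η with h | h <;> rw [h] <;> simp

include hN hF in
theorem PsiRel.exist (τ : Ω ≃ₐ[K] Ω) {R₀ : Pt W Ω} (hR₀ : Xi W c τ R₀) {d : K}
    (ht : t ^ 2 = algebraMap K Ω d) : ∃ η : ℤˣ, PsiRel W a c i t τ η := by
  have h1 : τ t = t ∨ τ t = -t := by
    apply sq_eq_sq_iff_eq_or_eq_neg.1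
    rw [← map_pow, ht, τ.commutes]
  have key : ∀ η : ℤˣ, τ t = ((η : ℤ) : Ω) * sg i (algebraMap K Ω a) (R₀ + R₀) * t →
      PsiRel W a c i t τ η := by
    intro η h R hR
    rw [hR.unique hN hF hR₀]
    exact h
  rcases h1 with h | h <;> rcases sg_sq i (algebraMap K Ω a) (R₀ + R₀) with h' | h'
  · exact ⟨1, key 1 (by rw [h, h']; simp)⟩
  · exact ⟨-1, key (-1) (by rw [h, h']; simp)⟩
  · exact ⟨-1, key (-1) (by rw [h, h']; simp)⟩
  · exact ⟨1, key 1 (by rw [h, h']; simp)⟩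

include hL in
theorem PsiRel.unique {τ : Ω ≃ₐ[K] Ω} {R₀ : Pt W Ω} (hR₀ : Xi W c τ R₀) (ht : t ≠ 0)
    {η η' : ℤˣ} (h : PsiRel W a c i t τ η) (h' : PsiRel W a c i t τ η') : η = η' := by
  have e := (h R₀ hR₀).symm.trans (h' R₀ hR₀)
  have e1 := mul_right_cancel₀ (sg_ne i _ _) (mul_right_cancel₀ ht e)
  have h11 : (1 : Ω) ≠ -1 := by
    intro h'
    exact hL.two (by linear_combination h')
  rcases Int.units_eq_one_or η with h | h <;> rcases Int.units_eq_one_or η' with h' | h' <;>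
    rw [h, h'] at e1 ⊢
  · exfalso; apply h11; simpa using e1
  · exfalso; apply h11; simpa using e1.symm

include hL hN in
theorem PsiRel.mul {τ τ' : Ω ≃ₐ[K] Ω} {R R' : Pt W Ω} (hF : NoFour W F) (hR : Xi W c τ R)
    (hR' : Xi W c τ' R') {η η' : ℤˣ} (h : PsiRel W a c i t τ η) (h' : PsiRel W a c i t τ' η') :
    PsiRel W a c i t (τ * τ') (η * η') := by
  intro R'' hR''
  have h1 := hR.mul hN hR'
  rw [hR''.unique hN hF h1]
  have h3 : act W (ak τ) R' + R + (act W (ak τ) R' + R) =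
      act W (ak τ) (R' + R') + (R + R) := by rw [map_add]; abel
  have h4 : act W (ak τ) (R' + R') = R' + R' := act_tor W hL _ hR'.1
  rw [h3, h4, sg_add W hL i hR'.1 hR.1, AlgEquiv.mul_apply, h' R' hR', map_mul, map_mul, h R hR,
    map_intCast]
  have h5 : τ (sg i (algebraMap K Ω a) (R' + R')) = sg i (algebraMap K Ω a) (R' + R') := by
    rcases sg_sq i (algebraMap K Ω a) (R' + R') with h | h <;> rw [h] <;> simp
  rw [h5]
  push_cast
  ring

include hL in
theorem PsiRel.base (hc : IsTC W c) (hF : NoFour W F) (hN : Preserves K F Ω) (ρ : Ω ≃ₐ[F] Ω)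
    (τ : Ω ≃ₐ[K] Ω) (hτ : ∀ x, τ x = ρ x)
    (ht : ∀ σ : Ω ≃ₐ[F] Ω, σ t = sg i (algebraMap K Ω a) (c 1 σ) * t) :
    PsiRel W a c i t τ 1 := by
  intro R hR
  have h1 := Xi.base hc ρ τ hτ
  rw [hR.unique hN hF h1, c_two hc, hτ, ht]
  simp

end gen

section core

variable {k k' K F : Type} [Field k] [Field k'] [Algebra k k'] [Field K] [Algebra k[X] K]
    [Field F] [Algebra k'[X] F] [IsFractionRing k'[X] F] [Algebra K F]

/-- `τ` is an extension of the automorphism of `k'(t)` given by `s`. -/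
def Lifts (s : k' ≃ₐ[k] k') (τ : Sep F ≃ₐ[K] Sep F) : Prop :=
  ∀ p : k'[X], τ (algebraMap F (Sep F) (algebraMap k'[X] F p)) =
    algebraMap F (Sep F) (algebraMap k'[X] F (p.map (s : k' →+* k')))

theorem Lifts.mul {s s' : k' ≃ₐ[k] k'} {τ τ' : Sep F ≃ₐ[K] Sep F} (h : Lifts s τ)
    (h' : Lifts s' τ') : Lifts (s * s') (τ * τ') := by
  intro p
  rw [AlgEquiv.mul_apply, h', h, Polynomial.map_map]
  rfl

theorem Lifts.diff {s : k' ≃ₐ[k] k'} {τ τ' : Sep F ≃ₐ[K] Sep F} (h : Lifts s τ)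
    (h' : Lifts s τ') : ∃ ρ : Sep F ≃ₐ[F] Sep F, ∀ x, (τ⁻¹ * τ') x = ρ x := by
  have h1 : ∀ p : k'[X], (τ⁻¹ * τ') (algebraMap F (Sep F) (algebraMap k'[X] F p)) =
      algebraMap F (Sep F) (algebraMap k'[X] F p) := by
    intro p
    rw [AlgEquiv.mul_apply, h', ← h]
    exact τ.symm_apply_apply _
  refine ⟨AlgEquiv.ofRingEquiv (f := (τ⁻¹ * τ').toRingEquiv) ?_, fun x => rfl⟩
  intro x
  obtain ⟨n, d, hd, rfl⟩ := IsFractionRing.div_surjective (A := k'[X]) x
  show (τ⁻¹ * τ') (algebraMap F (Sep F) (algebraMap k'[X] F n / algebraMap k'[X] F d)) = _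
  rw [map_div₀, map_div₀, h1, h1]

end core

end Pool.Agent.TH115.GD
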