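import Pool.Agent.TH115.GD.Gen2

/-!
Root multiplicities in the separable closure, and the definitions of the conditions of the second
descent.
-/

set_option autoImplicit false
set_option linter.all false

open Polynomial
open scoped Classical

namespace Pool.Agent.TH115.GD

section

variable {k k' : Type} [Field k] [Field k'] [Algebra k k'] [IsSepClosure k k']

theorem dvd_iff_aeval {θ : k'} {π p : k[X]} (hπ : Irreducible π) (hθ : aeval θ π = 0) :
    π ∣ p ↔ aeval θ p = 0 := by
  constructor
  · rintro ⟨q, rfl⟩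
    rw [map_mul, hθ, zero_mul]
  · intro h
    have h1 : minpoly k θ ∣ p := minpoly.dvd k θ h
    have h3 : minpoly k θ ∣ π := minpoly.dvd k θ hθ
    have hint : IsIntegral k θ := Algebra.IsSeparable.isIntegral k θ
    have h4 : Associated (minpoly k θ) π :=
      (minpoly.irreducible hint).associated_of_dvd hπ h3
    exact h4.symm.dvd.trans h1

/-- The roots of a squarefree polynomial are simple. -/
theorem mult_one {θ : k'} {A : k[X]} (hA : Squarefree A) (hθ : aeval θ A = 0) :
    rootMultiplicity θ (A.map (algebraMap k k')) = 1 := by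
  have hint : IsIntegral k θ := Algebra.IsSeparable.isIntegral k θ
  have hirr := minpoly.irreducible hint
  obtain ⟨A', hA'⟩ := minpoly.dvd k θ hθ
  have hA0 : A ≠ 0 := hA.ne_zero
  have hn : aeval θ A' ≠ 0 := by
    intro h
    obtain ⟨A'', hA''⟩ := minpoly.dvd k θ h
    apply hirr.not_isUnit
    apply hA
    exact ⟨A'', by rw [hA', hA'']; ring⟩
  have hsep : (minpoly k θ).Separable := Algebra.IsSeparable.isSeparable k θ
  have injk := (algebraMap k k').injective
  have hA0' : A.map (algebraMap k k') ≠ 0 := (Polynomial.map_ne_zero_iff injk).2 hA0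
  have h1 : rootMultiplicity θ ((minpoly k θ).map (algebraMap k k')) = 1 := by
    apply le_antisymm
    · exact rootMultiplicity_le_one_of_separable hsep.map θ
    · refine (rootMultiplicity_pos ((Polynomial.map_ne_zero_iff injk).2 hirr.ne_zero)).2 ?_
      rw [IsRoot.def, eval_map_algebraMap, minpoly.aeval]
  have h3 : rootMultiplicity θ (A'.map (algebraMap k k')) = 0 := by
    apply rootMultiplicity_eq_zero
    rw [IsRoot.def, eval_map_algebraMap]
    exact hn
  rw [hA', Polynomial.map_mul] at hA0' ⊢
  rw [rootMultiplicity_mul hA0', h1, h3]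

theorem mult_zero {θ : k'} {A : k[X]} (hθ : aeval θ A ≠ 0) :
    rootMultiplicity θ (A.map (algebraMap k k')) = 0 := by
  apply rootMultiplicity_eq_zero
  rw [IsRoot.def, eval_map_algebraMap]
  exact hθ

end

section defs

variable {k : Type} [Field k]

/-- `π` is an irreducible factor of odd multiplicity of `p`. -/
def OddFactor (π p : k[X]) : Prop :=
  Irreducible π ∧ ∃ m : ℕ, π ^ (2 * m + 1) ∣ p ∧ ¬ π ^ (2 * m + 2) ∣ p

/-- `u` is a square modulo `π`. -/
def SqMod (π u : k[X]) : Prop := ∃ z : k[X], π ∣ z ^ 2 - u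

end defs

section

variable {k k' : Type} [Field k] [Field k'] [Algebra k k'] [IsSepClosure k k']

theorem odd_of_factor {θ : k'} {π p : k[X]} (hp : p ≠ 0) (h : OddFactor π p)
    (hθ : aeval θ π = 0) : Odd (rootMultiplicity θ (p.map (algebraMap k k'))) := by
  obtain ⟨hπ, m, ⟨q, hq⟩, hnd⟩ := h
  have hq' : aeval θ q ≠ 0 := by
    rw [Ne, ← dvd_iff_aeval hπ hθ]
    rintro ⟨r, rfl⟩
    exact hnd ⟨r, by rw [hq]; ring⟩
  have injk := (algebraMap k k').injective
  have hp0 : p.map (algebraMap k k') ≠ 0 := (Polynomial.map_ne_zero_iff injk).2 hp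
  have h1 := mult_one (k' := k') hπ.squarefree hθ
  have h3 := mult_zero (k' := k') hq'
  rw [hq, Polynomial.map_mul, Polynomial.map_pow] at hp0 ⊢
  rw [← count_roots] at h1 h3 ⊢
  rw [roots_mul hp0, Multiset.count_add, roots_pow, Multiset.count_nsmul, h1, h3]
  exact ⟨m, by ring⟩

/-- An irreducible separable polynomial has a root in the separable closure. -/
theorem exists_root_sep {π : k[X]} (hπ : Irreducible π) (hs : π.Separable) :
    ∃ θ : k', aeval θ π = 0 := by
  haveI : IsSepClosed k' := IsSepClosure.sep_closed k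
  have hs' : (π.map (algebraMap k k')).Splits := IsSepClosed.splits_codomain _ hs
  have hd : (π.map (algebraMap k k')).degree ≠ 0 := by
    rw [degree_map]
    exact hπ.degree_pos.ne'
  obtain ⟨θ, hθ⟩ := hs'.exists_eval_eq_zero hd
  exact ⟨θ, by rw [← eval_map_algebraMap]; exact hθ⟩

end

end Pool.Agent.TH115.GD
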