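import Pool.Agent.TH115.SD.GlobSign
import Pool.Agent.TH115.SD.RootM

/-!
The conditions of the second descent at the finite places.
-/

set_option autoImplicit false
set_option linter.all false

open Polynomial IsDedekindDomain WeierstrassCurve WeierstrassCurve.Affine
open scoped Classical

namespace Pool.Agent.TH115.GD

section core

variable {k k' K F : Type} [Field k] [Field k'] [Algebra k k'] [Field K] [Algebra k[X] K]
    [Field F] [Algebra k'[X] F] [IsFractionRing k'[X] F] [Algebra K F]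

variable (hT : IsTower k k' K F) (h2 : (2 : k) ≠ 0) {a b : k[X]} (ha : a ≠ 0) (hb : b ≠ 0)
  (hab : a ≠ b) (hco : IsCoprime a b)
  (hsep : ∀ π : k[X], Irreducible π → π ∣ a * b * (a - b) → π.Separable)
  (hodd : Odd (max a.natDegree b.natDegree) ∨ TwoOddFactors a b)

include hT in
theorem wv_poly {p : k[X]} (hp : p ≠ 0) (θ : k') :
    IsSquare (wv (pl θ) (algebraMap K (Comp k'[X] F (pl θ)) (algebraMap k[X] K p))) ↔
      Even (rootMultiplicity θ (p.map (algebraMap k k'))) := by
  rw [IsScalarTower.algebraMap_apply K F (Comp k'[X] F (pl θ)), hT.map, wv_coe,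
    val_poly θ ((Polynomial.map_ne_zero_iff (algebraMap k k').injective).2 hp), isSquare_exp,
    even_neg]
  exact Int.even_coe_nat _

include hT in
theorem wv_one {p : k[X]} {θ : k'} (hp : aeval θ p ≠ 0) :
    wv (pl θ) (algebraMap K (Comp k'[X] F (pl θ)) (algebraMap k[X] K p)) = 1 := by
  rw [IsScalarTower.algebraMap_apply K F (Comp k'[X] F (pl θ)), hT.map, wv_coe]
  apply val_eq_one
  rw [eval_map_algebraMap]
  exact hp

include hT in
theorem wv_le (p : k[X]) (θ : k') :
    wv (pl θ) (algebraMap K (Comp k'[X] F (pl θ)) (algebraMap k[X] K p)) ≤ 1 := by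
  rw [IsScalarTower.algebraMap_apply K F (Comp k'[X] F (pl θ)), hT.map, wv_coe]
  exact (pl θ).valuation_le_one _

theorem aeval_ne_of_coprime {k k' : Type} [Field k] [Field k'] [Algebra k k'] {θ : k'}
    {p q : k[X]} (h : IsCoprime p q) (hp : aeval θ p = 0) : aeval θ q ≠ 0 := by
  intro hq
  obtain ⟨u, v, huv⟩ := h
  have := congrArg (aeval θ) huv
  rw [map_add, map_mul, map_mul, hp, hq, mul_zero, mul_zero, add_zero, map_one] at this
  exact zero_ne_one this

theorem aeval_ne_of_dvd {k k' : Type} [Field k] [Field k'] [Algebra k k'] {θ : k'}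
    {p q : k[X]} (h : p ∣ q) (hq : aeval θ q ≠ 0) : aeval θ p ≠ 0 := by
  intro hp
  obtain ⟨r, rfl⟩ := h
  rw [map_mul, hp, zero_mul] at hq
  exact hq rfl

theorem aeval_of_odd {k k' : Type} [Field k] [Field k'] [Algebra k k'] {θ : k'}
    {p : k[X]} (h : Odd (rootMultiplicity θ (p.map (algebraMap k k')))) : aeval θ p = 0 := by
  have := isRoot_of_odd h
  rwa [IsRoot.def, eval_map_algebraMap] at this

/-- Parity of a local class. -/
theorem par_class {θ : k'} {L : Type} [Field L] {w : Valuation L (WithZero (Multiplicative ℤ))}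
    {x y c : L} (hc : c ≠ 0) (h : x = c ^ 2 * y) : IsSquare (w x) ↔ IsSquare (w y) := by
  rw [h]
  exact sq_mul_sq w ⟨w c, by rw [map_pow, pow_two]⟩ (pow_ne_zero 2 hc)

theorem PsiRel.two {W : WeierstrassCurve K} {α : K} {c : ℕ → (Sep F ≃ₐ[F] Sep F) → Pt W (Sep F)}
    {t0 t1 : Sep F} {τ : Sep F ≃ₐ[K] Sep F} {η0 η1 : ℤˣ} (h0 : PsiRel W α c 0 t0 τ η0)
    (h1 : PsiRel W α c 1 t1 τ η1) : PsiRel W α c 2 (t0 * t1) τ (η0 * η1) := by
  intro R hR
  have e0 := h0 R hR
  have e1 := h1 R hR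
  have f0 : sg 0 (algebraMap K (Sep F) α) (R + R) = s0 (R + R) := by simp [sg]
  have f1 : sg 1 (algebraMap K (Sep F) α) (R + R) = s1 (algebraMap K (Sep F) α) (R + R) := by
    simp [sg]
  have f2 : sg 2 (algebraMap K (Sep F) α) (R + R) =
      s0 (R + R) * s1 (algebraMap K (Sep F) α) (R + R) := by simp [sg]
  rw [f0] at e0
  rw [f1] at e1
  rw [map_mul, e0, e1, f2]
  push_cast
  ring

include hT h2 ha hb hab hco hsep hodd in
/-- The places dividing `a`. -/
theorem typeA {c : ℕ → (Sep F ≃ₐ[F] Sep F) →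
      Pt (crv (algebraMap k[X] K a) (algebraMap k[X] K b)) (Sep F)}
    (hc : IsTateClass k' (crv (algebraMap k[X] K a) (algebraMap k[X] K b)) c)
    {a0 a1 : F} (hrep : Rep (crv (algebraMap k[X] K a) (algebraMap k[X] K b))
      (algebraMap k[X] K a) (c 1) a0 a1) {A B D : k[X]} (htr : (A, B, D) ∈ Triples a b)
    (q0 : SqEq a0 (emb k K F (A * B)))
    {t0 t1 : Sep F}
    (e0 : t0 ^ 2 = algebraMap K (Sep F) (algebraMap k[X] K (A * B)))
    (e1 : t1 ^ 2 = algebraMap K (Sep F) (algebraMap k[X] K (A * D)))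
    {s : k' ≃ₐ[k] k'} {η0 η1 : ℤˣ} (hη0 : ∀ τ : Sep F ≃ₐ[K] Sep F, Lifts s τ →
      PsiRel (crv (algebraMap k[X] K a) (algebraMap k[X] K b)) (algebraMap k[X] K a) c 0 t0 τ η0)
    (hη1 : ∀ τ : Sep F ≃ₐ[K] Sep F, Lifts s τ →
      PsiRel (crv (algebraMap k[X] K a) (algebraMap k[X] K b)) (algebraMap k[X] K a) c 1 t1 τ η1)
    {θ : k'} (hs : s θ = θ) (hθ : Odd (rootMultiplicity θ (a.map (algebraMap k k')))) :
    (aeval θ A ≠ 0 → ∀ ω : k', ω ^ 2 = aeval θ (B * D) →
      s ω = (((η0 * η1 : ℤˣ) : ℤ) : k') * ω) ∧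
    (aeval θ A = 0 → ∀ ω : k', ω ^ 2 = aeval θ (-b * B * D) →
      s ω = (((η0 * η1 : ℤˣ) : ℤ) : k') * ω) := by
  haveI := hT.sep
  haveI := hT.fracK
  haveI : IsSepClosed k' := IsSepClosure.sep_closed k
  have h2' : (2 : k') ≠ 0 := by
    rw [← map_ofNat (algebraMap k k') 2]
    exact (_root_.map_ne_zero _).2 h2
  have h2K : (2 : K) ≠ 0 := tt h2
  have inj := IsFractionRing.injective k[X] K
  have haK : algebraMap k[X] K a ≠ 0 := by simpa using ha
  have hbK : algebraMap k[X] K b ≠ 0 := by simpa using hb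
  have habK : algebraMap k[X] K a ≠ algebraMap k[X] K b := fun h => hab (inj h)
  obtain ⟨mA, mB, mD, sA, sB, sD, dA, dB, dD, -⟩ := htr
  have hcob : IsCoprime a (a - b) := by
    obtain ⟨x, y, h⟩ := hco
    exact ⟨x + y, -y, by linear_combination h⟩
  have za : aeval θ a = 0 := aeval_of_odd hθ
  have zb : aeval θ b ≠ 0 := aeval_ne_of_coprime hco za
  have zab : aeval θ (a - b) ≠ 0 := aeval_ne_of_coprime hcob za
  have zB : aeval θ B ≠ 0 := aeval_ne_of_dvd dB zb
  have zD : aeval θ D ≠ 0 := aeval_ne_of_dvd dD zab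
  have hp : PlA (wv (pl θ)) (L := Comp k'[X] F (pl θ)) (algebraMap k[X] K a)
      (algebraMap k[X] K b) := by
    refine ⟨?_, wv_le hT a θ, wv_one hT zb, ?_⟩
    · rw [wv_poly hT ha, Nat.not_even_iff_odd]
      exact hθ
    · rw [← map_sub, ← map_sub]
      exact wv_one hT zab
  obtain ⟨⟨T1, hT1, f0, f1⟩, -⟩ := tor_pt h2K haK hbK habK
  have hsq : ∀ x : Comp k'[X] F (pl θ), x ≠ 0 → IsSquare (wv (pl θ) x) →
      ∃ z, z ≠ 0 ∧ x = z ^ 2 := fun x hx h => even_sq θ h2' hx h
  have he : (t0 * t1) ^ 2 = algebraMap K (Sep F) (algebraMap k[X] K (A * B * (A * D))) := by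
    rw [mul_pow, e0, e1, ← map_mul, ← map_mul]
  obtain ⟨T, hTS, hsign, c0, c1, m0, m1, w0, w1⟩ := loc_sign hT h2 ha hb hab hco hsep hodd hc
    hrep (i := 2) he (fun τ hτ => (hη0 τ hτ).two (hη1 τ hτ)) hs {0, T1}
    (by rintro T (rfl | rfl); exacts [add_zero 0, hT1])
    (hdivA h2K haK hbK habK hp hsq hT1 f0 f1) (hsgA h2K haK hbK habK hp)
  obtain ⟨k0, hk0, hq0⟩ := q0
  have hw0 : IsSquare (wv (pl θ) (algebraMap F (Comp k'[X] F (pl θ)) a0)) ↔
      Even (rootMultiplicity θ ((A * B).map (algebraMap k k'))) := by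
    rw [← wv_poly hT (mul_ne_zero mA.ne_zero mB.ne_zero)]
    refine par_class (θ := θ) ((_root_.map_ne_zero (algebraMap F (Comp k'[X] F (pl θ)))).2 hk0) ?_
    rw [hq0, map_mul, map_pow]
    rfl
  have hmult : rootMultiplicity θ ((A * B).map (algebraMap k k')) =
      rootMultiplicity θ (A.map (algebraMap k k')) := by
    have hAB0 : (A * B).map (algebraMap k k') ≠ 0 :=
      (Polynomial.map_ne_zero_iff (algebraMap k k').injective).2
        (mul_ne_zero mA.ne_zero mB.ne_zero)
    rw [Polynomial.map_mul] at hAB0 ⊢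
    rw [rootMultiplicity_mul hAB0, mult_zero zB, add_zero]
  rw [hmult] at hw0
  have hw1 := par_class (w := wv (pl θ)) (θ := θ) m0 w0
  rcases hTS with rfl | rfl
  · -- `T = 0`
    have hev : Even (rootMultiplicity θ (A.map (algebraMap k k'))) := by
      rw [← hw0, hw1]
      have z0 : d0 (algebraMap k[X] K a) (algebraMap k[X] K b)
        (0 : Pt (crv (algebraMap k[X] K a) (algebraMap k[X] K b)) K) = 1 := rfl
      rw [z0, map_one, map_one]
      exact ⟨1, (mul_one 1).symm⟩
    have zA : aeval θ A ≠ 0 := by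
      intro h
      rw [mult_one sA h] at hev
      exact absurd hev (by decide)
    refine ⟨fun _ ω hω => ?_, fun h => absurd h zA⟩
    refine hsign A (B * D) mA.ne_zero ?_ ?_ ω ?_
    · have z2 : dd 2 (algebraMap k[X] K a) (algebraMap k[X] K b)
          (0 : Pt (crv (algebraMap k[X] K a) (algebraMap k[X] K b)) K) = 1 := by
        simp [dd, d0, d1, Point.zero_def]
      rw [z2, one_mul]
      congr 1
      ring
    · rw [eval_map_algebraMap, map_mul]
      exact mul_ne_zero zB zD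
    · rw [eval_map_algebraMap]
      exact hω
  · -- `T = (0, 0)`
    have hod : ¬ Even (rootMultiplicity θ (A.map (algebraMap k k'))) := by
      rw [← hw0, hw1, f0, map_mul, map_mul, hp.vb, mul_one]
      exact hp.va
    have zA : aeval θ A = 0 := by
      by_contra h
      rw [mult_zero h] at hod
      exact hod (by decide)
    refine ⟨fun h => absurd zA h, fun _ ω hω => ?_⟩
    refine hsign (a * A) (-b * B * D) (mul_ne_zero ha mA.ne_zero) ?_ ?_ ω ?_
    · have z2 : dd 2 (algebraMap k[X] K a) (algebraMap k[X] K b) T =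
          algebraMap k[X] K a * algebraMap k[X] K b * (-algebraMap k[X] K a) := by
        simp [dd, f0, f1]
      rw [z2, ← map_neg, ← map_mul, ← map_mul, ← map_mul]
      congr 1
      ring
    · rw [eval_map_algebraMap, map_mul, map_mul, map_neg]
      exact mul_ne_zero (mul_ne_zero (neg_ne_zero.2 zb) zB) zD
    · rw [eval_map_algebraMap]
      exact hω

include hT h2 ha hb hab hco hsep hodd in
/-- The places dividing `b`. -/
theorem typeB {c : ℕ → (Sep F ≃ₐ[F] Sep F) →
      Pt (crv (algebraMap k[X] K a) (algebraMap k[X] K b)) (Sep F)}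
    (hc : IsTateClass k' (crv (algebraMap k[X] K a) (algebraMap k[X] K b)) c)
    {a0 a1 : F} (hrep : Rep (crv (algebraMap k[X] K a) (algebraMap k[X] K b))
      (algebraMap k[X] K a) (c 1) a0 a1) {A B D : k[X]} (htr : (A, B, D) ∈ Triples a b)
    (q0 : SqEq a0 (emb k K F (A * B)))
    {t1 : Sep F}
    (e1 : t1 ^ 2 = algebraMap K (Sep F) (algebraMap k[X] K (A * D)))
    {s : k' ≃ₐ[k] k'} {η1 : ℤˣ} (hη1 : ∀ τ : Sep F ≃ₐ[K] Sep F, Lifts s τ →
      PsiRel (crv (algebraMap k[X] K a) (algebraMap k[X] K b)) (algebraMap k[X] K a) c 1 t1 τ η1)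
    {θ : k'} (hs : s θ = θ) (hθ : Odd (rootMultiplicity θ (b.map (algebraMap k k')))) :
    (aeval θ B ≠ 0 → ∀ ω : k', ω ^ 2 = aeval θ (A * D) → s ω = ((η1 : ℤ) : k') * ω) ∧
    (aeval θ B = 0 → ∀ ω : k', ω ^ 2 = aeval θ (-a * A * D) → s ω = ((η1 : ℤ) : k') * ω) := by
  haveI := hT.sep
  haveI := hT.fracK
  haveI : IsSepClosed k' := IsSepClosure.sep_closed k
  have h2' : (2 : k') ≠ 0 := by
    rw [← map_ofNat (algebraMap k k') 2]
    exact (_root_.map_ne_zero _).2 h2
  have h2K : (2 : K) ≠ 0 := tt h2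
  have inj := IsFractionRing.injective k[X] K
  have haK : algebraMap k[X] K a ≠ 0 := by simpa using ha
  have hbK : algebraMap k[X] K b ≠ 0 := by simpa using hb
  have habK : algebraMap k[X] K a ≠ algebraMap k[X] K b := fun h => hab (inj h)
  obtain ⟨mA, mB, mD, sA, sB, sD, dA, dB, dD, -⟩ := htr
  have hcob : IsCoprime b (a - b) := by
    obtain ⟨x, y, h⟩ := hco
    exact ⟨x + y, x, by linear_combination h⟩
  have zb : aeval θ b = 0 := aeval_of_odd hθ
  have za : aeval θ a ≠ 0 := aeval_ne_of_coprime hco.symm zb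
  have zab : aeval θ (a - b) ≠ 0 := aeval_ne_of_coprime hcob zb
  have zA : aeval θ A ≠ 0 := aeval_ne_of_dvd dA za
  have zD : aeval θ D ≠ 0 := aeval_ne_of_dvd dD zab
  have hp : PlB (wv (pl θ)) (L := Comp k'[X] F (pl θ)) (algebraMap k[X] K a)
      (algebraMap k[X] K b) := by
    refine ⟨wv_one hT za, ?_, wv_le hT b θ, ?_⟩
    · rw [wv_poly hT hb, Nat.not_even_iff_odd]
      exact hθ
    · rw [← map_sub, ← map_sub]
      exact wv_one hT zab
  obtain ⟨⟨T1, hT1, f0, f1⟩, -⟩ := tor_pt h2K haK hbK habK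
  have hsq : ∀ x : Comp k'[X] F (pl θ), x ≠ 0 → IsSquare (wv (pl θ) x) →
      ∃ z, z ≠ 0 ∧ x = z ^ 2 := fun x hx h => even_sq θ h2' hx h
  obtain ⟨T, hTS, hsign, c0, c1, m0, m1, w0, w1⟩ := loc_sign hT h2 ha hb hab hco hsep hodd hc
    hrep (i := 1) e1 hη1 hs {0, T1}
    (by rintro T (rfl | rfl); exacts [add_zero 0, hT1])
    (hdivB h2K haK hbK habK hp hsq hT1 f0 f1) (hsgB h2K haK hbK habK hp)
  obtain ⟨k0, hk0, hq0⟩ := q0
  have hw0 : IsSquare (wv (pl θ) (algebraMap F (Comp k'[X] F (pl θ)) a0)) ↔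
      Even (rootMultiplicity θ ((A * B).map (algebraMap k k'))) := by
    rw [← wv_poly hT (mul_ne_zero mA.ne_zero mB.ne_zero)]
    refine par_class (θ := θ) ((_root_.map_ne_zero (algebraMap F (Comp k'[X] F (pl θ)))).2 hk0) ?_
    rw [hq0, map_mul, map_pow]
    rfl
  have hmult : rootMultiplicity θ ((A * B).map (algebraMap k k')) =
      rootMultiplicity θ (B.map (algebraMap k k')) := by
    have hAB0 : (A * B).map (algebraMap k k') ≠ 0 :=
      (Polynomial.map_ne_zero_iff (algebraMap k k').injective).2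
        (mul_ne_zero mA.ne_zero mB.ne_zero)
    rw [Polynomial.map_mul] at hAB0 ⊢
    rw [rootMultiplicity_mul hAB0, mult_zero zA, zero_add]
  rw [hmult] at hw0
  have hw1 := par_class (w := wv (pl θ)) (θ := θ) m0 w0
  rcases hTS with rfl | rfl
  · -- `T = 0`
    have hev : Even (rootMultiplicity θ (B.map (algebraMap k k'))) := by
      rw [← hw0, hw1]
      have z0 : d0 (algebraMap k[X] K a) (algebraMap k[X] K b)
        (0 : Pt (crv (algebraMap k[X] K a) (algebraMap k[X] K b)) K) = 1 := rfl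
      rw [z0, map_one, map_one]
      exact ⟨1, (mul_one 1).symm⟩
    have zB : aeval θ B ≠ 0 := by
      intro h
      rw [mult_one sB h] at hev
      exact absurd hev (by decide)
    refine ⟨fun _ ω hω => ?_, fun h => absurd h zB⟩
    refine hsign 1 (A * D) one_ne_zero ?_ ?_ ω ?_
    · have z2 : dd 1 (algebraMap k[X] K a) (algebraMap k[X] K b)
          (0 : Pt (crv (algebraMap k[X] K a) (algebraMap k[X] K b)) K) = 1 := by
        simp [dd, d0, d1, Point.zero_def]
      rw [z2, one_mul]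
      congr 1
      ring
    · rw [eval_map_algebraMap, map_mul]
      exact mul_ne_zero zA zD
    · rw [eval_map_algebraMap]
      exact hω
  · -- `T = (0, 0)`
    have hod : ¬ Even (rootMultiplicity θ (B.map (algebraMap k k'))) := by
      rw [← hw0, hw1, f0, map_mul, map_mul, hp.va, one_mul]
      exact hp.vb
    have zB : aeval θ B = 0 := by
      by_contra h
      rw [mult_zero h] at hod
      exact hod (by decide)
    refine ⟨fun h => absurd zB h, fun _ ω hω => ?_⟩
    refine hsign 1 (-a * A * D) one_ne_zero ?_ ?_ ω ?_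
    · have z2 : dd 1 (algebraMap k[X] K a) (algebraMap k[X] K b) T = -algebraMap k[X] K a := by
        simp [dd, f1]
      rw [z2, ← map_neg, ← map_mul]
      congr 1
      ring
    · rw [eval_map_algebraMap, map_mul, map_mul, map_neg]
      exact mul_ne_zero (mul_ne_zero (neg_ne_zero.2 za) zA) zD
    · rw [eval_map_algebraMap]
      exact hω

include hT h2 ha hb hab hco hsep hodd in
/-- The places dividing `a - b`. -/
theorem typeC {c : ℕ → (Sep F ≃ₐ[F] Sep F) →
      Pt (crv (algebraMap k[X] K a) (algebraMap k[X] K b)) (Sep F)}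
    (hc : IsTateClass k' (crv (algebraMap k[X] K a) (algebraMap k[X] K b)) c)
    {a0 a1 : F} (hrep : Rep (crv (algebraMap k[X] K a) (algebraMap k[X] K b))
      (algebraMap k[X] K a) (c 1) a0 a1) {A B D : k[X]} (htr : (A, B, D) ∈ Triples a b)
    (q1 : SqEq a1 (emb k K F (A * D)))
    {t0 : Sep F}
    (e0 : t0 ^ 2 = algebraMap K (Sep F) (algebraMap k[X] K (A * B)))
    {s : k' ≃ₐ[k] k'} {η0 : ℤˣ} (hη0 : ∀ τ : Sep F ≃ₐ[K] Sep F, Lifts s τ →
      PsiRel (crv (algebraMap k[X] K a) (algebraMap k[X] K b)) (algebraMap k[X] K a) c 0 t0 τ η0)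
    {θ : k'} (hs : s θ = θ) (hθ : Odd (rootMultiplicity θ ((a - b).map (algebraMap k k')))) :
    (aeval θ D ≠ 0 → ∀ ω : k', ω ^ 2 = aeval θ (A * B) → s ω = ((η0 : ℤ) : k') * ω) ∧
    (aeval θ D = 0 → ∀ ω : k', ω ^ 2 = aeval θ (a * A * B) → s ω = ((η0 : ℤ) : k') * ω) := by
  haveI := hT.sep
  haveI := hT.fracK
  haveI : IsSepClosed k' := IsSepClosure.sep_closed k
  have h2' : (2 : k') ≠ 0 := by
    rw [← map_ofNat (algebraMap k k') 2]
    exact (_root_.map_ne_zero _).2 h2
  have h2K : (2 : K) ≠ 0 := tt h2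
  have inj := IsFractionRing.injective k[X] K
  have haK : algebraMap k[X] K a ≠ 0 := by simpa using ha
  have hbK : algebraMap k[X] K b ≠ 0 := by simpa using hb
  have habK : algebraMap k[X] K a ≠ algebraMap k[X] K b := fun h => hab (inj h)
  obtain ⟨mA, mB, mD, sA, sB, sD, dA, dB, dD, -⟩ := htr
  have hcoa : IsCoprime (a - b) a := by
    obtain ⟨x, y, h⟩ := hco
    exact ⟨-y, x + y, by linear_combination h⟩
  have hcob : IsCoprime (a - b) b := by
    obtain ⟨x, y, h⟩ := hco
    exact ⟨x, x + y, by linear_combination h⟩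
  have zab : aeval θ (a - b) = 0 := aeval_of_odd hθ
  have za : aeval θ a ≠ 0 := aeval_ne_of_coprime hcoa zab
  have zb : aeval θ b ≠ 0 := aeval_ne_of_coprime hcob zab
  have zA : aeval θ A ≠ 0 := aeval_ne_of_dvd dA za
  have zB : aeval θ B ≠ 0 := aeval_ne_of_dvd dB zb
  have hp : PlC (wv (pl θ)) (L := Comp k'[X] F (pl θ)) (algebraMap k[X] K a)
      (algebraMap k[X] K b) := by
    refine ⟨wv_one hT za, wv_one hT zb, ?_⟩
    rw [← map_sub, ← map_sub, wv_poly hT (sub_ne_zero.2 hab), Nat.not_even_iff_odd]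
    exact hθ
  obtain ⟨-, ⟨T1, hT1, f0, f1⟩⟩ := tor_pt h2K haK hbK habK
  have hsq : ∀ x : Comp k'[X] F (pl θ), x ≠ 0 → IsSquare (wv (pl θ) x) →
      ∃ z, z ≠ 0 ∧ x = z ^ 2 := fun x hx h => even_sq θ h2' hx h
  obtain ⟨T, hTS, hsign, c0, c1, m0, m1, w0, w1⟩ := loc_sign hT h2 ha hb hab hco hsep hodd hc
    hrep (i := 0) e0 hη0 hs {0, T1}
    (by rintro T (rfl | rfl); exacts [add_zero 0, hT1])
    (hdivC h2K haK hbK habK hp hsq hT1 f0 f1) (hsgC h2K haK hbK habK hp)
  obtain ⟨k0, hk0, hq0⟩ := q1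
  have hw0 : IsSquare (wv (pl θ) (algebraMap F (Comp k'[X] F (pl θ)) a1)) ↔
      Even (rootMultiplicity θ ((A * D).map (algebraMap k k'))) := by
    rw [← wv_poly hT (mul_ne_zero mA.ne_zero mD.ne_zero)]
    refine par_class (θ := θ) ((_root_.map_ne_zero (algebraMap F (Comp k'[X] F (pl θ)))).2 hk0) ?_
    rw [hq0, map_mul, map_pow]
    rfl
  have hmult : rootMultiplicity θ ((A * D).map (algebraMap k k')) =
      rootMultiplicity θ (D.map (algebraMap k k')) := by
    have hAB0 : (A * D).map (algebraMap k k') ≠ 0 :=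
      (Polynomial.map_ne_zero_iff (algebraMap k k').injective).2
        (mul_ne_zero mA.ne_zero mD.ne_zero)
    rw [Polynomial.map_mul] at hAB0 ⊢
    rw [rootMultiplicity_mul hAB0, mult_zero zA, zero_add]
  rw [hmult] at hw0
  have hw1 := par_class (w := wv (pl θ)) (θ := θ) m1 w1
  rcases hTS with rfl | rfl
  · -- `T = 0`
    have hev : Even (rootMultiplicity θ (D.map (algebraMap k k'))) := by
      rw [← hw0, hw1]
      have z0 : d1 (algebraMap k[X] K a) (algebraMap k[X] K b)
        (0 : Pt (crv (algebraMap k[X] K a) (algebraMap k[X] K b)) K) = 1 := rfl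
      rw [z0, map_one, map_one]
      exact ⟨1, (mul_one 1).symm⟩
    have zD : aeval θ D ≠ 0 := by
      intro h
      rw [mult_one sD h] at hev
      exact absurd hev (by decide)
    refine ⟨fun _ ω hω => ?_, fun h => absurd h zD⟩
    refine hsign 1 (A * B) one_ne_zero ?_ ?_ ω ?_
    · have z2 : dd 0 (algebraMap k[X] K a) (algebraMap k[X] K b)
          (0 : Pt (crv (algebraMap k[X] K a) (algebraMap k[X] K b)) K) = 1 := by
        simp [dd, d0, d1, Point.zero_def]
      rw [z2, one_mul]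
      congr 1
      ring
    · rw [eval_map_algebraMap, map_mul]
      exact mul_ne_zero zA zB
    · rw [eval_map_algebraMap]
      exact hω
  · -- `T = (a, 0)`
    have hod : ¬ Even (rootMultiplicity θ (D.map (algebraMap k k'))) := by
      rw [← hw0, hw1, f1, map_mul, map_mul, hp.va, one_mul, map_sub]
      exact hp.vab
    have zD : aeval θ D = 0 := by
      by_contra h
      rw [mult_zero h] at hod
      exact hod (by decide)
    refine ⟨fun h => absurd zD h, fun _ ω hω => ?_⟩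
    refine hsign 1 (a * A * B) one_ne_zero ?_ ?_ ω ?_
    · have z2 : dd 0 (algebraMap k[X] K a) (algebraMap k[X] K b) T = algebraMap k[X] K a := by
        simp [dd, f0]
      rw [z2, ← map_mul]
      congr 1
      ring
    · rw [eval_map_algebraMap, map_mul, map_mul]
      exact mul_ne_zero (mul_ne_zero za zA) zB
    · rw [eval_map_algebraMap]
      exact hω

end core

end Pool.Agent.TH115.GD
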