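import Pool.Agent.TH115.GD.Gen2

/-!
The three sign characters on the points of order two, with their functions.
-/

set_option autoImplicit false
set_option linter.all false

open WeierstrassCurve WeierstrassCurve.Affine
open scoped Classical

namespace Pool.Agent.TH115.GD

section fld

variable {F : Type*} [Field F] {W : Affine F} {a b : F}

/-- The sign characters. -/
noncomputable def sg (i : Fin 3) (a : F) (P : W.Point) : F :=
  if i = 0 then s0 P else if i = 1 then s1 a P else s0 P * s1 a P

noncomputable def hh (i : Fin 3) (a b : F) (P : W.Point) : F :=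
  if i = 0 then h0 a b P else if i = 1 then h1 a b P else h0 a b P * h1 a b P

noncomputable def dd (i : Fin 3) (a b : F) (P : W.Point) : F :=
  if i = 0 then d0 a b P else if i = 1 then d1 a b P else d0 a b P * d1 a b P

theorem sg_sq (i : Fin 3) (a : F) (T : W.Point) : sg i a T = 1 ∨ sg i a T = -1 := by
  unfold sg
  split_ifs
  · exact s0_sq T
  · exact s1_sq a T
  · rcases s0_sq T with h | h <;> rcases s1_sq a T with h' | h' <;> rw [h, h'] <;> simp

theorem sg_ne (i : Fin 3) (a : F) (T : W.Point) : sg i a T ≠ 0 := by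
  rcases sg_sq i a T with h | h <;> rw [h] <;> simp

theorem hh_sq (h : IsE W a b) (i : Fin 3) (P : W.Point) : hh i a b P ^ 2 = dd i a b (P + P) := by
  unfold hh dd
  split_ifs
  · exact h0_sq h P
  · exact h1_sq h P
  · rw [mul_pow, h0_sq h, h1_sq h]

theorem hh_ne (h : IsE W a b) (i : Fin 3) (P : W.Point) : hh i a b P ≠ 0 := by
  unfold hh
  split_ifs
  · exact h0_ne h P
  · exact h1_ne h P
  · exact mul_ne_zero (h0_ne h P) (h1_ne h P)

theorem dd_ne (h : IsE W a b) (i : Fin 3) (P : W.Point) : dd i a b P ≠ 0 := by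
  unfold dd
  split_ifs
  · exact d0_ne h P
  · exact d1_ne h P
  · exact mul_ne_zero (d0_ne h P) (d1_ne h P)

theorem hh_translate (h : IsE W a b) (i : Fin 3) {P T : W.Point} (hT : T + T = 0)
    (hPT : P + P = 0 → T = 0) : hh i a b (P + T) = sg i a T * hh i a b P := by
  obtain ⟨e0, e1⟩ := h_translate h hT hPT
  unfold hh sg
  split_ifs
  · exact e0
  · exact e1
  · rw [e0, e1]; ring

end fld

universe u

section action

variable {K Ω Ω' : Type u} [Field K] [Field Ω] [Field Ω'] [Algebra K Ω] [Algebra K Ω']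
  (W : WeierstrassCurve K)

theorem sg_act (i : Fin 3) (φ : Ω →ₐ[K] Ω') (a : Ω) (P : Pt W Ω) :
    sg i (φ a) (act W φ P) = φ (sg i a P) := by
  unfold sg
  split_ifs
  · exact s0_act W φ P
  · exact s1_act W φ a P
  · rw [s0_act, s1_act, map_mul]

theorem hh_act (i : Fin 3) (φ : Ω →ₐ[K] Ω') (a b : Ω) (P : Pt W Ω) :
    hh i (φ a) (φ b) (act W φ P) = φ (hh i a b P) := by
  unfold hh
  split_ifs
  · exact h0_act W φ a b P
  · exact h1_act W φ a b P
  · rw [h0_act, h1_act, map_mul]

theorem dd_act (i : Fin 3) (φ : Ω →ₐ[K] Ω') (a b : Ω) (P : Pt W Ω) :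
    dd i (φ a) (φ b) (act W φ P) = φ (dd i a b P) := by
  unfold dd
  split_ifs
  · exact d0_act W φ a b P
  · exact d1_act W φ a b P
  · rw [d0_act, d1_act, map_mul]

end action

section cocycle

variable {K F Ω : Type u} [Field K] [Field F] [Field Ω] [Algebra K F] [Algebra F Ω] [Algebra K Ω]
  [IsScalarTower K F Ω] [IsGalois F Ω] (W : WeierstrassCurve K) {a b : K}
  (hL : IsE (W.baseChange Ω).toAffine (algebraMap K Ω a) (algebraMap K Ω b))

include hL

omit [Field F] [Algebra K F] [Algebra F Ω] [IsScalarTower K F Ω] [IsGalois F Ω] in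
theorem sg_add [IsSepClosed Ω] (i : Fin 3) {S T : Pt W Ω} (hS : S + S = 0) (hT : T + T = 0) :
    sg i (algebraMap K Ω a) (S + T) = sg i (algebraMap K Ω a) S * sg i (algebraMap K Ω a) T := by
  obtain ⟨e0, e1⟩ := s_add W hL hS hT
  unfold sg
  split_ifs
  · exact e0
  · exact e1
  · rw [e0, e1]; ring

omit [Field F] [Algebra K F] [Algebra F Ω] [IsScalarTower K F Ω] [IsGalois F Ω] in
theorem sg_zero (i : Fin 3) : sg i (algebraMap K Ω a) (0 : Pt W Ω) = 1 := by
  unfold sg
  split_ifs <;> simp [s0, s1, Point.zero_def]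

end cocycle

end Pool.Agent.TH115.GD
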