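import Pool.Agent.TH115.SD.Sign

/-!
The extension of the reduction modulo two of a fixed class to the Galois group of `K`.
-/

set_option autoImplicit false
set_option linter.all false

open Polynomial WeierstrassCurve WeierstrassCurve.Affine
open scoped Classical

namespace Pool.Agent.TH115.GD

open Pool.Agent.W309.TD (locConst_apply exists_root compare)

universe u

section gen

variable {K F Ω : Type u} [Field K] [Field F] [Field Ω] [Algebra K F] [Algebra F Ω] [Algebra K Ω]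
  [IsScalarTower K F Ω] (W : WeierstrassCurve K)

/-- `R` is a point of order four such that `τ c - c` is the coboundary of `R` in level two. -/
def Xi (c : ℕ → (Ω ≃ₐ[F] Ω) → Pt W Ω) (τ : Ω ≃ₐ[K] Ω) (R : Pt W Ω) : Prop :=
  (R + R) + (R + R) = 0 ∧ ∀ σ σ' : Ω ≃ₐ[F] Ω, (∀ x, τ (σ' x) = σ (τ x)) →
    act W (ak τ) (c 2 σ') - c 2 σ = act W (rs K σ) R - R

theorem ak_mul (τ τ' : Ω ≃ₐ[K] Ω) : ak (τ * τ') = (ak τ).comp (ak τ') := rfl

variable {W}

theorem Xi.mul [IsGalois F Ω] [IsSepClosed Ω] (hN : Preserves K F Ω) {c : ℕ → (Ω ≃ₐ[F] Ω) → Pt W Ω} {τ τ' : Ω ≃ₐ[K] Ω}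
    {R R' : Pt W Ω} (h : Xi W c τ R) (h' : Xi W c τ' R') :
    Xi W c (τ * τ') (act W (ak τ) R' + R) := by
  refine ⟨?_, fun σ σ'' hσ => ?_⟩
  · have e1 := congrArg (act W (ak τ)) h'.1
    rw [map_add, map_add, map_zero] at e1
    have e2 := h.1
    have : act W (ak τ) R' + R + (act W (ak τ) R' + R) +
        (act W (ak τ) R' + R + (act W (ak τ) R' + R)) =
        (act W (ak τ) R' + act W (ak τ) R' + (act W (ak τ) R' + act W (ak τ) R')) +
          ((R + R) + (R + R)) := by abel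
    rw [this, e1, e2, add_zero]
  · obtain ⟨σ', hσ'⟩ := exists_conj hN τ σ
    have h1 : ∀ x, τ' (σ'' x) = σ' (τ' x) := by
      intro x
      apply τ.injective
      rw [hσ', ← AlgEquiv.mul_apply τ τ', hσ, AlgEquiv.mul_apply]
    have e1 := h'.2 σ' σ'' h1
    have e2 := h.2 σ σ' hσ'
    have hcomp : (ak τ).comp (rs K σ') = (rs K σ).comp (ak τ) := AlgHom.ext fun x => hσ' x
    have e3 := congrArg (act W (ak τ)) e1
    rw [map_sub, map_sub, act_act, ← ak_mul, act_act, hcomp, ← act_act] at e3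
    rw [map_add]
    have e4 : act W (ak (τ * τ')) (c 2 σ'') - c 2 σ =
        (act W (ak (τ * τ')) (c 2 σ'') - act W (ak τ) (c 2 σ')) +
          (act W (ak τ) (c 2 σ') - c 2 σ) := by abel
    rw [e4, e3, e2]
    abel

theorem c_two {c : ℕ → (Ω ≃ₐ[F] Ω) → Pt W Ω} (hc : IsTC W c) (σ : Ω ≃ₐ[F] Ω) :
    c 2 σ + c 2 σ = c 1 σ := by
  rw [← two_nsmul]; exact hc.two 1 σ

theorem c_one {c : ℕ → (Ω ≃ₐ[F] Ω) → Pt W Ω} (hc : IsTC W c) (σ : Ω ≃ₐ[F] Ω) :
    c 1 σ + c 1 σ = 0 := by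
  rw [← two_nsmul, hc.two 0 σ, hc.zero]

theorem Xi.base {c : ℕ → (Ω ≃ₐ[F] Ω) → Pt W Ω} (hc : IsTC W c) (ρ : Ω ≃ₐ[F] Ω)
    (τ : Ω ≃ₐ[K] Ω) (hτ : ∀ x, τ x = ρ x) : Xi W c τ (c 2 ρ) := by
  refine ⟨by rw [c_two hc, c_one hc], fun σ σ' h => ?_⟩
  have h1 : σ * ρ = ρ * σ' := by
    ext x
    rw [AlgEquiv.mul_apply, AlgEquiv.mul_apply, ← hτ, ← hτ, h]
  have e1 := (hc.coc 2).mul σ ρ
  have e2 := (hc.coc 2).mul ρ σ'
  rw [h1, e2] at e1
  have h3 : ak τ = rs K ρ := AlgHom.ext fun x => hτ x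
  rw [h3]
  have e3 : act W (rs K ρ) (c 2 σ') = c 2 σ + act W (rs K σ) (c 2 ρ) - c 2 ρ := by
    rw [← e1]; abel
  rw [e3]; abel

theorem Xi.unique [IsGalois F Ω] [IsSepClosed Ω] (hN : Preserves K F Ω) (hF : NoFour W F)
    {c : ℕ → (Ω ≃ₐ[F] Ω) → Pt W Ω} {τ : Ω ≃ₐ[K] Ω} {R R' : Pt W Ω} (h : Xi W c τ R)
    (h' : Xi W c τ R') : R + R = R' + R' := by
  obtain ⟨D, hD⟩ := fixed_point (K := K) (F := F) W (R - R') (fun σ => by
    obtain ⟨σ', hσ'⟩ := exists_conj hN τ σ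
    have e1 := h.2 σ σ' hσ'
    have e2 := h'.2 σ σ' hσ'
    rw [e1] at e2
    rw [map_sub]
    have : act W (rs K σ) R - act W (rs K σ) R' =
        (act W (rs K σ) R - R) - (act W (rs K σ) R' - R') + (R - R') := by abel
    rw [this, e2]; abel)
  have h4 : (D + D) + (D + D) = 0 := by
    apply act_inj W (incl K F Ω)
    rw [map_add, map_add, hD, map_zero]
    have : R - R' + (R - R') + (R - R' + (R - R')) =
      (R + R + (R + R)) - (R' + R' + (R' + R')) := by abel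
    rw [this, h.1, h'.1, sub_zero]
  have h5 := congrArg (act W (incl K F Ω)) (hF D h4)
  rw [map_add, hD, map_zero] at h5
  have h6 : R + R - (R' + R') = 0 := by
    rw [← h5]; abel
  exact sub_eq_zero.1 h6

end gen

section one

variable {K F Ω : Type u} [Field K] [Field F] [Field Ω] [Algebra K F] [Algebra F Ω] [Algebra K Ω]
  [IsScalarTower K F Ω] [IsGalois F Ω] [IsSepClosed Ω]
  (W : WeierstrassCurve K) {a b : K}
  (hL : IsE (W.baseChange Ω).toAffine (algebraMap K Ω a) (algebraMap K Ω b))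

include hL in
/-- The relation of level one. -/
theorem fixed_rep' (hN : Preserves K F Ω) {c1 : (Ω ≃ₐ[F] Ω) → Pt W Ω}
    (hc2 : ∀ σ, c1 σ + c1 σ = 0) {τ : Ω ≃ₐ[K] Ω} {R : Pt W Ω}
    (hrel : ∀ σ σ' : Ω ≃ₐ[F] Ω, (∀ x, τ (σ' x) = σ (τ x)) →
      act W (ak τ) (c1 σ') - c1 σ = act W (rs K σ) R - R)
    {T : Pt W F} (hT : act W (incl K F Ω) T = R + R)
    {t0 t1 : Ω} {a0 a1 : F} (n0 : t0 ≠ 0) (n1 : t1 ≠ 0)
    (e0 : t0 ^ 2 = algebraMap F Ω a0) (e1 : t1 ^ 2 = algebraMap F Ω a1)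
    (k0 : ∀ σ, σ t0 = s0 (c1 σ) * t0) (k1 : ∀ σ, σ t1 = s1 (algebraMap K Ω a) (c1 σ) * t1) :
    ∃ u0 u1 : F, u0 ≠ 0 ∧ u1 ≠ 0 ∧
      τ (algebraMap F Ω a0) = algebraMap F Ω
        (u0 ^ 2 * (a0 * d0 (algebraMap K F a) (algebraMap K F b) T)) ∧
      τ (algebraMap F Ω a1) = algebraMap F Ω
        (u1 ^ 2 * (a1 * d1 (algebraMap K F a) (algebraMap K F b) T)) := by
  have hd : ∀ σ : Ω ≃ₐ[F] Ω, (act W (rs K σ) R - R) + (act W (rs K σ) R - R) = 0 := by
    intro σ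
    obtain ⟨σ', hσ'⟩ := exists_conj hN τ σ
    rw [← hrel σ σ' hσ']
    have h1 : act W (ak τ) (c1 σ') + act W (ak τ) (c1 σ') = 0 :=
      (two_act W (ak τ) _).2 (hc2 σ')
    rw [sub_add_sub_comm, h1, hc2, sub_zero]
  have hfix : ∀ σ : Ω ≃ₐ[F] Ω, act W (rs K σ) (R + R) = R + R := by
    intro σ
    have h1 := hd σ
    rw [sub_add_sub_comm, ← map_add] at h1
    exact sub_eq_zero.1 h1
  have sR := sign_half W hL hfix
  set A := algebraMap K Ω a with hA
  set B := algebraMap K Ω b with hB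
  have ga : incl K F Ω (algebraMap K F a) = A := (IsScalarTower.algebraMap_apply K F Ω a).symm
  have gb : incl K F Ω (algebraMap K F b) = B := (IsScalarTower.algebraMap_apply K F Ω b).symm
  have key : ∀ σ σ' : Ω ≃ₐ[F] Ω, (∀ x, τ (σ' x) = σ (τ x)) →
      act W (ak τ) (c1 σ') = c1 σ + (act W (rs K σ) R - R) := by
    intro σ σ' h
    rw [← hrel σ σ' h]; abel
  have s0τ : ∀ P : Pt W Ω, τ (s0 P) = s0 (act W (ak τ) P) := fun P => (s0_act W (ak τ) P).symm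
  have s1τ : ∀ P : Pt W Ω, τ (s1 A P) = s1 A (act W (ak τ) P) := fun P => by
    have := s1_act W (ak τ) A P
    rw [(ak τ).commutes] at this
    exact this.symm
  obtain ⟨u0, hu0, q0⟩ := compare (K := F) (t := τ t0) (u := t0 * h0 A B R)
    ((map_ne_zero τ).2 n0) (mul_ne_zero n0 (h0_ne hL R))
    (fun σ => s0 (c1 σ) * s0 (act W (rs K σ) R - R))
    (fun σ => mul_ne_zero (s0_ne _) (s0_ne _)) (fun σ => by
      obtain ⟨σ', hσ'⟩ := exists_conj hN τ σ
      rw [← hσ', k0, map_mul, s0τ, key σ σ' hσ', (s_add W hL (hc2 σ) (hd σ)).1])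
    (fun σ => by
      rw [map_mul, k0, (sR σ).2.1]; ring)
  obtain ⟨u1, hu1, q1⟩ := compare (K := F) (t := τ t1) (u := t1 * h1 A B R)
    ((map_ne_zero τ).2 n1) (mul_ne_zero n1 (h1_ne hL R))
    (fun σ => s1 A (c1 σ) * s1 A (act W (rs K σ) R - R))
    (fun σ => mul_ne_zero (s1_ne _ _) (s1_ne _ _)) (fun σ => by
      obtain ⟨σ', hσ'⟩ := exists_conj hN τ σ
      rw [← hσ', k1, map_mul, s1τ, key σ σ' hσ', (s_add W hL (hc2 σ) (hd σ)).2])
    (fun σ => by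
      rw [map_mul, k1, (sR σ).2.2]; ring)
  refine ⟨u0, u1, hu0, hu1, ?_, ?_⟩
  · rw [← e0, map_pow, q0, mul_pow, mul_pow, h0_sq hL, ← hT, ← ga, ← gb, d0_act, e0, map_mul,
      map_mul, map_pow]
    rfl
  · rw [← e1, map_pow, q1, mul_pow, mul_pow, h1_sq hL, ← hT, ← ga, ← gb, d1_act, e1, map_mul,
      map_mul, map_pow]
    rfl

include hL in
/-- The point in the relation of level two exists. -/
theorem Xi.exist_aux (hN : Preserves K F Ω) (hF : NoFour W F)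
    (hz : ∀ (τ : Ω ≃ₐ[K] Ω) (a0 a1 u0 u1 : F) (T : Pt W F), a0 ≠ 0 → a1 ≠ 0 →
      u0 ≠ 0 → u1 ≠ 0 → T + T = 0 →
      τ (algebraMap F Ω a0) = algebraMap F Ω
        (u0 ^ 2 * (a0 * d0 (algebraMap K F a) (algebraMap K F b) T)) →
      τ (algebraMap F Ω a1) = algebraMap F Ω
        (u1 ^ 2 * (a1 * d1 (algebraMap K F a) (algebraMap K F b) T)) → T = 0)
    {c : ℕ → (Ω ≃ₐ[F] Ω) → Pt W Ω} (hc : IsTC W c) (hi : IsInv W c) (τ : Ω ≃ₐ[K] Ω) :
    ∃ R, Xi W c τ R := by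
  obtain ⟨m, Q, hQ, hinv⟩ := hi τ
  have hpow : ∀ (j k : ℕ) (σ), 2 ^ k • c (k + j) σ = c j σ := by
    intro j k
    induction k with
    | zero => intro σ; rw [pow_zero, one_smul, zero_add]
    | succ k ih =>
      intro σ
      rw [pow_succ, mul_smul, show k + 1 + j = (k + j) + 1 by ring, hc.two, ih]
  set R := Q (m + 2) with hR
  have hrel : ∀ σ σ' : Ω ≃ₐ[F] Ω, (∀ x, τ (σ' x) = σ (τ x)) →
      act W (ak τ) (c 2 σ') - c 2 σ = act W (rs K σ) R - R := by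
    intro σ σ' h
    rw [← hinv (m + 2) σ σ' h, smul_sub, ← map_nsmul, hpow, hpow]
  have hQpow : ∀ (k : ℕ), 2 ^ k • Q k = 0 := by
    intro k
    induction k with
    | zero => rw [hQ.zero, smul_zero]
    | succ k ih =>
      rw [pow_succ, mul_smul, hQ.two, ih]
  have hrel1 : ∀ σ σ' : Ω ≃ₐ[F] Ω, (∀ x, τ (σ' x) = σ (τ x)) →
      act W (ak τ) (c 1 σ') - c 1 σ = act W (rs K σ) (R + R) - (R + R) := by
    intro σ σ' h
    have e := hrel σ σ' h
    rw [← c_two hc, ← c_two hc, map_add, map_add]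
    have : act W (ak τ) (c 2 σ') + act W (ak τ) (c 2 σ') - (c 2 σ + c 2 σ) =
      (act W (ak τ) (c 2 σ') - c 2 σ) + (act W (ak τ) (c 2 σ') - c 2 σ) := by abel
    rw [this, e]; abel
  have hfix : ∀ σ : Ω ≃ₐ[F] Ω, act W (rs K σ) ((R + R) + (R + R)) =
      (R + R) + (R + R) := by
    intro σ
    obtain ⟨σ', hσ'⟩ := exists_conj hN τ σ
    have e := hrel1 σ σ' hσ'
    have e1 : (act W (ak τ) (c 1 σ') - c 1 σ) + (act W (ak τ) (c 1 σ') - c 1 σ) = 0 := by
      have h1 : act W (ak τ) (c 1 σ') + act W (ak τ) (c 1 σ') = 0 :=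
        (two_act W (ak τ) _).2 (c_one hc σ')
      rw [sub_add_sub_comm, h1, c_one hc, sub_zero]
    rw [e, sub_add_sub_comm, ← map_add] at e1
    exact sub_eq_zero.1 e1
  obtain ⟨T, hTT⟩ := fixed_point (K := K) (F := F) W _ hfix
  have hT2 : T + T = 0 := by
    apply two_of_pow W hF (m + 2)
    apply act_inj W (incl K F Ω)
    rw [map_nsmul, hTT, map_zero, smul_add, smul_add, hR, hQpow]
    simp
  obtain ⟨t0, t1, a0, a1, n0, n1, e0, e1, k0, k1⟩ := kummer_rep W hL (hc.coc 1) (c_one hc)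
  have ha0 : a0 ≠ 0 := by
    rintro rfl
    rw [map_zero] at e0
    exact pow_ne_zero 2 n0 e0
  have ha1 : a1 ≠ 0 := by
    rintro rfl
    rw [map_zero] at e1
    exact pow_ne_zero 2 n1 e1
  obtain ⟨u0, u1, hu0, hu1, f0, f1⟩ := fixed_rep' W hL hN (c_one hc) hrel1 hTT n0 n1 e0 e1 k0 k1
  have hT0 : T = 0 := hz τ _ _ _ _ _ ha0 ha1 hu0 hu1 hT2 f0 f1
  refine ⟨R, ?_, hrel⟩
  rw [← hTT, hT0, map_zero]

end one

section core

variable {k k' K F : Type} [Field k] [Field k'] [Algebra k k'] [Field K] [Algebra k[X] K]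
    [Field F] [Algebra k'[X] F] [IsFractionRing k'[X] F] [Algebra K F]

variable (hT : IsTower k k' K F) (h2 : (2 : k) ≠ 0) {a b : k[X]} (ha : a ≠ 0) (hb : b ≠ 0)
  (hab : a ≠ b) (hco : IsCoprime a b)
  (hsep : ∀ π : k[X], Irreducible π → π ∣ a * b * (a - b) → π.Separable)
  (hodd : Odd (max a.natDegree b.natDegree) ∨ TwoOddFactors a b)

include hT h2 ha hb hab hco hsep hodd in
theorem noFourF : NoFour (crv (algebraMap k[X] K a) (algebraMap k[X] K b)) F := by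
  haveI := hT.sep
  haveI := hT.fracK
  have hprod : a * b * (a - b) ≠ 0 := mul_ne_zero (mul_ne_zero ha hb) (sub_ne_zero.2 hab)
  have hs : ((a * b * (a - b)).map (algebraMap k k')).Splits := splits_of_sep hprod hsep
  have ho : TwoOdd k k' a b := by
    rcases hodd with h | h
    · exact twoOdd_of_odd ha hb hab hs h
    · exact twoOdd_of_factors ha hb hab hsep h
  exact noFour (k' := k') (F := F) hT.map h2 ha hb hab hco ho

include hT h2 ha hb hab hco hsep hodd in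
/-- The point in the relation of level two exists. -/
theorem Xi.exist {c : ℕ → (Sep F ≃ₐ[F] Sep F) →
      Pt (crv (algebraMap k[X] K a) (algebraMap k[X] K b)) (Sep F)}
    (hc : IsTC (crv (algebraMap k[X] K a) (algebraMap k[X] K b)) c)
    (hi : IsInv (crv (algebraMap k[X] K a) (algebraMap k[X] K b)) c)
    (τ : Sep F ≃ₐ[K] Sep F) :
    ∃ R, Xi (crv (algebraMap k[X] K a) (algebraMap k[X] K b)) c τ R := by
  haveI := hT.sep
  haveI := hT.fracK
  have h2K : (2 : K) ≠ 0 := tt h2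
  have inj := IsFractionRing.injective k[X] K
  have haK : algebraMap k[X] K a ≠ 0 := by simpa using ha
  have hbK : algebraMap k[X] K b ≠ 0 := by simpa using hb
  have habK : algebraMap k[X] K a ≠ algebraMap k[X] K b := fun h => hab (inj h)
  exact Xi.exist_aux _ (isE _ _ (Sep F) h2K haK hbK habK) (preserves hT.map)
    (noFourF hT h2 ha hb hab hco hsep hodd) (fun τ a0 a1 u0 u1 T n0 n1 m0 m1 hTT e0 e1 =>
    fixed_zero hT h2 ha hb hab hco hsep hodd τ n0 n1 m0 m1 hTT e0 e1) hc hi τ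

end core

end Pool.Agent.TH115.GD
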